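import Pool.Agent.Work.MP_33747a_co.Min

/-! The real-variable lemma: testing the pointwise identity against the resolvent. -/

set_option autoImplicit false

namespace Pool.Agent.Work.MP_33747a_co

open Finset

variable {ι : Type*} [Fintype ι] [DecidableEq ι] {b : ι → ι → ℝ}

/-- the quadratic that vanishes at the mean-field density -/
def Lam (u j f t ρ y : ℝ) : ℝ :=
  ρ * y * (1 - y + 4 * u) + (1 + 2 * u - (1 + j * t) * y) ^ 2 + j ^ 2 * f * t ^ 2 * y ^ 2 -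
    t * y ^ 2 + 2 * u * t * y

omit [DecidableEq ι] in
theorem sq_avg_le (hb : Stoch b) (y : ι → ℝ) : ∑ v, (∑ w, b v w * y w) ^ 2 ≤ ∑ v, y v ^ 2 := by
  have h : ∀ v, (∑ w, b v w * y w) ^ 2 ≤ ∑ w, b v w * y w ^ 2 := fun v => by
    have h0 : 0 ≤ ∑ w, b v w * (y w - ∑ w, b v w * y w) ^ 2 :=
      sum_nonneg fun w _ => mul_nonneg (hb.nonneg v w) (sq_nonneg _)
    generalize hm : ∑ w, b v w * y w = m at h0 ⊢
    have h1 : ∑ w, b v w * (y w - m) ^ 2 =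
        ∑ w, b v w * y w ^ 2 - 2 * m * ∑ w, b v w * y w + m ^ 2 * ∑ w, b v w := by
      rw [mul_sum, mul_sum, ← sum_sub_distrib, ← sum_add_distrib]
      exact sum_congr rfl fun w _ => by ring
    rw [h1, hm, hb.row] at h0
    linarith
  refine (sum_le_sum fun v _ => h v).trans (le_of_eq ?_)
  rw [sum_comm]
  exact sum_congr rfl fun w _ => by
    simp only [← sum_mul, fun v => hb.symm v w, hb.row, one_mul]

omit [DecidableEq ι] in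
theorem sum_avg (hb : Stoch b) (y : ι → ℝ) : ∑ v, ∑ w, b v w * y w = ∑ v, y v := by
  rw [sum_comm]
  exact sum_congr rfl fun w _ => by
    simp only [← sum_mul, fun v => hb.symm v w, hb.row, one_mul]

omit [DecidableEq ι] in
theorem R_le (hb : Stoch b) {y : ι → ℝ} {m : ℝ} (h : ∀ w, y w ≤ m) (v : ι) :
    ∑ w, b v w * y w ≤ m := by
  refine (sum_le_sum fun w _ => mul_le_mul_of_nonneg_left (h w) (hb.nonneg v w)).trans (le_of_eq ?_)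
  rw [← sum_mul, hb.row, one_mul]

omit [DecidableEq ι] in
theorem R_ge (hb : Stoch b) {y : ι → ℝ} {m : ℝ} (h : ∀ w, m ≤ y w) (v : ι) :
    m ≤ ∑ w, b v w * y w := by
  refine le_trans (le_of_eq ?_)
    (sum_le_sum fun w _ => mul_le_mul_of_nonneg_left (h w) (hb.nonneg v w))
  rw [← sum_mul, hb.row, one_mul]

theorem R_mul {p y A B : ℝ} (h0 : 0 ≤ p) (h1 : p ≤ A) (h2 : -B ≤ y) (h3 : y ≤ B) :
    -(A * B) ≤ p * y ∧ p * y ≤ A * B := by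
  constructor <;> nlinarith

theorem R_sq {y a g : ℝ} (h : y = a + g) : y ^ 2 ≤ 11 / 10 * a ^ 2 + 11 * g ^ 2 := by
  rw [h]
  nlinarith [sq_nonneg (a - 10 * g)]

omit [DecidableEq ι] in
theorem R_con (hb : Stoch b) {z : ι → ℝ} (hz : ∀ v, 0 ≤ z v ∧ z v ≤ 9 / 10) (y : ι → ℝ) :
    ∑ v, (∑ w, b v w * (z w * y w)) ^ 2 ≤ 81 / 100 * ∑ v, y v ^ 2 := by
  refine (sq_avg_le hb _).trans ?_
  rw [mul_sum]
  refine sum_le_sum fun v _ => ?_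
  rw [mul_pow]
  exact mul_le_mul_of_nonneg_right (by nlinarith [hz v]) (sq_nonneg _)

/-- the resolvent vector -/
theorem exists_nu [Nonempty ι] (hb : Stoch b) (z : ι → ℝ) (A C : ℝ) (hA : 0 ≤ A)
    (hz : ∀ v, A ≤ z v ∧ z v ≤ C) (hC : C ≤ 9 / 10) :
    ∃ ν : ι → ℝ, (∀ v, ν v = 1 - ∑ w, b v w * (z w * ν w)) ∧
      ∀ v, 0 ≤ ν v ∧ ν v ≤ 1 ∧ ∀ ν₁ ν₂ : ℝ, ν₁ * (1 - A * C) ≤ 1 - C → 1 - A * ν₁ ≤ ν₂ →
        ν₁ ≤ ν v ∧ ν v ≤ ν₂ := by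
  have hz0 : ∀ v, 0 ≤ z v := fun v => hA.trans (hz v).1
  let T : (ι → ℝ) →ₗ[ℝ] ι → ℝ := Matrix.toLin' (1 + Matrix.of fun v w => b v w * z w)
  have hT : ∀ y v, T y v = y v + ∑ w, b v w * (z w * y w) := fun y v => by
    simp only [T, Matrix.toLin'_apply, Matrix.add_mulVec, Matrix.one_mulVec, Pi.add_apply]
    simp only [Matrix.mulVec, dotProduct, Matrix.of_apply, mul_assoc]
  have hi : Function.Injective T := (injective_iff_map_eq_zero T).2 fun y hy => by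
    have h1 : ∑ v, y v ^ 2 = ∑ v, (∑ w, b v w * (z w * y w)) ^ 2 := sum_congr rfl fun v _ => by
      rw [eq_neg_of_add_eq_zero_left ((hT y v).symm.trans (congrFun hy v)), neg_sq]
    have h2 := R_con hb (fun v => ⟨hz0 v, (hz v).2.trans hC⟩) y
    have h3 : 0 ≤ ∑ v, y v ^ 2 := sum_nonneg fun v _ => sq_nonneg _
    have h4 := (sum_eq_zero_iff_of_nonneg fun v _ => sq_nonneg (y v)).1
      (show ∑ v, y v ^ 2 = 0 by linarith)
    exact funext fun v => pow_eq_zero_iff two_ne_zero |>.1 (h4 v (mem_univ v))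
  obtain ⟨ν, hν⟩ := LinearMap.injective_iff_surjective.1 hi fun _ => 1
  have he : ∀ v, ν v = 1 - ∑ w, b v w * (z w * ν w) := fun v =>
    eq_sub_of_add_eq ((hT ν v).symm.trans (congrFun hν v))
  refine ⟨ν, he, ?_⟩
  obtain ⟨v0, h0⟩ := Finite.exists_min ν
  obtain ⟨v1, h1⟩ := Finite.exists_max ν
  have hAC : A ≤ C := (hz v0).1.trans (hz v0).2
  have hC0 : 0 ≤ C := hA.trans hAC
  have k1 : 0 ≤ ν v1 → 1 - C * ν v1 ≤ ν v0 := fun h => by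
    have := R_le hb (y := fun w => z w * ν w) (m := C * ν v1) (fun w =>
      (mul_le_mul_of_nonneg_left (h1 w) (hz0 w)).trans (mul_le_mul_of_nonneg_right (hz w).2 h)) v0
    linarith [he v0]
  have k0 : 0 ≤ ν v0 := by
    clear * - ν v0 C ι b v1 z hb A hz h0 hz0 he hC0 hC k1 h1
    by_contra hn
    replace hn := (not_le.1 hn).le
    have k2 := R_ge hb (y := fun w => z w * ν w) (m := C * ν v0) (fun w =>
      (mul_le_mul_of_nonpos_right (hz w).2 hn).trans (mul_le_mul_of_nonneg_left (h0 w) (hz0 w))) v1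
    rcases le_total 0 (ν v1) with h | h
    · have k3 : C * ν v1 ≤ C * (1 - C * ν v0) :=
        mul_le_mul_of_nonneg_left (by linarith [he v1]) hC0
      have k4 : ν v0 ≤ C * C * ν v0 := by nlinarith [mul_nonneg hC0 hC0, mul_nonneg hC0 (sub_nonneg.2 hC)]
      nlinarith [k1 h]
    · have := R_le hb (y := fun w => z w * ν w) (m := 0) (fun w =>
        mul_nonpos_of_nonneg_of_nonpos (hz0 w) ((h1 w).trans h)) v0
      linarith [he v0]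
  have k2 : ν v1 ≤ 1 - A * ν v0 := by
    have := R_ge hb (y := fun w => z w * ν w) (m := A * ν v0) (fun w =>
      (mul_le_mul_of_nonneg_right (hz w).1 k0).trans (mul_le_mul_of_nonneg_left (h0 w) (hz0 w))) v1
    linarith [he v1]
  have k3 : 1 - C ≤ ν v0 * (1 - A * C) := by
    nlinarith [k1 (k0.trans (h0 v1)), mul_le_mul_of_nonneg_left k2 hC0]
  refine fun v => ⟨k0.trans (h0 v), by linarith [h1 v, mul_nonneg hA k0], fun ν₁ ν₂ e1 e2 => ?_⟩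
  have k4 : ν₁ ≤ ν v0 := le_of_mul_le_mul_right (e1.trans k3) (by nlinarith)
  exact ⟨k4.trans (h0 v), by linarith [h1 v, mul_le_mul_of_nonneg_left k4 hA]⟩

/-- the root of `Lam` and the constants attached to it -/
theorem exists_root (u j f t ρ θ₁ θ₂ : ℝ) (hu0 : 0 ≤ u) (hu : u ≤ 1 / 10 ^ 20) (hj0 : 0 ≤ j)
    (hj : j ≤ 1 / 10 ^ 20) (hf0 : 0 ≤ j * f) (hf : j * f ≤ 1) (ht0 : 1 / 100 ≤ t) (ht : t ≤ 3)
    (hρ0 : 1 - 1 / 10 ^ 20 ≤ ρ) (hρ : ρ ≤ 1) (h1 : θ₁ * (1 + θ₁) ≤ t - 1 / 10 ^ 6)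
    (h20 : 0 ≤ θ₂) (h2 : t + 1 / 10 ^ 6 ≤ θ₂ * (1 + θ₂)) :
    ∃ c α θ ω : ℝ, 0 ≤ c ∧ c ≤ 1 ∧ 0 ≤ ω ∧ ω ≤ 1 / 10 ^ 18 ∧ 99 / 100 ≤ α ∧ θ * α = t ∧
      0 ≤ θ ∧ θ₁ ≤ θ ∧ θ ≤ θ₂ ∧ θ ≤ 4 / 3 ∧
      ∀ y, Lam u j f t ρ y = (c - y) * (α + t * y + ω * (c - y)) := by
  have ht0' : 0 ≤ t := by linarith
  obtain ⟨a, ha⟩ : ∃ a, a = j * t := ⟨_, rfl⟩
  obtain ⟨e, he⟩ : ∃ e, e = j ^ 2 * f * t ^ 2 := ⟨_, rfl⟩
  obtain ⟨g, hg⟩ : ∃ g, g = u * t := ⟨_, rfl⟩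
  have ha0 : 0 ≤ a := ha ▸ mul_nonneg hj0 ht0'
  have ha1 : a ≤ 3 / 10 ^ 20 := by linarith only [ha, mul_le_mul hj ht ht0' (by norm_num)]
  have hg0 : 0 ≤ g := hg ▸ mul_nonneg hu0 ht0'
  have hg1 : g ≤ 3 / 10 ^ 20 := by linarith only [hg, mul_le_mul hu ht ht0' (by norm_num)]
  have he' : e = j * f * (a * t) := by rw [he, ha]; ring
  have hat : a * t ≤ 9 / 10 ^ 20 := by linarith only [mul_le_mul ha1 ht ht0' (by norm_num)]
  have he0 : 0 ≤ e := he' ▸ mul_nonneg hf0 (mul_nonneg ha0 ht0')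
  have he1 : e ≤ 9 / 10 ^ 20 := by
    linarith only [he', hat, mul_le_mul hf hat (mul_nonneg ha0 ht0') zero_le_one]
  have hL : ∀ y, Lam u j f t ρ y = ρ * y * (1 - y + 4 * u) + (1 + 2 * u - (1 + a) * y) ^ 2 +
      e * y ^ 2 - t * y ^ 2 + 2 * g * y := fun y => by rw [Lam, ha, he, hg]; ring
  have huu : u * u ≤ u := mul_le_of_le_one_left hu0 (by linarith only [hu])
  have haa : a * a ≤ a := mul_le_of_le_one_left ha0 (by linarith only [ha1])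
  have hua : u * a ≤ u := mul_le_of_le_one_right hu0 (by linarith only [ha1])
  have hρu : ρ * u ≤ u := mul_le_of_le_one_left hu0 hρ
  have hua0 := mul_nonneg hu0 ha0
  have hρu0 : 0 ≤ ρ * u := mul_nonneg (by linarith only [hρ0]) hu0
  obtain ⟨c, ⟨hc0, hc1⟩, hc⟩ : (0 : ℝ) ∈ Lam u j f t ρ '' Set.Icc 0 1 := by
    clear * - u j f t ρ a e g hL hu ht0 ha1 hg1 he1 huu haa hρu hua0
    refine intermediate_value_Icc' zero_le_one (Continuous.continuousOn ?_) ⟨?_, ?_⟩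
    · unfold Lam
      fun_prop
    · rw [hL]
      linarith
    · rw [hL]
      linarith only [sq_nonneg (1 + 2 * u)]
  rw [hL] at hc
  obtain ⟨ω, hω⟩ : ∃ ω, ω = (1 + a) ^ 2 - ρ + e := ⟨_, rfl⟩
  have hω0 : 0 ≤ ω := by linarith only [mul_self_nonneg a, hω, ha0, hρ, he0]
  have hω1 : ω ≤ 1 / 10 ^ 18 := by linarith only [hω, haa, ha1, hρ0, he1]
  obtain ⟨ε, hε⟩ : ∃ ε, ε = 2 * (1 + 2 * u) * (1 + a) - ρ * (1 + 4 * u) - 2 * g - 2 * ω * c - 1 :=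
    ⟨_, rfl⟩
  have hωc0 := mul_nonneg hω0 hc0
  have hωc : ω * c ≤ ω := mul_le_of_le_one_right hω0 hc1
  have hε0 : -(1 / 10 ^ 17) ≤ ε := by clear * - ε ρ a g e u ω c hρ0 ha1 hg1 he1 haa hρu hua0 hω hε hωc; linarith
  have hε1 : ε ≤ 1 / 10 ^ 17 := by clear * - ε u ρ a g ω c hu hρ0 ha1 hg0 hua hρu0 hε hωc0; linarith
  obtain ⟨α, hα⟩ : ∃ α, α = 1 + c * t + ε := ⟨_, rfl⟩
  have hα0 : 99 / 100 ≤ α := by clear * - α ρ a g e u ω ε c t hρ0 ha1 hg1 he1 haa hρu hua0 hω hε hωc hα hc0 ht0'; linarith [mul_nonneg hc0 ht0']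
  have hcα : c * α = (1 + 2 * u) ^ 2 - ω * c * c := by clear * - c α u ω t ε hα a ρ g hε e hω hc; rw [hα, hε, hω]; linarith
  obtain ⟨θ, hθ⟩ : ∃ θ, θ * α = t := ⟨t / α, div_mul_cancel₀ _ (by linarith only [hα0])⟩
  have hθ0 : 0 ≤ θ := le_of_mul_le_mul_right (by rw [hθ]; linarith only [ht0']) (show 0 < α by clear * - α hα0 hθ θ; linarith)
  have hθ4 : θ ≤ 4 := by clear * - θ t α ht hθ hα0 hθ0; linarith [mul_le_mul_of_nonneg_left hα0 hθ0]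
  obtain ⟨δ, hδ⟩ : ∃ δ, δ = c * α - 1 := ⟨_, rfl⟩
  have hδ0 : -(1 / 10 ^ 17) ≤ δ := by
    clear * - δ u ρ a e ω c α hu0 hρ0 ha1 he1 haa hω hωc hcα hδ hωc0 hc1
    linarith [mul_le_of_le_one_right hωc0 hc1, mul_self_nonneg u]
  have hδ1 : δ ≤ 1 / 10 ^ 17 := by clear * - δ u c α ω hu huu hcα hδ hωc0 hc0; linarith [mul_nonneg hωc0 hc0]
  have hk : t = θ * (1 + θ) + θ * (θ * δ + ε) := by
    rw [hδ]
    linear_combination (-1 - θ * c) * hθ + θ * hα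
  obtain ⟨k0, k1⟩ := R_mul hθ0 hθ4 hδ0 hδ1
  obtain ⟨k2, k3⟩ := R_mul (y := θ * δ + ε) (B := 1 / 10 ^ 16) hθ0 hθ4 (by clear * - θ δ ε ρ a g e u ω c hρ0 ha1 hg1 he1 haa hρu hua0 hω hε hωc k0 hθ0 hθ4; linarith) (by clear * - θ δ ε u ρ a g ω c hu hρ0 ha1 hg0 hua hρu0 hε hωc0 k1 hθ0 hθ4; linarith)
  have m : ∀ p q : ℝ, 0 ≤ p → p ≤ q → p * (1 + p) ≤ q * (1 + q) := fun p q e1 e2 =>
    mul_le_mul e2 (add_le_add le_rfl e2) (add_nonneg zero_le_one e1) (e1.trans e2)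
  refine ⟨c, α, θ, ω, hc0, hc1, hω0, hω1, hα0, hθ, hθ0, ?_, ?_, ?_, fun y => ?_⟩
  · by_contra h
    clear * - θ₁ t θ δ ε h1 hk k3 m hθ0 h
    linarith [m _ _ hθ0 (not_le.1 h).le]
  · by_contra h
    clear * - t θ₂ θ δ ε h2 hk k2 m h20 h
    linarith [m _ _ h20 (not_le.1 h).le]
  · by_contra h
    clear * - t θ δ ε ht hk k2 m h
    linarith [m _ _ (by norm_num) (not_le.1 h).le]
  · rw [hL, hα, hε, hω]
    linear_combination hc

/-- the error terms -/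
def Err (b : ι → ι → ℝ) (x d d' : ι → ℝ) (u j t ρ : ℝ) (v : ι) : ℝ :=
  -(ρ * x v * d' v) - 2 * d v * (1 + 2 * u - (1 + j * t) * x v) + d v ^ 2 -
    t * x v * ∑ w, b v w * d w

omit [DecidableEq ι] in
theorem R_lin (y e : ι → ℝ) (k s : ℝ) (hs : 0 ≤ s) (h0 : ∑ v, e v = 0)
    (h1 : ∑ v, (y v - k) ^ 2 ≤ 2 * 10 ^ 7 * s) (h2 : ∑ v, e v ^ 2 ≤ 1 / 10 ^ 35 * s) :
    |∑ v, y v * e v| ≤ 1 / 10 ^ 9 * s := by
  have h3 : ∑ v, y v * e v = ∑ v, (y v - k) * e v := by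
    simp only [sub_mul, sum_sub_distrib, ← mul_sum, h0, mul_zero, sub_zero]
  have h4 : ∑ v, |(y v - k) * e v| ≤ ∑ v, (1 / 10 ^ 17 * (y v - k) ^ 2 + 10 ^ 17 * e v ^ 2) :=
    sum_le_sum fun v _ => abs_le.2 ⟨by clear * - y v k e; nlinarith [sq_nonneg (y v - k + 10 ^ 17 * e v)],
      by clear * - y v k e; nlinarith [sq_nonneg (y v - k - 10 ^ 17 * e v)]⟩
  rw [sum_add_distrib, ← mul_sum, ← mul_sum] at h4
  rw [h3]
  linarith [abs_sum_le_sum_abs (fun v => (y v - k) * e v) univ]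

theorem R_err {x d d' m u a t ρ : ℝ} (hx0 : 0 ≤ x) (hx1 : x ≤ 1) (hu0 : 0 ≤ u) (hu : u ≤ 1 / 10)
    (ha0 : 0 ≤ a) (ha : a ≤ 1 / 10) (ht0 : 0 ≤ t) (ht : t ≤ 3) (hρ0 : 0 ≤ ρ) (hρ : ρ ≤ 1)
    (hd : |d| ≤ 2) : (-(ρ * x * d') - 2 * d * (1 + 2 * u - (1 + a) * x) + d ^ 2 - t * x * m) ^ 2 ≤
      3 * d' ^ 2 + 108 * d ^ 2 + 27 * m ^ 2 := by
  obtain ⟨h1, h2⟩ := abs_le.1 hd
  have k : ∀ p y B : ℝ, -B ≤ p → p ≤ B → (p * y) ^ 2 ≤ B ^ 2 * y ^ 2 := fun p y B e1 e2 => by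
    rw [mul_pow]
    exact mul_le_mul_of_nonneg_right (sq_le_sq' e1 e2) (sq_nonneg _)
  have k1 := k (ρ * x) d' 1 (by linarith only [mul_nonneg hρ0 hx0])
    (mul_le_one₀ hρ hx0 hx1)
  have k2 := k (d - 2 * (1 + 2 * u - (1 + a) * x)) d 6 (by clear * - d u a x hx0 hu h1 ha0 k; nlinarith) (by clear * - d u a x hx1 hu0 h2 hx0 ha k; nlinarith)
  have k3 := k (t * x) m 3 (by clear * - t x hx0 ht0 k m; nlinarith) (by clear * - t x hx1 hx0 ht k m; nlinarith)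
  have e : -(ρ * x * d') - 2 * d * (1 + 2 * u - (1 + a) * x) + d ^ 2 - t * x * m =
      (d - 2 * (1 + 2 * u - (1 + a) * x)) * d - ρ * x * d' - t * x * m := by ring
  rw [e]
  generalize (d - 2 * (1 + 2 * u - (1 + a) * x)) * d = p at k2
  generalize ρ * x * d' = q at k1
  generalize t * x * m = r at k3
  clear * - p q r d' d m k2 k1 k3
  linarith only [sq_nonneg (p + q), sq_nonneg (p + r), sq_nonneg (q - r), k1, k2, k3]

theorem R_eta {η z m α g e ω r : ℝ} (h : α * η + α * z * m = g - e - ω * η ^ 2) (hα : 99 / 100 ≤ α)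
    (hz0 : 0 ≤ z) (hz : z ≤ 9 / 10) (hη : η ^ 2 ≤ 1) (hω0 : 0 ≤ ω) (hω : ω ≤ 1 / 1000)
    (hg : g ^ 2 ≤ 81 * r) :
    η ^ 2 ≤ 891 / 1000 * m ^ 2 + 34 * (81 * r + e ^ 2 + 1 / 10 ^ 6 * η ^ 2) := by
  have h1 := R_sq (y := η) (a := -(z * m)) (g := η + z * m) (by ring)
  have h2 : (z * m) ^ 2 ≤ 81 / 100 * m ^ 2 := by
    clear * - z m hz hz0
    rw [mul_pow]
    exact mul_le_mul_of_nonneg_right (by nlinarith) (sq_nonneg _)
  have h3 : (99 / 100) ^ 2 * (η + z * m) ^ 2 ≤ (g - e - ω * η ^ 2) ^ 2 := by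
    clear * - η z m g e ω α h hα
    rw [← h, mul_assoc, ← mul_add, mul_pow]
    exact mul_le_mul_of_nonneg_right (by nlinarith) (sq_nonneg _)
  have h4 : (ω * η ^ 2) ^ 2 ≤ 1 / 10 ^ 6 * η ^ 2 := by
    clear * - ω η hω hω0 hη
    rw [mul_pow]
    exact mul_le_mul (by nlinarith) (by nlinarith [sq_nonneg η]) (sq_nonneg _) (by norm_num)
  rw [neg_sq] at h1
  generalize ω * η ^ 2 = w at h3 h4
  have h5 : (g - e - w) ^ 2 ≤ 3 * (g ^ 2 + e ^ 2 + w ^ 2) := by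
    clear * - g e w
    linarith only [sq_nonneg (g + e), sq_nonneg (g + w), sq_nonneg (e - w)]
  clear * - η m r e g z w hg h1 h2 h3 h4 h5
  linarith only [sq_nonneg g, sq_nonneg e, sq_nonneg w, h1, h2, h3, h4, h5, hg]

theorem real_main [Nonempty ι] (hb : Stoch b) (x d d' Γ r : ι → ℝ)
    (u j f t ρ q x₁ x₂ θ₁ θ₂ ν₁ ν₂ : ℝ) (hu0 : 0 ≤ u) (hu : u ≤ 1 / 10 ^ 20) (hj0 : 0 ≤ j)
    (hj : j ≤ 1 / 10 ^ 20) (hf0 : 0 ≤ j * f) (hf : j * f ≤ 1) (ht0 : 1 / 100 ≤ t) (ht : t ≤ 3)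
    (hρ0 : 1 - 1 / 10 ^ 20 ≤ ρ) (hρ : ρ ≤ 1) (h10 : 0 ≤ θ₁) (h1 : θ₁ * (1 + θ₁) ≤ t - 1 / 10 ^ 6)
    (h20 : 0 ≤ θ₂) (h2 : t + 1 / 10 ^ 6 ≤ θ₂ * (1 + θ₂)) (hx0 : 0 ≤ x₁)
    (hx : ∀ v, x₁ ≤ x v ∧ x v ≤ x₂) (hx2 : x₂ ≤ 1) (hc : θ₂ * x₂ ≤ 9 / 10)
    (hν₁ : ν₁ * (1 - θ₁ * x₁ * (θ₂ * x₂)) ≤ 1 - θ₂ * x₂) (hν₂ : 1 - θ₁ * x₁ * ν₁ ≤ ν₂)
    (hq : ∑ v, x v = Fintype.card ι * q) (hd : ∑ v, d v = 0) (hd' : ∑ v, d' v = 0)
    (hd2 : ∀ v, |d v| ≤ 2)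
    (hdd : ∑ v, d v ^ 2 ≤ 1 / 10 ^ 40 * (∑ v, (x v - q) ^ 2 + ∑ v, r v))
    (hdd' : ∑ v, d' v ^ 2 ≤ 1 / 10 ^ 40 * (∑ v, (x v - q) ^ 2 + ∑ v, r v))
    (hΓ : ∀ v, |Γ v| ≤ r v) (hr : ∀ v, r v ≤ 1)
    (heq : ∀ v, (t * x v) ^ 2 * Γ v = Lam u j f t ρ (x v) +
      t * x v * (x v - ∑ w, b v w * x w) + Err b x d d' u j t ρ v) :
    ∃ (ν : ι → ℝ) (Φ : ℝ), (∀ v, 0 ≤ ν v ∧ ν₁ ≤ ν v ∧ ν v ≤ ν₂) ∧ 1 + θ₁ * q - 1 / 10 ^ 6 ≤ Φ ∧
      Φ ≤ 1 + θ₂ * q + 1 / 10 ^ 6 ∧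
      Φ * ∑ v, ν v * ((t * x v) ^ 2 * Γ v) - 1 / 10 ^ 7 * ∑ v, r v ≤
        Fintype.card ι * Lam u j f t ρ q := by
  obtain ⟨c, α, θ, ω, hc0, hc1, hω0, hω1, hα, hθ, hθ0, hθ1, hθ2, hθ3, hL⟩ :=
    exists_root u j f t ρ θ₁ θ₂ hu0 hu hj0 hj hf0 hf ht0 ht hρ0 hρ h1 h20 h2
  have hx0' : ∀ v, 0 ≤ x v := fun v => hx0.trans (hx v).1
  have hx1 : ∀ v, x v ≤ 1 := fun v => (hx v).2.trans hx2
  have hz : ∀ v, θ₁ * x₁ ≤ θ * x v ∧ θ * x v ≤ θ₂ * x₂ := fun v =>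
    ⟨mul_le_mul hθ1 (hx v).1 hx0 hθ0, mul_le_mul hθ2 (hx v).2 (hx0' v) h20⟩
  have hz' : ∀ v, 0 ≤ θ * x v ∧ θ * x v ≤ 9 / 10 := fun v =>
    ⟨mul_nonneg hθ0 (hx0' v), (hz v).2.trans hc⟩
  obtain ⟨ν, hν, hν'⟩ := exists_nu hb (fun v => θ * x v) _ _ (mul_nonneg h10 hx0) hz hc
  have hN : (0 : ℝ) < Fintype.card ι := Nat.cast_pos.2 Fintype.card_pos
  have hq0 : 0 ≤ q := le_of_mul_le_mul_left
    (by rw [← hq, mul_zero]; exact sum_nonneg fun v _ => hx0' v) hN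
  have hq1 : q ≤ 1 := le_of_mul_le_mul_left
    (by rw [← hq]; simpa using sum_le_sum fun v (_ : v ∈ univ) => hx1 v) hN
  have hα0 : 0 < α := by clear * - α hα; linarith
  have ht0' : 0 ≤ t := by clear * - t ht0; linarith
  have hs : 0 ≤ ∑ v, r v := sum_nonneg fun v _ => (abs_nonneg _).trans (hΓ v)
  have hB : ∀ v, ∑ w, b v w * (c - x w) = c - ∑ w, b v w * x w := fun v => by
    simp only [mul_sub, sum_sub_distrib, ← sum_mul, hb.row, one_mul]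
  have hk : ∀ v, α * (c - x v) + α * (θ * x v) * ∑ w, b v w * (c - x w) =
      (t * x v) ^ 2 * Γ v - Err b x d d' u j t ρ v - ω * (c - x v) ^ 2 := fun v => by
    rw [heq, hL, hB, ← hθ]
    ring
  obtain hV : ∑ v, (x v - q) ^ 2 ≤ ∑ v, (c - x v) ^ 2 := by
    have : ∑ v, (c - x v) ^ 2 = ∑ v, ((x v - q) ^ 2 + (c - q) ^ 2 - 2 * (c - q) * (x v - q)) :=
      sum_congr rfl fun v _ => by ring
    rw [this, sum_sub_distrib, sum_add_distrib, ← mul_sum, sum_sub_distrib, hq]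
    simp only [sum_const, card_univ, nsmul_eq_mul, sub_self, mul_zero, sub_zero]
    exact le_add_of_nonneg_right (by positivity)
  have hBd := sq_avg_le hb d
  have hjt : j * t ≤ 1 / 10 := by clear * - j t hj ht ht0'; linarith [mul_le_mul hj ht ht0' (by norm_num)]
  obtain hE : ∑ v, Err b x d d' u j t ρ v ^ 2 ≤ 3 * ∑ v, d' v ^ 2 + 108 * ∑ v, d v ^ 2 +
      27 * ∑ v, (∑ w, b v w * d w) ^ 2 := by
    clear * - ι b x d d' u j t ρ hx0' hx1 hu0 hu hj0 ht0' hjt ht hρ0 hρ hd2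
    rw [mul_sum, mul_sum, mul_sum, ← sum_add_distrib, ← sum_add_distrib]
    exact sum_le_sum fun v _ => R_err (hx0' v) (hx1 v) hu0 (by linarith only [hu])
      (mul_nonneg hj0 ht0') hjt ht0' ht (by linarith only [hρ0]) hρ (hd2 v)
  obtain hS : ∑ v, (c - x v) ^ 2 ≤ 26000 * ∑ v, r v := by
    clear * - ι c x b r d d' u j t ρ θ α Γ ω hk hα hz' hc0 hx1 hc1 hx0' hω0 hω1 ht0' ht hΓ hr q
      hdd hdd' hs hV hBd hE hb
    have k := sum_le_sum fun v (_ : v ∈ univ) => R_eta (r := r v) (hk v) hα (hz' v).1 (hz' v).2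
      ((sq_le_one_iff_abs_le_one _).2 (abs_le.2 ⟨by linarith only [hx1 v, hc0],
        by linarith only [hx0' v, hc1]⟩)) hω0 (by linarith only [hω1]) (by
        have e1 := pow_le_pow_left₀ (sq_nonneg _) (pow_le_pow_left₀ (mul_nonneg ht0' (hx0' v))
          ((mul_le_of_le_one_right ht0' (hx1 v)).trans ht) 2) 2
        obtain e2 : Γ v ^ 2 ≤ r v := by
          rw [← sq_abs, sq]
          exact (mul_le_of_le_one_left (abs_nonneg _) ((hΓ v).trans (hr v))).trans (hΓ v)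
        rw [mul_pow]
        exact mul_le_mul (e1.trans (by norm_num)) e2 (sq_nonneg _) (by norm_num))
    simp only [sum_add_distrib, ← mul_sum] at k
    linarith only [sq_avg_le hb fun w => c - x w, k, hE, hBd, hdd, hdd', hV, hs]
  have hS0 : 0 ≤ ∑ v, (c - x v) ^ 2 := sum_nonneg fun v _ => sq_nonneg _
  obtain ⟨n, hn⟩ : ∃ n, n * (1 + θ * c) = 1 :=
    ⟨_, inv_mul_cancel₀ (by positivity)⟩
  have hn0 : 0 ≤ n := le_of_mul_le_mul_right (by clear * - θ c n hn; rw [hn]; linarith)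
    (show 0 < 1 + θ * c by positivity)
  have hn1 : n ≤ 1 := by clear * - n θ c hn hn0 hθ0 hc0; linarith [mul_nonneg hn0 (mul_nonneg hθ0 hc0)]
  obtain hδ : ∑ v, (ν v - n) ^ 2 ≤ 200 * ∑ v, (c - x v) ^ 2 := by
    clear * - ι ν n b θ x c hB hn hν hb hz' hn0 hn1 hθ0 hθ3 hS0
    have k := sum_le_sum fun v (_ : v ∈ univ) => R_sq (y := ν v - n)
      (a := -∑ w, b v w * (θ * x w * (ν w - n))) (g := θ * n * ∑ w, b v w * (c - x w)) (by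
        obtain e : ∑ w, b v w * (θ * x w * (ν w - n)) =
            ∑ w, b v w * (θ * x w * ν w) - θ * n * ∑ w, b v w * x w := by
          rw [mul_sum, ← sum_sub_distrib]
          exact sum_congr rfl fun w _ => by ring
        rw [e, hB]
        linear_combination hν v - hn)
    simp only [neg_sq, mul_pow, sum_add_distrib, ← mul_sum] at k
    have k1 := R_con hb hz' fun w => ν w - n
    have k2 : θ ^ 2 * n ^ 2 * ∑ v, (∑ w, b v w * (c - x w)) ^ 2 ≤ 16 / 9 * ∑ v, (c - x v) ^ 2 :=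
      mul_le_mul ((mul_le_of_le_one_right (sq_nonneg _) (pow_le_one₀ hn0 hn1)).trans
        ((pow_le_pow_left₀ hθ0 hθ3 2).trans (by norm_num)))
        (sq_avg_le hb fun w => c - x w) (sum_nonneg fun v _ => sq_nonneg _) (by norm_num)
    linarith
  obtain hy : ∑ v, (ν v * x v - n * c) ^ 2 ≤ 2 * 10 ^ 7 * ∑ v, r v := by
    clear * - ι ν x n c hx0' hx1 hn0 hn1 r hs hS hδ
    have k : ∑ v, (ν v * x v - n * c) ^ 2 ≤ ∑ v, (2 * (ν v - n) ^ 2 + 2 * (c - x v) ^ 2) :=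
      sum_le_sum fun v _ => by
        obtain e1 : ((ν v - n) * x v) ^ 2 ≤ (ν v - n) ^ 2 := by
          rw [mul_pow]
          exact mul_le_of_le_one_right (sq_nonneg _) (pow_le_one₀ (hx0' v) (hx1 v))
        obtain e2 : (n * (c - x v)) ^ 2 ≤ (c - x v) ^ 2 := by
          rw [mul_pow]
          exact mul_le_of_le_one_left (sq_nonneg _) (pow_le_one₀ hn0 hn1)
        linarith only [sq_nonneg ((ν v - n) * x v + n * (c - x v)), e1, e2]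
    rw [sum_add_distrib, ← mul_sum, ← mul_sum] at k
    linarith
  have hD : ∑ v, d v ^ 2 ≤ 1 / 10 ^ 35 * ∑ v, r v := by clear * - ι d r x q c hdd hs hV hS; linarith
  have T1 := abs_le.1 (R_lin ν d n _ hs hd (by clear * - ι ν n r c x hs hS hδ d hD hd; linarith) hD)
  have T2 := abs_le.1 (R_lin _ d _ _ hs hd hy hD)
  have T3 := abs_le.1 (R_lin _ d' _ _ hs hd' hy (by clear * - ι d' r x q c hdd' hs hV hS hd' hy; linarith))
  have T4 := abs_le.1 (R_lin _ (fun v => ∑ w, b v w * d w) _ _ hs ((sum_avg hb d).trans hd) hy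
    (hBd.trans hD))
  have T5 : ∑ v, ν v * d v ^ 2 ≤ ∑ v, d v ^ 2 :=
    sum_le_sum fun v _ => mul_le_of_le_one_left (sq_nonneg _) (hν' v).2.1
  have T6 : ∑ v, ν v * (c - x v) ^ 2 ≤ ∑ v, (c - x v) ^ 2 :=
    sum_le_sum fun v _ => mul_le_of_le_one_left (sq_nonneg _) (hν' v).2.1
  obtain hF : ∑ v, ν v * Err b x d d' u j t ρ v = -(ρ * ∑ v, ν v * x v * d' v) -
      2 * (1 + 2 * u) * ∑ v, ν v * d v + 2 * (1 + j * t) * ∑ v, ν v * x v * d v +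
      ∑ v, ν v * d v ^ 2 - t * ∑ v, ν v * x v * ∑ w, b v w * d w := by
    clear * - ι ν b x d d' u j t ρ
    rw [mul_sum, mul_sum, mul_sum, mul_sum, ← sum_neg_distrib, ← sum_sub_distrib,
      ← sum_add_distrib, ← sum_add_distrib, ← sum_sub_distrib]
    exact sum_congr rfl fun v _ => by rw [Err]; ring
  obtain hM : α * (Fintype.card ι * (c - q)) = ∑ v, ν v * ((t * x v) ^ 2 * Γ v) -
      (∑ v, ν v * Err b x d d' u j t ρ v + ω * ∑ v, ν v * (c - x v) ^ 2) := by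
    clear * - ι c q x hq θ ν b hν hb α t Γ d d' u j ρ ω hk
    obtain e1 : Fintype.card ι * (c - q) = ∑ v, (c - x v) := by
      rw [sum_sub_distrib, hq, sum_const, card_univ, nsmul_eq_mul, mul_sub]
    obtain e2 : ∑ v, θ * x v * ν v * ∑ w, b v w * (c - x w) = ∑ w, (1 - ν w) * (c - x w) := by
      simp only [mul_sum]
      rw [sum_comm]
      refine sum_congr rfl fun w _ => ?_
      rw [hν w, sub_sub_cancel, sum_mul]
      exact sum_congr rfl fun v _ => by rw [hb.symm]; ring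
    obtain e3 : ∑ v, (c - x v) = ∑ v, ν v * (c - x v) + ∑ w, (1 - ν w) * (c - x w) := by
      rw [← sum_add_distrib]
      exact sum_congr rfl fun v _ => by ring
    rw [e1, e3, ← e2, ← sum_add_distrib, mul_sum, mul_sum, ← sum_add_distrib, ← sum_sub_distrib]
    exact sum_congr rfl fun v _ => by linear_combination ν v * hk v
  obtain hG : ∑ v, ν v * Err b x d d' u j t ρ v + ω * ∑ v, ν v * (c - x v) ^ 2 ≤
      3 / 10 ^ 8 * ∑ v, r v := by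
    clear * - ι r u ν d hu0 hu T1 j t x hj0 ht0' hjt T2 ρ d' hρ0 hρ T3 b ht T4 ω c hω1 T6 θ₁ x₁ θ₂
      x₂ hν' hF T5 hD hS hs
    have k1 := (R_mul (p := 2 * (1 + 2 * u)) (A := 3) (by linarith only [hu0])
      (by linarith only [hu]) T1.1 T1.2).1
    have k2 := (R_mul (p := 2 * (1 + j * t)) (A := 3) (by linarith only [mul_nonneg hj0 ht0'])
      (by linarith only [hjt]) T2.1 T2.2).2
    have k3 := (R_mul (p := ρ) (by linarith only [hρ0]) hρ T3.1 T3.2).1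
    have k4 := (R_mul ht0' ht T4.1 T4.2).1
    have k5 : ω * ∑ v, ν v * (c - x v) ^ 2 ≤ 1 / 10 ^ 18 * ∑ v, (c - x v) ^ 2 :=
      mul_le_mul hω1 T6 (sum_nonneg fun v _ => mul_nonneg (hν' v).1 (sq_nonneg _)) (by norm_num)
    rw [hF]
    clear * - ρ ι ν x d' u d j t b ω c r k1 k2 k3 k4 k5 T5 hD hS hs; linarith only [k1, k2, k3, k4, k5, T5, hD, hS, hs]
  obtain ⟨ε, hε⟩ : ∃ ε, ε * α = ω * (c - q) := ⟨_, div_mul_cancel₀ _ hα0.ne'⟩
  obtain ⟨hε2, hε3⟩ := R_mul (y := c - q) (B := 1) hω0 hω1 (by clear * - c q hc0 hq1 hω0 hω1; linarith) (by clear * - c q hc1 hq0 hω0 hω1; linarith)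
  have hε0 : -(1 / 10 ^ 6) ≤ ε := le_of_mul_le_mul_right (by clear * - α ε ω c q hα hα0 hε hε2; linarith) hα0
  have hε1 : ε ≤ 1 / 10 ^ 6 := le_of_mul_le_mul_right (by clear * - ε α ω c q hα hα0 hε hε3; linarith) hα0
  have hθq : 0 ≤ θ * q ∧ θ * q ≤ 4 / 3 :=
    ⟨mul_nonneg hθ0 hq0, (mul_le_of_le_one_right hθ0 hq1).trans hθ3⟩
  refine ⟨ν, 1 + θ * q + ε, fun v => ⟨(hν' v).1, (hν' v).2.2 _ _ hν₁ hν₂⟩,
    by clear * - θ₁ q θ ε hε0 hθ1 hq0; linarith [mul_le_mul_of_nonneg_right hθ1 hq0],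
    by clear * - θ q ε θ₂ hε1 hθ2 hq0; linarith [mul_le_mul_of_nonneg_right hθ2 hq0], ?_⟩
  obtain e : Fintype.card ι * Lam u j f t ρ q = (1 + θ * q + ε) * (α * (Fintype.card ι * (c - q))) := by
    rw [hL, ← hε, ← hθ]
    ring
  have k := mul_le_mul_of_nonneg_left hG (show 0 ≤ 1 + θ * q + ε by clear * - θ q ε hε0 hθq hG; linarith [hθq.1])
  have k' := mul_le_mul_of_nonneg_right (show 1 + θ * q + ε ≤ 3 by clear * - θ q ε hε1 hθq hs; linarith [hθq.2]) hs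
  rw [e, hM, mul_sub]
  clear * - θ q ε ι ν t x Γ r b d d' u j ρ ω c hs k k'
  linarith

end Pool.Agent.Work.MP_33747a_co
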