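import Pool.Agent.Work.MP_33747a_co.Min
import Pool.Agent.Work.MP_33747a_co.Half.R

-- merged part: Pool.Agent.Work.MP_33747a_co.Half.I
section
-- merged part: Pool.Agent.Work.MP_33747a_co.Half.A
section
/-! Interlacing inequalities for the matching numbers `HS`, and the normalised quantities. -/

set_option autoImplicit false

namespace Pool.Agent.Work.MP_33747a_co

open Finset

variable {N : ℕ}

/-- probability that `u` is uncovered at level `L` -/
noncomputable def xx (B : Matrix (Fin N) (Fin N) ℝ) (L : ℕ) (u : Fin N) : ℝ :=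
  HS B (univ.erase u) L / HS B univ L

/-- the effective activity at level `L` -/
noncomputable def tt (B : Matrix (Fin N) (Fin N) ℝ) (L : ℕ) : ℝ :=
  HS B univ L / HS B univ (L + 1)

/-- the normalised excess at level `L` -/
noncomputable def DD (B : Matrix (Fin N) (Fin N) ℝ) (j : ℝ) (L : ℕ) : ℝ :=
  Phi B j L / HS B univ L

/-- squared norm of a row of the deviation -/
noncomputable def sr (B : Matrix (Fin N) (Fin N) ℝ) (j : ℝ) (u : Fin N) : ℝ :=
  ∑ v, dev B j u v ^ 2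

/-- squared norm of the deviation -/
noncomputable def ss (B : Matrix (Fin N) (Fin N) ℝ) (j : ℝ) : ℝ := ∑ u, sr B j u

/-- probability that `w` is uncovered at level `L` after deleting `u` -/
noncomputable def mc (B : Matrix (Fin N) (Fin N) ℝ) (L : ℕ) (u w : Fin N) : ℝ :=
  HS B ((univ.erase u).erase w) L / HS B (univ.erase u) L

/-- the variance of the row `u` of the deviation on the uncovered set after deleting `u` -/
noncomputable def Vr (B : Matrix (Fin N) (Fin N) ℝ) (j : ℝ) (L : ℕ) (u : Fin N) : ℝ :=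
  (HS B (univ.erase u) L * EE B (univ.erase u) L (fun F => (∑ w ∈ F, dev B j u w) ^ 2) -
    EE B (univ.erase u) L (fun F => ∑ w ∈ F, dev B j u w) ^ 2) / HS B (univ.erase u) L ^ 2

/-- the local gain at `u` -/
noncomputable def Gam (B : Matrix (Fin N) (Fin N) ℝ) (j : ℝ) (L : ℕ) (u : Fin N) : ℝ :=
  ∑ w ∈ univ.erase u, dev B j u w ^ 2 * mc B L u w - Vr B j L u

variable {B : Matrix (Fin N) (Fin N) ℝ}

theorem HS_erase_le (hb : Stoch B) (S : Finset (Fin N)) (v : Fin N) (k : ℕ) :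
    HS B (S.erase v) k ≤ HS B S k := by
  refine sum_le_sum_of_subset_of_nonneg ?_ fun M _ _ => prod_nonneg fun _ _ => hb.nonneg _ _
  intro M hM
  obtain ⟨h1, h2⟩ := mem_fam.1 hM
  exact mem_fam.2 ⟨h1, fun e he => ⟨mem_of_mem_erase (h2 e he).1, mem_of_mem_erase (h2 e he).2⟩⟩

theorem HS_eq_zero (S : Finset (Fin N)) (k : ℕ) (h : S.card < 2 * k) : HS B S k = 0 := by
  refine sum_eq_zero fun M hM => ?_
  have := fr_card hM
  omega

theorem sum_HS_erase (S : Finset (Fin N)) (k : ℕ) :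
    ∑ v ∈ S, HS B (S.erase v) k = ((S.card : ℝ) - 2 * k) * HS B S k := by
  have h2 := EE_sum1 (B := B) S k fun _ => 1
  simp only [one_mul] at h2
  rw [h2, EE_congr S k (h := fun _ => (S.card : ℝ) - 2 * k) (fun F hF => by simp [hF]), EE_const]

theorem inter_all (hb : Stoch B) (S : Finset (Fin N)) :
    (∀ v ∈ S, ∀ k, HS B (S.erase v) (k + 1) * HS B S k ≤ HS B (S.erase v) k * HS B S (k + 1)) ∧
    (∀ v ∈ S, ∀ k, HS B S (k + 2) * HS B (S.erase v) k ≤
      HS B S (k + 1) * HS B (S.erase v) (k + 1)) ∧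
    ∀ k, HS B S (k + 2) * HS B S k ≤ HS B S (k + 1) ^ 2 := by
  induction' hS : S.card using Nat.strong_induction_on with n ih generalizing S
  have hA : ∀ v ∈ S, ∀ k, HS B (S.erase v) (k + 1) * HS B S k ≤
      HS B (S.erase v) k * HS B S (k + 1) := by
    intro v hv k
    obtain ⟨-, i2, -⟩ := ih _ (hS ▸ card_erase_lt_of_mem hv) (S.erase v) rfl
    cases k with
    | zero =>
      simp only [HS_zero, mul_one, one_mul]
      exact HS_erase_le hb S v _
    | succ k =>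
      rw [HS_rec B hb.symm S hv (k + 1), HS_rec B hb.symm S hv k, mul_add, mul_add, mul_sum, mul_sum,
        mul_comm (HS B (S.erase v) (k + 1 + 1))]
      refine add_le_add le_rfl (sum_le_sum fun w hw => ?_)
      have := mul_le_mul_of_nonneg_left (i2 w hw k) (hb.nonneg v w)
      linarith only [this]
  have hB : ∀ v ∈ S, ∀ k, HS B S (k + 2) * HS B (S.erase v) k ≤
      HS B S (k + 1) * HS B (S.erase v) (k + 1) := by
    intro v hv k
    obtain ⟨i1, -, i3⟩ := ih _ (hS ▸ card_erase_lt_of_mem hv) (S.erase v) rfl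
    rw [HS_rec B hb.symm S hv (k + 1), HS_rec B hb.symm S hv k, add_mul, add_mul, sum_mul, sum_mul]
    refine add_le_add (by rw [← sq]; exact i3 k) (sum_le_sum fun w hw => ?_)
    have := mul_le_mul_of_nonneg_left (i1 w hw k) (hb.nonneg v w)
    linarith only [this]
  refine ⟨hA, hB, fun k => ?_⟩
  by_cases h : S.card < 2 * (k + 2)
  · rw [HS_eq_zero S _ h, zero_mul]; positivity
  · have h1 := sum_le_sum fun v hv => hB v hv k
    rw [← mul_sum, ← mul_sum, sum_HS_erase, sum_HS_erase] at h1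
    have h2 : (2 * ((k : ℝ) + 2)) ≤ S.card := by exact_mod_cast not_lt.1 h
    push_cast at h1
    refine le_of_mul_le_mul_left ?_ (show (0 : ℝ) < S.card - 2 * k by linarith only [h2])
    linarith only [h1, sq_nonneg (HS B S (k + 1)), sq_nonneg (HS B S (k + (1 : ℕ)))]

theorem interA (hb : Stoch B) {S : Finset (Fin N)} {v : Fin N} (hv : v ∈ S) (k : ℕ) :
    HS B (S.erase v) (k + 1) * HS B S k ≤ HS B (S.erase v) k * HS B S (k + 1) :=
  (inter_all hb S).1 v hv k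

theorem interB (hb : Stoch B) {S : Finset (Fin N)} {v : Fin N} (hv : v ∈ S) (k : ℕ) :
    HS B S (k + 2) * HS B (S.erase v) k ≤ HS B S (k + 1) * HS B (S.erase v) (k + 1) :=
  (inter_all hb S).2.1 v hv k

theorem logc (hb : Stoch B) (S : Finset (Fin N)) (k : ℕ) :
    HS B S (k + 2) * HS B S k ≤ HS B S (k + 1) ^ 2 :=
  (inter_all hb S).2.2 k

/-- Cauchy-Schwarz for the functional `EE` -/
theorem EE_cs (hb : Stoch B) (S : Finset (Fin N)) (k : ℕ) (g h : Finset (Fin N) → ℝ) :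
    EE B S k (fun F => g F * h F) ^ 2 ≤
      EE B S k (fun F => g F ^ 2) * EE B S k (fun F => h F ^ 2) := by
  unfold EE
  have h0 : ∀ M ∈ fam S k, 0 ≤ ∏ e ∈ M, B e.1 e.2 := fun _ _ => prod_nonneg fun _ _ => hb.nonneg _ _
  refine sum_sq_le_sum_mul_sum_of_sq_le_mul _ (fun M hM => mul_nonneg (h0 M hM) (sq_nonneg _))
    (fun M hM => mul_nonneg (h0 M hM) (sq_nonneg _)) fun M _ => le_of_eq (by ring)

/-- `EE_congr` and `EE_mono` with the extra information `F ⊆ S` -/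
theorem EE_mono' (hb : Stoch B) (S : Finset (Fin N)) (k : ℕ) {g h : Finset (Fin N) → ℝ}
    (H : ∀ F : Finset (Fin N), F ⊆ S → (F.card : ℝ) = S.card - 2 * k → g F ≤ h F) :
    EE B S k g ≤ EE B S k h := by
  refine sum_le_sum fun M hM => ?_
  have : (((fr S M).card + 2 * k : ℕ) : ℝ) = S.card := by rw [fr_card hM]
  push_cast at this
  exact mul_le_mul_of_nonneg_left (H _ (filter_subset _ _) (by linarith only [this]))
    (prod_nonneg fun _ _ => hb.nonneg _ _)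

theorem EE_congr' (S : Finset (Fin N)) (k : ℕ) {g h : Finset (Fin N) → ℝ}
    (H : ∀ F : Finset (Fin N), F ⊆ S → (F.card : ℝ) = S.card - 2 * k → g F = h F) :
    EE B S k g = EE B S k h := by
  refine sum_congr rfl fun M hM => ?_
  have : (((fr S M).card + 2 * k : ℕ) : ℝ) = S.card := by rw [fr_card hM]
  push_cast at this
  rw [H (fr S M) (filter_subset _ _) (by linarith only [this])]

end Pool.Agent.Work.MP_33747a_co
end

-- merged part: Pool.Agent.Work.MP_33747a_co.Half.V1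
section
/-! Two replicas: pairs of matchings, components of their union, and swaps. -/

set_option autoImplicit false

namespace Pool.Agent.Work.MP_33747a_co

open Finset Classical

variable {N : ℕ}

/-- edge sets -/
abbrev ES (N : ℕ) := Finset (Fin N × Fin N)

/-- pairs of matchings inside `S` of sizes `a` and `b` -/
noncomputable def Om (S : Finset (Fin N)) (a b : ℕ) : Finset (ES N × ES N) := fam S a ×ˢ fam S b

/-- the weight of a pair -/
noncomputable def wt (B : Matrix (Fin N) (Fin N) ℝ) (ω : ES N × ES N) : ℝ :=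
  (∏ e ∈ ω.1, B e.1 e.2) * ∏ e ∈ ω.2, B e.1 e.2

/-- indicator of being uncovered -/
noncomputable def YY (S : Finset (Fin N)) (M : ES N) (a : Fin N) : ℝ := if a ∈ fr S M then 1 else 0

/-- difference of the two indicators -/
noncomputable def DV (S : Finset (Fin N)) (ω : ES N × ES N) (a : Fin N) : ℝ :=
  YY S ω.1 a - YY S ω.2 a

/-- the component of `a` in the graph with edge set `U` -/
noncomputable def cmp (U : ES N) (a : Fin N) : Finset (Fin N) :=
  univ.filter fun v => Relation.ReflTransGen (fun x y => (x, y) ∈ U ∨ (y, x) ∈ U) a v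

/-- no edge of `U` leaves `C` -/
def Clo (U : ES N) (C : Finset (Fin N)) : Prop := ∀ e ∈ U, (e.1 ∈ C ↔ e.2 ∈ C)

/-- exchange the two matchings on `C` -/
noncomputable def swp (C : Finset (Fin N)) (ω : ES N × ES N) : ES N × ES N :=
  (ω.1.filter (fun e => e.1 ∉ C) ∪ ω.2.filter (fun e => e.1 ∈ C),
    ω.2.filter (fun e => e.1 ∉ C) ∪ ω.1.filter (fun e => e.1 ∈ C))

/-- the union of the two matchings -/
noncomputable def un (ω : ES N × ES N) : ES N := ω.1 ∪ ω.2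

/-- the imbalance of the component of `a` -/
noncomputable def dl (S : Finset (Fin N)) (ω : ES N × ES N) (a : Fin N) : ℝ :=
  ∑ c ∈ cmp (un ω) a, DV S ω c

/-- `a` is an end of an odd path -/
def Od (S : Finset (Fin N)) (ω : ES N × ES N) (a : Fin N) : Prop := DV S ω a ≠ 0 ∧ dl S ω a ≠ 0

/-- the number of ends of odd paths -/
noncomputable def nu (S : Finset (Fin N)) (ω : ES N × ES N) : ℝ :=
  ∑ a, if Od S ω a then 1 else 0

variable {B : Matrix (Fin N) (Fin N) ℝ} {S C : Finset (Fin N)} {U : ES N} {ω : ES N × ES N}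
  {a b : Fin N} {i k : ℕ}

theorem V1_mem : b ∈ cmp U a ↔
    Relation.ReflTransGen (fun x y => (x, y) ∈ U ∨ (y, x) ∈ U) a b := by
  simp [cmp]

theorem V1_symm (h : b ∈ cmp U a) : a ∈ cmp U b := by
  rw [V1_mem] at h ⊢
  induction h with
  | refl => exact .refl
  | tail _ h2 ih => exact .head h2.symm ih

theorem cmp_self (U : ES N) (a : Fin N) : a ∈ cmp U a := by
  exact V1_mem.2 .refl

theorem cmp_eq (h : b ∈ cmp U a) : cmp U b = cmp U a := by
  ext x
  rw [V1_mem, V1_mem]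
  exact ⟨(V1_mem.1 h).trans, (V1_mem.1 (V1_symm h)).trans⟩

theorem cmp_symm : b ∈ cmp U a ↔ a ∈ cmp U b := by
  exact ⟨V1_symm, V1_symm⟩

theorem clo_cmp (U : ES N) (a : Fin N) : Clo U (cmp U a) := by
  intro e he
  rw [V1_mem, V1_mem]
  exact ⟨fun h => h.tail (Or.inl he), fun h => h.tail (Or.inr he)⟩

theorem Clo.union {C' : Finset (Fin N)} (h : Clo U C) (h' : Clo U C') : Clo U (C ∪ C') := by
  intro e he
  rw [mem_union, mem_union, h e he, h' e he]

theorem Clo.mem_iff (h : Clo U C) (hb : b ∈ cmp U a) : b ∈ C ↔ a ∈ C := by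
  rw [V1_mem] at hb
  induction hb with
  | refl => rfl
  | tail _ h2 ih =>
    rw [← ih]
    rcases h2 with h2 | h2
    exacts [(h _ h2).symm, h _ h2]

theorem un_swp (C : Finset (Fin N)) (ω : ES N × ES N) : un (swp C ω) = un ω := by
  ext e
  simp only [un, swp, mem_union, mem_filter]
  tauto

theorem swp_swp (C : Finset (Fin N)) (ω : ES N × ES N) : swp C (swp C ω) = ω := by
  refine Prod.ext ?_ ?_ <;> ext e <;> simp only [swp, mem_union, mem_filter] <;> tauto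

theorem wt_swp (C : Finset (Fin N)) (ω : ES N × ES N) : wt B (swp C ω) = wt B ω := by
  have d : ∀ M M' : ES N, Disjoint (M.filter fun e => e.1 ∉ C) (M'.filter fun e => e.1 ∈ C) :=
    fun M M' => disjoint_left.2 fun e h1 h2 => (mem_filter.1 h1).2 (mem_filter.1 h2).2
  simp only [wt, swp]
  rw [prod_union (d _ _), prod_union (d _ _),
    ← prod_filter_mul_prod_filter_not ω.1 (fun e => e.1 ∈ C),
    ← prod_filter_mul_prod_filter_not ω.2 (fun e => e.1 ∈ C)]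
  ring

theorem wt_nonneg (hb : Stoch B) (ω : ES N × ES N) : 0 ≤ wt B ω := by
  exact mul_nonneg (prod_nonneg fun _ _ => hb.nonneg _ _) (prod_nonneg fun _ _ => hb.nonneg _ _)

theorem V1_YY {M M' : ES N} (h : Clo M C) (h' : Clo M' C) (x : Fin N) :
    YY S (M.filter (fun e => e.1 ∉ C) ∪ M'.filter (fun e => e.1 ∈ C)) x =
      if x ∈ C then YY S M' x else YY S M x := by
  split_ifs with hx <;> refine if_congr ?_ rfl rfl <;> simp only [fr, mem_filter, mem_union] <;>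
    refine and_congr_right fun _ => ⟨fun k e he => ?_, fun k e he => ?_⟩
  · by_cases c : e.1 ∈ C
    · exact k e (Or.inr ⟨he, c⟩)
    · exact ⟨fun q => c (q ▸ hx), fun q => c ((h' e he).2 (q ▸ hx))⟩
  · rcases he with ⟨he, c⟩ | ⟨he, -⟩
    · exact ⟨fun q => c (q ▸ hx), fun q => c ((h e he).2 (q ▸ hx))⟩
    · exact k e he
  · by_cases c : e.1 ∈ C
    · exact ⟨fun q => hx (q ▸ c), fun q => hx (q ▸ (h e he).1 c)⟩
    · exact k e (Or.inl ⟨he, c⟩)
  · rcases he with ⟨he, -⟩ | ⟨he, c⟩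
    · exact k e he
    · exact ⟨fun q => hx (q ▸ c), fun q => hx (q ▸ (h' e he).1 c)⟩

theorem V1_l (h : Clo (un ω) C) : Clo ω.1 C := fun e he => h e (mem_union_left _ he)

theorem V1_r (h : Clo (un ω) C) : Clo ω.2 C := fun e he => h e (mem_union_right _ he)

theorem DV_swp (h : Clo (un ω) C) (x : Fin N) :
    DV S (swp C ω) x = if x ∈ C then -DV S ω x else DV S ω x := by
  simp only [DV, swp]
  rw [V1_YY (V1_l h) (V1_r h), V1_YY (V1_r h) (V1_l h)]
  split_ifs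
  · ring
  · rfl

theorem dl_swp (h : Clo (un ω) C) (x : Fin N) :
    dl S (swp C ω) x = if x ∈ C then -dl S ω x else dl S ω x := by
  simp only [dl, un_swp]
  split_ifs with hx
  · rw [← sum_neg_distrib]
    exact sum_congr rfl fun c hc => by rw [DV_swp h, if_pos ((h.mem_iff hc).2 hx)]
  · exact sum_congr rfl fun c hc => by rw [DV_swp h, if_neg (mt (h.mem_iff hc).1 hx)]

theorem Od_swp (h : Clo (un ω) C) (x : Fin N) : Od S (swp C ω) x ↔ Od S ω x := by
  rw [Od, Od, DV_swp h, dl_swp h]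
  split_ifs <;> simp

theorem nu_swp (h : Clo (un ω) C) : nu S (swp C ω) = nu S ω := by
  simp only [nu, Od_swp h]

theorem V1_sum {M : ES N} (hM : M ∈ fam S k) : ∑ x, YY S M x = S.card - 2 * (k : ℝ) := by
  rw [← fr_card hM]
  simp [YY]

theorem V1_mix {M M' : ES N} {i' : ℕ} (hM : M ∈ fam S i) (hM' : M' ∈ fam S k) (h : Clo M C)
    (h' : Clo M' C) (h1 : 2 * (i' : ℝ) = 2 * i + ∑ x ∈ C, (YY S M x - YY S M' x)) :
    M.filter (fun e => e.1 ∉ C) ∪ M'.filter (fun e => e.1 ∈ C) ∈ fam S i' := by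
  obtain ⟨⟨⟨a1, a2⟩, -⟩, a3⟩ := mem_fam.1 hM
  obtain ⟨⟨⟨b1, b2⟩, -⟩, b3⟩ := mem_fam.1 hM'
  have k0 : M.filter (fun e => e.1 ∉ C) ∪ M'.filter (fun e => e.1 ∈ C) ∈
      fam S (M.filter (fun e => e.1 ∉ C) ∪ M'.filter (fun e => e.1 ∈ C)).card := by
    refine mem_fam.2 ⟨⟨⟨fun e he => ?_, fun e he f hf hne => ?_⟩, rfl⟩, fun e he => ?_⟩ <;>
      simp only [mem_union, mem_filter] at *
    · exact he.elim (fun k => a1 e k.1) fun k => b1 e k.1
    · rcases he with ⟨he, c⟩ | ⟨he, c⟩ <;> rcases hf with ⟨hf, d⟩ | ⟨hf, d⟩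
      · exact a2 e he f hf hne
      · have c' := mt (h e he).2 c
        have d' := (h' f hf).1 d
        exact ⟨fun q => c (q ▸ d), fun q => c (q ▸ d'), fun q => c' (q ▸ d), fun q => c' (q ▸ d')⟩
      · have c' := (h' e he).1 c
        have d' := mt (h f hf).2 d
        exact ⟨fun q => d (q ▸ c), fun q => d' (q ▸ c), fun q => d (q ▸ c'), fun q => d' (q ▸ c')⟩
      · exact b2 e he f hf hne
    · exact he.elim (fun k => a3 e k.1) fun k => b3 e k.1
  have k1 := V1_sum k0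
  have k2 : ∀ x, YY S (M.filter (fun e => e.1 ∉ C) ∪ M'.filter (fun e => e.1 ∈ C)) x =
      YY S M x - if x ∈ C then YY S M x - YY S M' x else 0 := fun x => by
    rw [V1_YY h h']
    split_ifs <;> ring
  rw [sum_congr rfl fun x _ => k2 x, sum_sub_distrib, V1_sum hM, sum_ite_mem, univ_inter] at k1
  have k3 : i' = (M.filter (fun e => e.1 ∉ C) ∪ M'.filter (fun e => e.1 ∈ C)).card :=
    Nat.cast_injective (R := ℝ) (by linarith only [h1, k1])
  rwa [k3]

theorem swp_mem {i' k' : ℕ} (hω : ω ∈ Om S i k) (h : Clo (un ω) C)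
    (h1 : 2 * (i' : ℝ) = 2 * i + ∑ x ∈ C, DV S ω x) (h2 : 2 * (k' : ℝ) = 2 * k - ∑ x ∈ C, DV S ω x) :
    swp C ω ∈ Om S i' k' := by
  obtain ⟨m1, m2⟩ := mem_product.1 hω
  refine mem_product.2 ⟨V1_mix m1 m2 (V1_l h) (V1_r h) h1, V1_mix m2 m1 (V1_r h) (V1_l h) ?_⟩
  rw [h2, sub_eq_add_neg, ← sum_neg_distrib]
  simp only [DV, neg_sub]

theorem DV_cases (S : Finset (Fin N)) (ω : ES N × ES N) (a : Fin N) :
    DV S ω a = 0 ∨ DV S ω a = 1 ∨ DV S ω a = -1 := by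
  simp only [DV, YY]
  split_ifs <;> simp

theorem sum_DV (hω : ω ∈ Om S i k) : ∑ x, DV S ω x = 2 * (k : ℝ) - 2 * i := by
  obtain ⟨m1, m2⟩ := mem_product.1 hω
  simp only [DV]
  rw [sum_sub_distrib, V1_sum m1, V1_sum m2]
  ring

theorem V1_conn (U : ES N) (a : Fin N) :
    (cmp U a).card ≤ (U.filter fun e => e.1 ∈ cmp U a).card + 1 := by
  obtain ⟨T, hT, hm⟩ := exists_max_image ((cmp U a).powerset.filter fun T => a ∈ T ∧
    T.card ≤ (U.filter fun e => e.1 ∈ T ∧ e.2 ∈ T).card + 1) card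
    ⟨{a}, by simp [cmp_self]⟩
  obtain ⟨t1, t2, t3⟩ := mem_filter.1 hT
  rw [mem_powerset] at t1
  have ex : ∀ e ∈ U, ∀ x ∈ cmp U a, x ∉ T → e.1 ∈ insert x T → e.2 ∈ insert x T →
      e.1 ∈ T ∧ e.2 ∈ T := fun e he x hx hx' h1 h2 => by
    by_contra hn
    have k1 : insert e (U.filter fun e => e.1 ∈ T ∧ e.2 ∈ T) ⊆
        U.filter fun e => e.1 ∈ insert x T ∧ e.2 ∈ insert x T :=
      insert_subset (mem_filter.2 ⟨he, h1, h2⟩) (monotone_filter_right _ fun f _ hf =>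
        ⟨mem_insert_of_mem hf.1, mem_insert_of_mem hf.2⟩)
    have k2 := card_le_card k1
    rw [card_insert_of_notMem (by rw [mem_filter]; exact fun q => hn q.2)] at k2
    have k3 := hm (insert x T) (mem_filter.2 ⟨mem_powerset.2 (insert_subset hx t1),
      mem_insert_of_mem t2, by rw [card_insert_of_notMem hx']; omega⟩)
    rw [card_insert_of_notMem hx'] at k3
    omega
  have cl : Clo U T := fun e he => ⟨fun h => by_contra fun q => q
      (ex e he _ ((clo_cmp U a e he).1 (t1 h)) q (mem_insert_of_mem h) (mem_insert_self _ _)).2,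
    fun h => by_contra fun q => q
      (ex e he _ ((clo_cmp U a e he).2 (t1 h)) q (mem_insert_self _ _) (mem_insert_of_mem h)).1⟩
  refine (card_le_card fun x hx => (cl.mem_iff hx).2 t2).trans (t3.trans ?_)
  exact Nat.succ_le_succ (card_le_card (monotone_filter_right _ fun f _ hf => t1 hf.1))

theorem V1_loc {M : ES N} (hM : M ∈ fam S k) (h : Clo M C) (hC : C ⊆ S) :
    ∑ c ∈ C, YY S M c = C.card - 2 * ((M.filter fun e => e.1 ∈ C).card : ℝ) := by
  obtain ⟨⟨⟨a1, a2⟩, -⟩, -⟩ := mem_fam.1 hM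
  have k0 : M.filter (fun e => e.1 ∈ C) ∈ fam C _ :=
    mem_fam.2 ⟨⟨⟨fun e he => a1 e (mem_filter.1 he).1, fun e he f hf =>
      a2 e (mem_filter.1 he).1 f (mem_filter.1 hf).1⟩, rfl⟩, fun e he =>
      ⟨(mem_filter.1 he).2, (h e (mem_filter.1 he).1).1 (mem_filter.1 he).2⟩⟩
  rw [← V1_sum k0, ← sum_subset (f := YY C _) (subset_univ C) fun x _ hx =>
    if_neg fun q => hx (mem_filter.1 q).1]
  refine sum_congr rfl fun c hc => if_congr ?_ rfl rfl
  simp only [fr, mem_filter]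
  refine ⟨fun q => ⟨hc, fun e he => q.2 e he.1⟩, fun q => ⟨hC hc, fun e he => ?_⟩⟩
  by_cases d : e.1 ∈ C
  · exact q.2 e ⟨he, d⟩
  · exact ⟨fun r => d (r ▸ hc), fun r => d ((h e he).2 (r ▸ hc))⟩

/-- a component containing an end contains exactly two ends -/
theorem two_ends (hω : ω ∈ Om S i k) (ha : DV S ω a ≠ 0) :
    ∑ c ∈ cmp (un ω) a, DV S ω c ^ 2 = 2 := by
  obtain ⟨m1, m2⟩ := mem_product.1 hω
  have cS : Clo (un ω) S := fun e he => by
    rcases mem_union.1 he with he | he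
    exacts [iff_of_true ((mem_fam.1 m1).2 e he).1 ((mem_fam.1 m1).2 e he).2,
      iff_of_true ((mem_fam.1 m2).2 e he).1 ((mem_fam.1 m2).2 e he).2]
  have aS : a ∈ S := by
    by_contra q
    simp [DV, YY, fr, q] at ha
  have hC : cmp (un ω) a ⊆ S := fun x hx => (cS.mem_iff hx).2 aS
  have k1 := V1_loc m1 (V1_l (clo_cmp _ a)) hC
  have k2 := V1_loc m2 (V1_r (clo_cmp _ a)) hC
  have k3 := V1_conn (un ω) a
  have k4 : ((un ω).filter fun e => e.1 ∈ cmp (un ω) a).card ≤ _ :=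
    (congrArg card (filter_union _ ω.1 ω.2)).trans_le (card_union_le _ _)
  have y0 : ∀ c ∈ cmp (un ω) a, 0 ≤ YY S ω.1 c + YY S ω.2 c := fun c _ => by
    simp only [YY]
    positivity
  have y1 : YY S ω.1 a + YY S ω.2 a = 1 := by
    revert ha
    simp only [DV, YY]
    split_ifs <;> simp
  have k5 := single_le_sum y0 (cmp_self (un ω) a)
  rw [y1, sum_add_distrib, k1, k2] at k5
  have k6 : (cmp (un ω) a).card = (ω.1.filter fun e => e.1 ∈ cmp (un ω) a).card +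
      (ω.2.filter fun e => e.1 ∈ cmp (un ω) a).card + 1 :=
    le_antisymm (by omega) (Nat.succ_le_of_lt (Nat.cast_lt (α := ℝ).1 (by push_cast; linarith only [k5])))
  have k7 : ∑ c ∈ cmp (un ω) a, (YY S ω.1 c + YY S ω.2 c) = 2 := by
    rw [sum_add_distrib, k1, k2, k6]
    push_cast
    ring
  rw [← k7]
  refine sum_congr rfl fun c hc => ?_
  have k8 : YY S ω.1 c + YY S ω.2 c ≤ 1 := by
    rcases eq_or_ne a c with rfl | hne
    · exact y1.le
    · linarith only [y1, k7, y0, hc, hne, add_le_sum y0 (cmp_self (un ω) a) hc hne]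
  revert k8
  simp only [DV, YY]
  split_ifs <;> norm_num

theorem Od.same (hω : ω ∈ Om S i k) (ha : Od S ω a) :
    dl S ω a = 2 * DV S ω a ∧ ∀ c ∈ cmp (un ω) a, DV S ω c = 0 ∨ DV S ω c = DV S ω a := by
  have k0 := two_ends hω ha.1
  have sq1 : ∀ c, DV S ω c ≠ 0 → DV S ω c ^ 2 = 1 := fun c hc => by
    rcases DV_cases S ω c with q | q | q <;> simp_all
  rw [← add_sum_erase _ _ (cmp_self (un ω) a), sq1 a ha.1] at k0
  obtain ⟨c0, hc, h0⟩ := exists_ne_zero_of_sum_ne_zero (by linarith :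
    ∑ c ∈ (cmp (un ω) a).erase a, DV S ω c ^ 2 ≠ 0)
  replace h0 : DV S ω c0 ≠ 0 := fun q => h0 (by simp [q])
  rw [← add_sum_erase _ _ hc, sq1 c0 h0] at k0
  have k1 : ∀ c ∈ ((cmp (un ω) a).erase a).erase c0, DV S ω c = 0 := fun c hc =>
    pow_eq_zero_iff two_ne_zero |>.1
      ((sum_eq_zero_iff_of_nonneg fun c _ => sq_nonneg (DV S ω c)).1 (by linarith) c hc)
  have k2 : dl S ω a = DV S ω a + DV S ω c0 := by
    rw [dl, ← add_sum_erase _ _ (cmp_self (un ω) a), ← add_sum_erase _ _ hc, sum_eq_zero k1,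
      add_zero]
  have k3 : DV S ω c0 = DV S ω a := by
    have q0 := k2 ▸ ha.2
    have q1 := ha.1
    rcases DV_cases S ω a with q | q | q <;> rcases DV_cases S ω c0 with r | r | r <;> simp_all
  refine ⟨by rw [k2, k3, two_mul], fun c hc' => ?_⟩
  by_cases e1 : c = a
  · exact Or.inr (e1 ▸ rfl)
  by_cases e2 : c = c0
  · exact Or.inr (e2 ▸ k3)
  · exact Or.inl (k1 c (mem_erase.2 ⟨e2, mem_erase.2 ⟨e1, hc'⟩⟩))

/-- the ends of even paths cancel -/
theorem sum_Od (hω : ω ∈ Om S i k) :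
    ∑ x, (if Od S ω x then DV S ω x else 0) = 2 * (k : ℝ) - 2 * i := by
  have k1 : ∀ x, 2 * (if Od S ω x then DV S ω x else 0) = 2 * DV S ω x -
      ∑ b ∈ cmp (un ω) x, DV S ω b ^ 2 * if dl S ω b = 0 then DV S ω x else 0 := fun x => by
    have e : ∀ b ∈ cmp (un ω) x, (DV S ω b ^ 2 * if dl S ω b = 0 then DV S ω x else 0) =
        DV S ω b ^ 2 * if dl S ω x = 0 then DV S ω x else 0 := fun b hb => by
      rw [dl, cmp_eq hb, ← dl]
    rw [sum_congr rfl e, ← sum_mul]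
    by_cases h0 : DV S ω x = 0
    · simp [h0]
    rw [two_ends hω h0]
    by_cases h1 : dl S ω x = 0 <;> simp [Od, h0, h1]
  have k2 : ∑ x, ∑ b ∈ cmp (un ω) x, (DV S ω b ^ 2 * if dl S ω b = 0 then DV S ω x else 0) = 0 := by
    rw [sum_comm' (s' := fun b => cmp (un ω) b) (t' := univ) fun x b => by simpa using cmp_symm]
    refine sum_eq_zero fun b _ => ?_
    rw [← mul_sum]
    split_ifs with h
    · rw [← dl, h, mul_zero]
    · simp
  have k3 := sum_congr rfl fun x (_ : x ∈ univ) => k1 x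
  rw [sum_sub_distrib, k2, ← mul_sum, ← mul_sum, sum_DV hω] at k3
  linarith only [k3]

end Pool.Agent.Work.MP_33747a_co
end

-- merged part: Pool.Agent.Work.MP_33747a_co.Half.V2
section
/-! The variance bound at a fixed level. -/

set_option autoImplicit false

namespace Pool.Agent.Work.MP_33747a_co

open Finset Classical

variable {N : ℕ} {B : Matrix (Fin N) (Fin N) ℝ} {S : Finset (Fin N)} {i : ℕ}

theorem kill_swp (C : ES N → Finset (Fin N)) (hC : ∀ U, Clo U (C U)) (G : ES N × ES N → ℝ)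
    (hG : ∀ ω ∈ Om S i i, ∑ x ∈ C (un ω), DV S ω x = 0 → G (swp (C (un ω)) ω) = -G ω)
    (h0 : ∀ ω ∈ Om S i i, ∑ x ∈ C (un ω), DV S ω x ≠ 0 → G ω = 0) :
    ∑ ω ∈ Om S i i, wt B ω * G ω = 0 := by
  rw [← sum_filter_of_ne (p := fun ω => ∑ x ∈ C (un ω), DV S ω x = 0) fun ω hω h => by
    by_contra c
    exact h (by rw [h0 ω hω c, mul_zero])]
  have key : ∀ ω ∈ (Om S i i).filter fun ω => ∑ x ∈ C (un ω), DV S ω x = 0,
      wt B ω * G ω + wt B (swp (C (un ω)) ω) * G (swp (C (un ω)) ω) = 0 := by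
    intro ω hω
    rw [wt_swp, hG ω (mem_filter.1 hω).1 (mem_filter.1 hω).2, mul_neg, add_neg_cancel]
  refine sum_involution (fun ω _ => swp (C (un ω)) ω) key (fun ω hω h e => h ?_)
    (fun ω hω => ?_) fun ω _ => by rw [un_swp, swp_swp]
  · have := key ω hω
    rw [e] at this
    linarith only [this]
  · obtain ⟨h1, h2⟩ := mem_filter.1 hω
    refine mem_filter.2 ⟨swp_mem h1 (hC _) (by rw [h2, add_zero]) (by rw [h2, sub_zero]), ?_⟩
    rw [un_swp, sum_congr rfl fun x hx => (DV_swp (hC _) x).trans (if_pos hx), sum_neg_distrib, h2,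
      neg_zero]

theorem v2_prod (B : Matrix (Fin N) (Fin N) ℝ) (S : Finset (Fin N)) (i k : ℕ)
    (f g : ES N → ℝ) : ∑ ω ∈ Om S i k, wt B ω * (f ω.1 * g ω.2) =
      (∑ M ∈ fam S i, (∏ e ∈ M, B e.1 e.2) * f M) * ∑ M ∈ fam S k, (∏ e ∈ M, B e.1 e.2) * g M := by
  rw [Om, sum_mul_sum, sum_product]
  exact sum_congr rfl fun _ _ => sum_congr rfl fun _ _ => by rw [wt]; ring

theorem v2_tot (B : Matrix (Fin N) (Fin N) ℝ) (S : Finset (Fin N)) (i k : ℕ) :
    ∑ ω ∈ Om S i k, wt B ω = HS B S i * HS B S k := by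
  simpa only [mul_one, HS] using v2_prod B S i k (fun _ => 1) fun _ => 1

theorem v2_var (B : Matrix (Fin N) (Fin N) ℝ) (S : Finset (Fin N)) (k : ℕ) (X : ES N → ℝ) :
    ∑ ω ∈ Om S k k, wt B ω * (X ω.1 - X ω.2) ^ 2 =
      2 * (HS B S k * ∑ M ∈ fam S k, (∏ e ∈ M, B e.1 e.2) * X M ^ 2 -
        (∑ M ∈ fam S k, (∏ e ∈ M, B e.1 e.2) * X M) ^ 2) := by
  have h1 := v2_prod B S k k (fun M => X M ^ 2) fun _ => 1
  have h2 := v2_prod B S k k (fun _ => 1) fun M => X M ^ 2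
  have h3 := v2_prod B S k k X X
  simp only [mul_one, one_mul] at h1 h2
  rw [sum_congr rfl fun ω _ => show wt B ω * (X ω.1 - X ω.2) ^ 2 = wt B ω * X ω.1 ^ 2 +
    wt B ω * X ω.2 ^ 2 - 2 * (wt B ω * (X ω.1 * X ω.2)) by ring, sum_sub_distrib, sum_add_distrib,
    ← mul_sum, h1, h2, h3, HS]
  ring

section
variable {ω : ES N × ES N} {a b : Fin N} {k : ℕ}

theorem v2_sq (h : DV S ω a ≠ 0) : DV S ω a ^ 2 = 1 := by
  rcases DV_cases S ω a with e | e | e
  exacts [absurd e h, by rw [e]; norm_num, by rw [e]; norm_num]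

theorem v2_out (h : a ∉ S) : DV S ω a = 0 := by
  have k : ∀ M, a ∉ fr S M := fun M c => h (mem_filter.1 c).1
  rw [DV, YY, YY, if_neg (k _), if_neg (k _), sub_zero]

theorem v2_nu (S : Finset (Fin N)) (ω : ES N × ES N) : 0 ≤ nu S ω :=
  sum_nonneg fun _ _ => by split_ifs <;> norm_num

theorem v2_move {i' k' : ℕ} {ε : ℝ} (h1 : 2 * (i' : ℝ) = 2 * i + 2 * ε)
    (h2 : 2 * (k' : ℝ) = 2 * k - 2 * ε)
    (h : ω ∈ (Om S i k).filter fun ω => Od S ω a ∧ DV S ω a = ε) :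
    swp (cmp (un ω) a) ω ∈ (Om S i' k').filter fun ω => Od S ω a ∧ DV S ω a = -ε := by
  obtain ⟨hω, ho, he⟩ := mem_filter.1 h
  have h3 : ∑ x ∈ cmp (un ω) a, DV S ω x = 2 * ε := he ▸ (ho.same hω).1
  exact mem_filter.2 ⟨swp_mem hω (clo_cmp _ a) (by rwa [h3]) (by rwa [h3]),
    (Od_swp (clo_cmp _ a) a).2 ho, by rw [DV_swp (clo_cmp _ a), if_pos (cmp_self _ a), he]⟩

theorem v2_cnt {ε : ℝ} (hε : ε = 1 ∨ ε = -1) (hω : ω ∈ Om S i k) (c : ℝ) :
    ∑ a, (if Od S ω a ∧ DV S ω a = ε then c else 0) =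
      c * ((nu S ω + ε * (2 * k - 2 * i)) / 2) := by
  rw [← sum_Od hω, nu, mul_sum, ← sum_add_distrib, sum_div, mul_sum]
  refine sum_congr rfl fun a _ => ?_
  by_cases h : Od S ω a
  · rcases DV_cases S ω a with e | e | e
    · exact absurd e h.1
    · rcases hε with rfl | rfl <;> norm_num [h, e]
    · rcases hε with rfl | rfl <;> norm_num [h, e]
  · simp [h]

theorem v2_od (ha : Od S ω a) (hb : b ∈ cmp (un ω) a) : Od S ω b ↔ DV S ω b ≠ 0 :=
  and_iff_left (by rw [dl, cmp_eq hb]; exact ha.2)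

theorem v2_split (ha : Od S ω a) (f : Fin N → ℝ) :
    ∑ c, (if c ∉ cmp (un ω) a ∧ Od S ω a ∧ Od S ω c then f c else 0) =
      ∑ c, (if Od S ω c then f c else 0) - ∑ c ∈ cmp (un ω) a, f c * DV S ω c ^ 2 := by
  rw [← sum_ite_mem_eq (cmp (un ω) a), ← sum_sub_distrib]
  refine sum_congr rfl fun c _ => ?_
  by_cases h : c ∈ cmp (un ω) a
  · by_cases h' : DV S ω c = 0
    · simp [h, v2_od ha h, h']
    · simp [h, v2_od ha h, h', v2_sq h']
  · simp [h, ha]

theorem v2_num (hω : ω ∈ Om S i k) (ha : Od S ω a) :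
    ∑ c, (if c ∉ cmp (un ω) a ∧ Od S ω a ∧ Od S ω c then (1 : ℝ) else 0) = nu S ω - 2 := by
  rw [v2_split ha, nu]
  simp only [one_mul, two_ends hω ha.1]

theorem v2_imb (hω : ω ∈ Om S i i) (ha : Od S ω a) :
    ∑ c, (if c ∉ cmp (un ω) a ∧ Od S ω a ∧ Od S ω c then DV S ω c else 0) = -2 * DV S ω a := by
  rw [v2_split ha, sum_Od hω, sum_congr rfl fun c _ => show DV S ω c * DV S ω c ^ 2 = DV S ω c by
    rcases DV_cases S ω c with e | e | e <;> rw [e] <;> norm_num]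
  linarith only [hω, ha, (ha.same hω).1, show dl S ω a = ∑ c ∈ cmp (un ω) a, DV S ω c from rfl]

theorem v2_four (hω : ω ∈ Om S i k) (h : b ∉ cmp (un ω) a ∧ Od S ω a ∧ Od S ω b) :
    4 ≤ nu S ω := by
  have h1 := v2_num hω h.2.1
  have h2 := two_ends hω h.2.2.1
  have h3 : ∑ c ∈ cmp (un ω) b, DV S ω c ^ 2 ≤
      ∑ c, (if c ∉ cmp (un ω) a ∧ Od S ω a ∧ Od S ω c then (1 : ℝ) else 0) := by
    refine le_trans (sum_le_sum fun c hc => ?_) (sum_le_sum_of_subset_of_nonneg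
      (subset_univ (cmp (un ω) b)) fun _ _ _ => by split_ifs <;> norm_num)
    by_cases e : DV S ω c = 0
    · rw [e]
      split_ifs <;> norm_num
    · rw [v2_sq e, if_pos ⟨fun c' => h.1 (by rw [← cmp_eq c', cmp_eq hc]; exact cmp_self _ b),
        h.2.1, (v2_od h.2.2 hc).2 e⟩]
  linarith

theorem v2_same (hω : ω ∈ Om S i k) (d : Fin N → ℝ) (φ : Fin N → Fin N → ℝ)
    (h : ∀ a b, φ a b ≤ (d a ^ 2 + d b ^ 2) / 2 * (DV S ω a ^ 2 * DV S ω b ^ 2)) :
    ∑ a, ∑ b, (if b ∈ cmp (un ω) a then φ a b else 0) ≤ 2 * ∑ a, d a ^ 2 * DV S ω a ^ 2 := by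
  have h1 : ∑ a, ∑ b, (if b ∈ cmp (un ω) a then d a ^ 2 / 2 * DV S ω a ^ 2 * DV S ω b ^ 2
      else 0) = ∑ a, d a ^ 2 * DV S ω a ^ 2 := by
    refine sum_congr rfl fun a _ => ?_
    rw [sum_ite_mem_eq, ← mul_sum]
    by_cases e : DV S ω a = 0
    · simp [e]
    · rw [two_ends hω e]
      ring
  have h2 : ∑ a, ∑ b, (if b ∈ cmp (un ω) a then d b ^ 2 / 2 * DV S ω b ^ 2 * DV S ω a ^ 2
      else 0) = ∑ a, d a ^ 2 * DV S ω a ^ 2 := by
    rw [← h1, sum_comm]
    exact sum_congr rfl fun a _ => sum_congr rfl fun b _ => if_congr cmp_symm rfl rfl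
  rw [two_mul]
  refine le_of_le_of_eq ?_ (congrArg₂ (· + ·) h1 h2)
  rw [← sum_add_distrib]
  refine sum_le_sum fun a _ => ?_
  rw [← sum_add_distrib]
  refine sum_le_sum fun b _ => ?_
  split_ifs
  · linarith only [h, h a b]
  · norm_num

theorem v2_T1 (hω : ω ∈ Om S i k) (d : Fin N → ℝ) :
    ∑ a, ∑ b, (if b ∈ cmp (un ω) a then d a * d b * (DV S ω a * DV S ω b) else 0) ≤
      2 * ∑ a, d a ^ 2 * DV S ω a ^ 2 := by
  refine v2_same hω d _ fun a b => ?_
  rcases DV_cases S ω a with e | e | e <;> rcases DV_cases S ω b with e' | e' | e' <;>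
    rw [e, e'] <;> linarith only [sq_nonneg (d a - d b), sq_nonneg (d a + d b), sq_nonneg (d a - d b), sq_nonneg (d a + d b)]

theorem v2_T2 (hω : ω ∈ Om S i k) (d : Fin N → ℝ) :
    ∑ a, ∑ b, d a * d b *
        (if b ∉ cmp (un ω) a ∧ Od S ω a ∧ Od S ω b then -2 / (nu S ω - 2) else 0) ≤
      4 * (∑ a ∈ S, d a ^ 2) * (1 - nu S ω / (nu S ω + 4)) := by
  have h0 := v2_nu S ω
  have hS : 0 ≤ ∑ a ∈ S, d a ^ 2 := sum_nonneg fun _ _ => sq_nonneg _
  have e1 : 1 - nu S ω / (nu S ω + 4) = 4 / (nu S ω + 4) := by field_simp; ring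
  rw [e1]
  by_cases c : ∃ a b, b ∉ cmp (un ω) a ∧ Od S ω a ∧ Od S ω b
  swap
  · rw [sum_eq_zero fun a _ => sum_eq_zero fun b _ => by
      rw [if_neg fun h => c ⟨a, b, h⟩, mul_zero]]
    positivity
  obtain ⟨a, b, c⟩ := c
  have h4 := v2_four hω c
  set t : Fin N → ℝ := fun a => if Od S ω a then d a else 0 with ht
  have h1 := v2_same hω d (fun a b => t a * t b) fun a b => by
    by_cases ha : Od S ω a
    · by_cases hb : Od S ω b
      · simp only [ht, if_pos ha, if_pos hb, v2_sq ha.1, v2_sq hb.1]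
        linarith only [sq_nonneg (d a - d b), sq_nonneg (d a - d b)]
      · simp only [ht, if_neg hb, mul_zero]
        positivity
    · simp only [ht, if_neg ha, zero_mul]
      positivity
  have h2 : ∑ a, d a ^ 2 * DV S ω a ^ 2 ≤ ∑ a ∈ S, d a ^ 2 := by
    rw [← sum_subset (subset_univ S) fun a _ h => by rw [v2_out h]; ring]
    refine sum_le_sum fun a _ => mul_le_of_le_one_right (sq_nonneg _) ?_
    rcases DV_cases S ω a with e | e | e <;> rw [e] <;> norm_num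
  have h3 : ∑ a, ∑ b, d a * d b *
        (if b ∉ cmp (un ω) a ∧ Od S ω a ∧ Od S ω b then -2 / (nu S ω - 2) else 0) =
      2 / (nu S ω - 2) * (∑ a, ∑ b, (if b ∈ cmp (un ω) a then t a * t b else 0) -
        (∑ a, t a) ^ 2) := by
    rw [sq, sum_mul_sum, ← sum_sub_distrib, mul_sum]
    refine sum_congr rfl fun a _ => ?_
    rw [← sum_sub_distrib, mul_sum]
    refine sum_congr rfl fun b _ => ?_
    by_cases h : b ∈ cmp (un ω) a <;> by_cases ha : Od S ω a <;> by_cases hb : Od S ω b <;>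
      simp [ht, h, ha, hb]
    ring
  have h5 : 0 < nu S ω - 2 := by linarith only [h4]
  have h6 : 1 / (nu S ω - 2) ≤ 4 / (nu S ω + 4) := by
    rw [div_le_div_iff₀ h5 (by linarith only [h4])]
    linarith only [h4]
  rw [h3]
  calc _ ≤ 2 / (nu S ω - 2) * (2 * ∑ a ∈ S, d a ^ 2) :=
        mul_le_mul_of_nonneg_left (by linarith only [h1, h2, sq_nonneg (∑ a, t a)]) (by positivity)
    _ = 4 * (∑ a ∈ S, d a ^ 2) * (1 / (nu S ω - 2)) := by ring
    _ ≤ _ := mul_le_mul_of_nonneg_left h6 (by positivity)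

end

/-- moving one odd path from one replica to the other -/
theorem kappa_eq (B : Matrix (Fin N) (Fin N) ℝ) (S : Finset (Fin N)) (i : ℕ) :
    ∑ ω ∈ Om S (i + 1) (i + 1), wt B ω * (nu S ω / (nu S ω + 4)) = HS B S (i + 2) * HS B S i := by
  have h1 : ∀ a, ∑ ω ∈ Om S (i + 1) (i + 1),
      (if Od S ω a ∧ DV S ω a = 1 then wt B ω * (2 / (nu S ω + 4)) else 0) =
      ∑ ω ∈ Om S (i + 2) i,
        (if Od S ω a ∧ DV S ω a = -1 then wt B ω * (2 / (nu S ω + 4)) else 0) := by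
    intro a
    rw [← sum_filter, ← sum_filter]
    refine sum_nbij' (fun ω => swp (cmp (un ω) a) ω) (fun ω => swp (cmp (un ω) a) ω)
      (fun ω hω => v2_move (by push_cast; ring) (by push_cast; ring) hω) (fun ω hω => ?_)
      (fun ω _ => by rw [un_swp, swp_swp]) (fun ω _ => by rw [un_swp, swp_swp])
      fun ω _ => by rw [wt_swp, nu_swp (clo_cmp _ a)]
    simpa only [neg_neg] using
      v2_move (i' := i + 1) (k' := i + 1) (by push_cast; ring) (by push_cast; ring) hω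
  have h2 := sum_congr rfl fun a (_ : a ∈ univ) => h1 a
  rw [sum_comm, sum_comm (s := univ), sum_congr rfl fun ω hω => v2_cnt (Or.inl rfl) hω _,
    sum_congr rfl fun ω hω => v2_cnt (Or.inr rfl) hω _] at h2
  rw [← v2_tot]
  refine (sum_congr rfl fun ω _ => ?_).trans (h2.trans (sum_congr rfl fun ω _ => ?_))
  · ring
  · have := v2_nu S ω
    push_cast
    field_simp
    ring

/-- different components, one of them not an odd path -/
theorem cross_even (B : Matrix (Fin N) (Fin N) ℝ) (S : Finset (Fin N)) (i : ℕ) (a b : Fin N) :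
    ∑ ω ∈ Om S i i, wt B ω *
      (if b ∉ cmp (un ω) a ∧ ¬ (Od S ω a ∧ Od S ω b) then DV S ω a * DV S ω b else 0) = 0 := by
  have h1 := kill_swp (B := B) (S := S) (i := i) (fun U => cmp U a) (fun U => clo_cmp U a)
    (fun ω => if b ∉ cmp (un ω) a ∧ dl S ω a = 0 then DV S ω a * DV S ω b else 0)
    (fun ω _ _ => by
      simp only [un_swp, dl_swp (clo_cmp _ a), DV_swp (clo_cmp _ a), cmp_self, if_true,
        neg_eq_zero]
      by_cases h : b ∈ cmp (un ω) a <;> by_cases h' : dl S ω a = 0 <;> simp [h, h'])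
    fun ω _ h => if_neg fun c => h c.2
  have h2 := kill_swp (B := B) (S := S) (i := i) (fun U => cmp U b) (fun U => clo_cmp U b)
    (fun ω => if a ∉ cmp (un ω) b ∧ dl S ω a ≠ 0 ∧ dl S ω b = 0 then DV S ω a * DV S ω b else 0)
    (fun ω _ _ => by
      simp only [un_swp, dl_swp (clo_cmp _ b), DV_swp (clo_cmp _ b), cmp_self, if_true,
        neg_eq_zero]
      by_cases h : a ∈ cmp (un ω) b <;> by_cases h' : dl S ω a = 0 <;>
        by_cases h'' : dl S ω b = 0 <;> simp [h, h', h''])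
    fun ω _ h => if_neg fun c => h c.2.2
  refine Eq.trans ?_ ((congrArg₂ (· + ·) h1 h2).trans (add_zero 0))
  rw [← sum_add_distrib]
  refine sum_congr rfl fun ω _ => ?_
  rw [← mul_add]
  congr 1
  by_cases c1 : b ∈ cmp (un ω) a <;> by_cases c2 : dl S ω a = 0 <;> by_cases c3 : dl S ω b = 0 <;>
    simp [Od, c1, c2, c3, ← cmp_symm (a := a)]
  tauto

/-- different components, both odd paths -/
theorem cross_odd (B : Matrix (Fin N) (Fin N) ℝ) (S : Finset (Fin N)) (i : ℕ) (a b : Fin N) :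
    ∑ ω ∈ Om S i i, wt B ω *
      (if b ∉ cmp (un ω) a ∧ Od S ω a ∧ Od S ω b then DV S ω a * DV S ω b else 0) =
    ∑ ω ∈ Om S i i, wt B ω *
      (if b ∉ cmp (un ω) a ∧ Od S ω a ∧ Od S ω b then -2 / (nu S ω - 2) else 0) := by
  have h1 : ∀ c, ∑ ω ∈ Om S i i, wt B ω *
      (if (b ∉ cmp (un ω) a ∧ Od S ω a ∧ Od S ω b) ∧ c ∉ cmp (un ω) a ∧ Od S ω a ∧ Od S ω c then
        DV S ω a * (DV S ω b - DV S ω c) / (nu S ω - 2) else 0) = 0 := by
    intro c
    have hC : ∀ U : ES N, Clo U (cmp U b ∪ cmp U c) := fun U => (clo_cmp U b).union (clo_cmp U c)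
    refine kill_swp (fun U => cmp U b ∪ cmp U c) hC _ (fun ω _ _ => ?_) fun ω hω h => ?_
    · simp only [un_swp, Od_swp (hC _), nu_swp (hC _), DV_swp (hC _), mem_union, cmp_self, true_or,
        or_true, if_true]
      split_ifs with h1 h2
      · exact absurd h2 (not_or.2 ⟨mt cmp_symm.2 h1.1.1, mt cmp_symm.2 h1.2.1⟩)
      · ring
      · exact neg_zero.symm
    · split_ifs with h1
      · by_cases e : DV S ω c = DV S ω b
        · rw [e, sub_self, mul_zero, zero_div]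
        have h2 : c ∉ cmp (un ω) b := fun k => ((h1.1.2.2.same hω).2 c k).elim h1.2.2.2.1 e
        refine absurd ?_ h
        rw [sum_union (disjoint_left.2 fun x k k' => h2 (by
          rw [← cmp_eq k, cmp_eq k']; exact cmp_self _ c))]
        refine (congrArg₂ (· + ·) (h1.1.2.2.same hω).1 (h1.2.2.2.same hω).1).trans ?_
        have k1 := h1.1.2.2.1
        have k2 := h1.2.2.2.1
        rcases DV_cases S ω b with e1 | e1 | e1 <;> rcases DV_cases S ω c with e2 | e2 | e2 <;>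
          simp_all
      · rfl
  have h2 := sum_eq_zero fun c (_ : c ∈ univ) => h1 c
  rw [sum_comm] at h2
  rw [← sub_eq_zero, ← sum_sub_distrib]
  refine (sum_congr rfl fun ω hω => ?_).trans h2
  rw [← mul_sub, ← mul_sum]
  congr 1
  by_cases h : b ∉ cmp (un ω) a ∧ Od S ω a ∧ Od S ω b
  · have k1 := v2_num hω h.2.1
    have k2 := v2_imb hω h.2.1
    have k3 : nu S ω - 2 ≠ 0 := by linarith only [hω, h, v2_four hω h] |> ne_of_gt
    have k4 := v2_sq h.2.1.1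
    rw [if_pos h, if_pos h, sum_congr rfl fun c _ => show (if (b ∉ cmp (un ω) a ∧ Od S ω a ∧
      Od S ω b) ∧ c ∉ cmp (un ω) a ∧ Od S ω a ∧ Od S ω c then
        DV S ω a * (DV S ω b - DV S ω c) / (nu S ω - 2) else 0) = DV S ω a / (nu S ω - 2) *
        (DV S ω b * (if c ∉ cmp (un ω) a ∧ Od S ω a ∧ Od S ω c then (1 : ℝ) else 0) -
          if c ∉ cmp (un ω) a ∧ Od S ω a ∧ Od S ω c then DV S ω c else 0) by
      rw [if_congr (and_iff_right h) rfl rfl]
      split_ifs <;> ring, ← mul_sum, sum_sub_distrib, ← mul_sum, k1, k2]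
    field_simp
    linear_combination (-2) * k4
  · rw [if_neg h, if_neg h, sub_zero]
    exact (sum_eq_zero fun c _ => if_neg fun k => h k.1).symm

theorem var_bound (hb : Stoch B) (S : Finset (Fin N)) (i : ℕ) (d : Fin N → ℝ) :
    HS B S (i + 1) * EE B S (i + 1) (fun F => (∑ a ∈ F, d a) ^ 2) -
        EE B S (i + 1) (fun F => ∑ a ∈ F, d a) ^ 2 ≤
      2 * ∑ a ∈ S, d a ^ 2 *
          (HS B (S.erase a) (i + 1) * (HS B S (i + 1) - HS B (S.erase a) (i + 1))) +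
        2 * (HS B S (i + 1) ^ 2 - HS B S (i + 2) * HS B S i) * ∑ a ∈ S, d a ^ 2 := by
  have hX : ∀ M, ∑ a ∈ fr S M, d a = ∑ a, d a * YY S M a := fun M => by
    simp only [YY, mul_ite, mul_one, mul_zero, sum_ite_mem_eq]
  have h1 := v2_var B S (i + 1) fun M => ∑ a ∈ fr S M, d a
  have h2 : ∀ a ∈ S, ∑ ω ∈ Om S (i + 1) (i + 1), wt B ω * DV S ω a ^ 2 =
      2 * (HS B (S.erase a) (i + 1) * (HS B S (i + 1) - HS B (S.erase a) (i + 1))) := by
    intro a ha
    have k1 : HS B (S.erase a) (i + 1) =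
        ∑ M ∈ fam S (i + 1), (∏ e ∈ M, B e.1 e.2) * YY S M a := by
      rw [← one_mul (HS _ _ _), ← EE_const, EE_erase ha]
      simp only [YY, mul_ite, mul_zero]
    have k2 : ∀ M, YY S M a ^ 2 = YY S M a := fun M => by rw [YY]; split_ifs <;> norm_num
    refine (v2_var B S (i + 1) fun M => YY S M a).trans ?_
    simp only [k2, ← k1]
    ring
  have h3 : ∑ ω ∈ Om S (i + 1) (i + 1), wt B ω * (∑ a ∈ fr S ω.1, d a - ∑ a ∈ fr S ω.2, d a) ^ 2 =
      ∑ ω ∈ Om S (i + 1) (i + 1), wt B ω *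
        (∑ a, ∑ b, (if b ∈ cmp (un ω) a then d a * d b * (DV S ω a * DV S ω b) else 0) +
          ∑ a, ∑ b, d a * d b *
            (if b ∉ cmp (un ω) a ∧ Od S ω a ∧ Od S ω b then -2 / (nu S ω - 2) else 0)) := by
    have k1 : ∀ F : ES N × ES N → Fin N → Fin N → ℝ,
        ∑ ω ∈ Om S (i + 1) (i + 1), wt B ω * ∑ a, ∑ b, d a * d b * F ω a b =
          ∑ a, ∑ b, d a * d b * ∑ ω ∈ Om S (i + 1) (i + 1), wt B ω * F ω a b := by
      intro F
      simp only [mul_sum]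
      rw [sum_comm]
      refine sum_congr rfl fun a _ => ?_
      rw [sum_comm]
      exact sum_congr rfl fun b _ => sum_congr rfl fun ω _ => by ring
    have k2 := k1 fun ω a b =>
      if b ∉ cmp (un ω) a ∧ ¬ (Od S ω a ∧ Od S ω b) then DV S ω a * DV S ω b else 0
    simp only [cross_even, mul_zero, sum_const_zero] at k2
    simp only [mul_add, sum_add_distrib]
    rw [k1, sum_congr rfl fun a _ => sum_congr rfl fun b _ => by rw [← cross_odd], ← k1]
    refine Eq.trans ?_ ((congrArg (_ + ·) k2).trans (add_zero _))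
    rw [← sum_add_distrib, ← sum_add_distrib]
    refine sum_congr rfl fun ω _ => ?_
    rw [← mul_add, ← mul_add, hX, hX, ← sum_sub_distrib, sq, sum_mul_sum, ← sum_add_distrib,
      ← sum_add_distrib]
    refine congrArg _ (sum_congr rfl fun a _ => ?_)
    rw [← sum_add_distrib, ← sum_add_distrib]
    refine sum_congr rfl fun b _ => ?_
    rw [← mul_sub, ← mul_sub, show YY S ω.1 a - YY S ω.2 a = DV S ω a from rfl,
      show YY S ω.1 b - YY S ω.2 b = DV S ω b from rfl]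
    by_cases c1 : b ∈ cmp (un ω) a <;> by_cases c2 : Od S ω a ∧ Od S ω b <;>
      simp only [c1, c2, not_true, not_false_eq_true, and_true, and_false, if_true, if_false] <;>
      ring
  have h4 := sum_le_sum fun ω hω => mul_le_mul_of_nonneg_left
    (add_le_add (v2_T1 (S := S) (i := i + 1) (k := i + 1) hω d) (v2_T2 hω d)) (wt_nonneg hb ω)
  have h5 : ∑ ω ∈ Om S (i + 1) (i + 1), wt B ω * (2 * ∑ a, d a ^ 2 * DV S ω a ^ 2 +
      4 * (∑ a ∈ S, d a ^ 2) * (1 - nu S ω / (nu S ω + 4))) =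
      2 * ∑ a ∈ S, d a ^ 2 * ∑ ω ∈ Om S (i + 1) (i + 1), wt B ω * DV S ω a ^ 2 +
        4 * (∑ a ∈ S, d a ^ 2) * (∑ ω ∈ Om S (i + 1) (i + 1), wt B ω -
          ∑ ω ∈ Om S (i + 1) (i + 1), wt B ω * (nu S ω / (nu S ω + 4))) := by
    rw [← sum_sub_distrib, mul_sum _ _ (4 * _)]
    simp only [mul_sum _ _ (d _ ^ 2)]
    rw [sum_comm (s := S), mul_sum _ _ 2, ← sum_add_distrib]
    refine sum_congr rfl fun ω _ => ?_
    rw [← sum_subset (subset_univ S) fun a _ h => by rw [v2_out h]; ring, mul_add,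
      mul_left_comm, mul_sum _ _ (wt B ω),
      sum_congr rfl fun a _ => mul_left_comm (wt B ω) (d a ^ 2) _]
    ring
  rw [h5, ← h3, h1, kappa_eq, v2_tot, sum_congr rfl fun a ha => (congrArg (d a ^ 2 * ·)
    (h2 a ha)).trans (mul_left_comm _ _ _), ← mul_sum] at h4
  unfold EE
  linarith only [h4]

/-- the crude form -/
theorem var_crude (hb : Stoch B) (S : Finset (Fin N)) (i : ℕ) (d : Fin N → ℝ) :
    HS B S (i + 1) * EE B S (i + 1) (fun F => (∑ a ∈ F, d a) ^ 2) -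
        EE B S (i + 1) (fun F => ∑ a ∈ F, d a) ^ 2 ≤
      5 / 2 * HS B S (i + 1) ^ 2 * ∑ a ∈ S, d a ^ 2 := by
  refine (var_bound hb S i d).trans ?_
  have h1 : ∑ a ∈ S, d a ^ 2 *
      (HS B (S.erase a) (i + 1) * (HS B S (i + 1) - HS B (S.erase a) (i + 1))) ≤
      ∑ a ∈ S, d a ^ 2 * (HS B S (i + 1) ^ 2 / 4) :=
    sum_le_sum fun a _ => mul_le_mul_of_nonneg_left
      (by linarith only [sq_nonneg (HS B S (i + 1) - 2 * HS B (S.erase a) (i + 1)), sq_nonneg (HS B S (i + (1 : ℕ)) - (2 : ℝ) * HS B (S.erase a) (i + (1 : ℕ)))]) (sq_nonneg _)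
  rw [← sum_mul] at h1
  have h2 : 0 ≤ ∑ a ∈ S, d a ^ 2 := sum_nonneg fun _ _ => sq_nonneg _
  have h3 := mul_nonneg (mul_nonneg (HS_nonneg hb S (i + 2)) (HS_nonneg hb S i)) h2
  linarith only [h1, h3]

end Pool.Agent.Work.MP_33747a_co
end

-- merged part: Pool.Agent.Work.MP_33747a_co.Half.I
section
/-! Exact identities between three consecutive levels. -/

set_option autoImplicit false

namespace Pool.Agent.Work.MP_33747a_co

open Finset

variable {N : ℕ} {B : Matrix (Fin N) (Fin N) ℝ} {j : ℝ} {L : ℕ}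

theorem I_sub (S : Finset (Fin N)) (k : ℕ) (g h : Finset (Fin N) → ℝ) :
    EE B S k (fun F => g F - h F) = EE B S k g - EE B S k h := by
  simp only [EE, mul_sub, sum_sub_distrib]

theorem I_erase {S : Finset (Fin N)} {u : Fin N} (hu : u ∈ S) (k : ℕ) (g : Finset (Fin N) → ℝ) :
    EE B (S.erase u) k g = EE B S k fun F => if u ∈ F then g (F.erase u) else 0 := by
  rw [EE_erase hu]
  simp only [EE, mul_ite, mul_zero]

theorem I_E2 (hb : Stoch B) {F : Finset (Fin N)} {u : Fin N} (hu : u ∈ F) :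
    ∑ a ∈ F.erase u, ∑ c ∈ F.erase u, B a c = ∑ a ∈ F, ∑ c ∈ F, B a c - 2 * ∑ c ∈ F, B u c := by
  simp only [sum_erase_eq_sub hu, sum_sub_distrib, hb.diag, hb.symm _ u]
  ring

theorem I_row {F : Finset (Fin N)} {u : Fin N} (hu : u ∉ F) (j : ℝ) :
    ∑ v ∈ F, B u v = ∑ v ∈ F, dev B j u v + j * F.card ∧
      ∑ v ∈ F, B u v ^ 2 = ∑ v ∈ F, dev B j u v ^ 2 + 2 * j * ∑ v ∈ F, dev B j u v +
        j ^ 2 * F.card := by
  have h : ∀ v ∈ F, B u v = dev B j u v + j := fun v hv => by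
    rw [dev, if_neg fun e : u = v => hu (e ▸ hv), sub_add_cancel]
  rw [sum_congr rfl h, sum_congr rfl fun v hv => (congrArg (· ^ 2) (h v hv)).trans (add_sq _ _)]
  simp only [sum_add_distrib, sum_const, nsmul_eq_mul, ← sum_mul, ← mul_sum]
  constructor <;> ring

theorem I_mean (hb : Stoch B) (u : Fin N) (L : ℕ) :
    EE B (univ.erase u) L (fun F => ∑ w ∈ F, B u w) =
      HS B univ (L + 1) - HS B (univ.erase u) (L + 1) := by
  rw [← EE_sum1, HS_rec B hb.symm univ (mem_univ u) L, add_sub_cancel_left]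

theorem I_loc (hb : Stoch B) (u : Fin N) (L : ℕ) :
    ∑ w, B u w * HS B (univ.erase w) (L + 1) = HS B univ (L + 2) - HS B (univ.erase u) (L + 2) +
      EE B (univ.erase u) L fun F => (∑ w ∈ F, B u w) ^ 2 - ∑ w ∈ F, B u w ^ 2 := by
  rw [← I_mean hb, ← EE_sum1, EE_congr _ _ (h := fun F => ∑ w ∈ F, ∑ c ∈ F.erase w, B u w * B u c),
    ← EE_sum2, ← sum_add_distrib, ← sum_erase (a := u) _ (by rw [hb.diag, zero_mul])]
  · refine sum_congr rfl fun w hw => ?_
    rw [HS_rec B hb.symm _ (mem_erase.2 ⟨(ne_of_mem_erase hw).symm, mem_univ u⟩), erase_right_comm,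
      mul_add, mul_sum]
    simp only [mul_assoc]
  · intro F _
    rw [sq, sum_mul, ← sum_sub_distrib]
    refine sum_congr rfl fun w hw => ?_
    rw [← mul_sum, sum_erase_eq_sub hw]
    ring

theorem I_cs (hb : Stoch B) (L : ℕ) : (2 * ((L : ℝ) + 1) * HS B univ (L + 1)) ^ 2 ≤
    EE B univ L (fun F => (∑ u ∈ F, ∑ v ∈ F, B u v) ^ 2) * HS B univ L := by
  simpa only [mul_one, one_pow, EE_const, one_mul, ← stepA hb] using
    EE_cs hb univ L (fun F => ∑ u ∈ F, ∑ v ∈ F, B u v) fun _ => 1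

theorem sum_xx (h : 0 < HS B univ L) : ∑ u, xx B L u = (N : ℝ) - 2 * L := by
  simp only [xx, ← sum_div, sum_HS_erase, card_univ, Fintype.card_fin]
  field_simp

/-- normalised form of `stepM` -/
theorem tt_mul (hb : Stoch B) (h0 : 0 < HS B univ L) (h1 : 0 < HS B univ (L + 1)) :
    tt B L * (j * (((N : ℝ) - 2 * L) * ((N : ℝ) - 2 * L - 1)) + DD B j L) = 2 * ((L : ℝ) + 1) := by
  have h := stepM (j := j) hb L
  unfold tt DD
  field_simp
  linarith only [h]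

/-- second moment of the weight inside the uncovered set -/
theorem ident2 (hb : Stoch B) (L : ℕ) :
    4 * ((L : ℝ) - 1) * ((L : ℝ) + 2) * HS B univ (L + 2) =
      EE B univ L (fun F => (∑ u ∈ F, ∑ v ∈ F, B u v) ^ 2) -
        4 * ((N : ℝ) - 2 * L - 2) * HS B univ (L + 1) -
        2 * EE B univ L (fun F => ∑ u ∈ F, ∑ v ∈ F, B u v ^ 2) := by
  have h1 := sum_congr (rfl : (univ : Finset (Fin N)) = univ) fun u _ => I_loc hb u L
  rw [sum_comm, sum_add_distrib, sum_sub_distrib, EE_sum, sum_HS_erase,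
    EE_congr _ _ (h := fun F => ∑ u ∈ F, (∑ v ∈ F, B u v) ^ 2 - ∑ u ∈ F, ∑ v ∈ F, B u v ^ 2)
      fun F _ => by
        rw [← sum_sub_distrib]
        exact sum_congr rfl fun u _ => by
          rw [sum_erase _ (hb.diag u), sum_erase _ (by rw [hb.diag]; simp)], I_sub] at h1
  have hs : ∀ (F : Finset (Fin N)) w, ∑ i ∈ F, B i w = ∑ i ∈ F, B w i := fun F w =>
    sum_congr rfl fun i _ => hb.symm i w
  simp only [← sum_mul] at h1
  rw [sum_congr rfl fun w _ => by rw [hs, hb.row, one_mul]] at h1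
  simp only [sum_HS_erase, sum_const, card_univ, Fintype.card_fin, nsmul_eq_mul] at h1
  have h2 := stepA hb univ (L + 1)
  rw [← EE_congr _ _ fun F _ => sum_erase_diag F _ hb.diag, ← EE_sum2] at h2
  have h3 : ∀ u v, B u v * (2 * ((L : ℝ) + 1) * HS B ((univ.erase u).erase v) (L + 1)) =
      EE B ((univ.erase u).erase v) L fun F => B u v * ∑ a ∈ F, ∑ c ∈ F, B a c := fun u v => by
    rw [EE_mul, stepA hb]
  have h4 := congrArg (2 * ((L : ℝ) + 1) * ·) h2
  simp only [mul_sum, mul_left_comm _ (B _ _), h3, EE_sum] at h4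
  rw [EE_congr _ _ (h := fun F => (∑ u ∈ F, ∑ v ∈ F, B u v) ^ 2 -
    4 * ∑ u ∈ F, (∑ v ∈ F, B u v) ^ 2 + 2 * ∑ u ∈ F, ∑ v ∈ F, B u v ^ 2), EE_add, I_sub, EE_mul,
    EE_mul] at h4
  · push_cast at h1 h4
    linear_combination h4 + 4 * h1
  · intro F _
    simp only [← mul_sum]
    rw [sum_congr rfl fun u hu => sum_congr rfl fun v hv => by
      rw [I_E2 hb hv, I_E2 hb hu, sum_erase_eq_sub hu, hb.symm v u],
      sum_erase_diag F _ fun u => by rw [hb.diag, zero_mul]]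
    have e : ∑ u ∈ F, ∑ v ∈ F, B u v * ∑ c ∈ F, B v c = ∑ u ∈ F, (∑ v ∈ F, B u v) ^ 2 := by
      rw [sum_comm]
      exact sum_congr rfl fun u _ => by rw [← sum_mul, hs, sq]
    simp only [mul_sub, mul_left_comm _ (2 : ℝ), sum_sub_distrib, ← mul_sum, e]
    simp only [← sum_mul, ← sq]
    ring

/-- crude consequence: the ratio of consecutive activities is close to one -/
theorem ident2_crude (hb : Stoch B) (h0 : 0 < HS B univ L) (h1 : 0 < HS B univ (L + 1)) :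
    ((L : ℝ) + 1) ^ 2 - tt B L * ((N : ℝ) - L - 1) ≤
      ((L : ℝ) - 1) * ((L : ℝ) + 2) * (tt B L * (HS B univ (L + 2) / HS B univ (L + 1))) := by
  have h2 := ident2 hb L
  have h3 := I_cs hb L
  have h4 : EE B univ L (fun F => ∑ u ∈ F, ∑ v ∈ F, B u v ^ 2) ≤
      2 * ((L : ℝ) + 1) * HS B univ (L + 1) := by
    rw [stepA hb]
    refine EE_mono hb.nonneg _ _ fun F _ => sum_le_sum fun u _ => sum_le_sum fun v _ => ?_
    exact pow_le_of_le_one (hb.nonneg u v) (by simpa using row_le hb {v} u) two_ne_zero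
  have h5 := mul_le_mul_of_nonneg_left h4 h0.le
  have h6 := congrArg (HS B univ L * ·) h2
  refine le_of_mul_le_mul_left ?_ (pow_pos h1 2)
  unfold tt
  field_simp
  linarith only [h3, h5, h6]

/-- sharp consequence: the excess is almost increasing -/
theorem ident2_sharp (hb : Stoch B) (hj : j * ((N : ℝ) - 1) = 1) (h0 : 0 < HS B univ L)
    (h1 : 0 < HS B univ (L + 1)) :
    ((L : ℝ) + 1 - j * tt B L) * DD B j L - tt B L * ss B j ≤ ((L : ℝ) - 1) * DD B j (L + 1) := by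
  have h2 := ident2 hb L
  have h3 := I_cs hb L
  have h4 : EE B univ L (fun F => ∑ u ∈ F, ∑ v ∈ F, B u v ^ 2) ≤ 2 * j * Phi B j L +
      (ss B j + j ^ 2 * (((N : ℝ) - 2 * L) * ((N : ℝ) - 2 * L - 1))) * HS B univ L := by
    rw [Phi, ← EE_mul, ← EE_const, ← EE_add]
    refine EE_mono hb.nonneg _ _ fun F hF => ?_
    have a : ∑ u ∈ F, ∑ v ∈ F, dev B j u v ^ 2 ≤ ss B j :=
      (sum_le_sum fun u _ => sum_le_univ_sum_of_nonneg fun v => sq_nonneg _).trans
        (sum_le_univ_sum_of_nonneg fun u => sum_nonneg fun v _ => sq_nonneg _)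
    rw [card_univ, Fintype.card_fin] at hF
    rw [sum_congr rfl fun u hu => by
      rw [← sum_erase (a := u) F (by rw [hb.diag]; simp), (I_row (notMem_erase u F) j).2,
        sum_erase _ (by rw [dev_self]; simp), sum_erase _ (dev_self u), cast_card_erase_of_mem hu]]
    simp only [sum_add_distrib, ← mul_sum, sum_const, nsmul_eq_mul, hF]
    linarith only [a]
  have h5 := mul_le_mul_of_nonneg_left h4 h0.le
  have h6 := stepM (j := j) hb L
  have h7 := stepM (j := j) hb (L + 1)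
  push_cast at h7
  unfold tt DD
  field_simp
  linear_combination h3 / 2 + h5 - HS B univ L / 2 * h2 + HS B univ L * (L - 1) * h7 -
    ((L + 1) * HS B univ (L + 1) + j * HS B univ L) * h6 -
    2 * HS B univ L * HS B univ (L + 1) * (N - 2 * L - 2) * hj

/-- the pointwise identity -/
theorem point_eq (hb : Stoch B) (h0 : 0 < HS B univ L) (h1 : 0 < HS B univ (L + 1))
    (h2 : 0 < HS B univ (L + 2)) (u : Fin N) (hu : 0 < HS B (univ.erase u) L) :
    tt B L * xx B L u * ∑ w, B u w * xx B (L + 1) w + (tt B L * xx B L u) ^ 2 * Gam B j L u =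
      tt B L / tt B (L + 1) * xx B L u * (1 - xx B (L + 2) u) +
        (1 - xx B (L + 1) u - j * (tt B L * xx B L u)) ^ 2 +
        j ^ 2 * ((N : ℝ) - 2 * L - 2) * (tt B L * xx B L u) ^ 2 := by
  have e1 := I_loc hb u L
  have e2 := I_mean hb u L
  have hc : ((univ.erase u).card : ℝ) = N - 1 := by
    rw [cast_card_erase_of_mem (mem_univ u), card_univ, Fintype.card_fin]
  rw [EE_congr' _ _ (h := fun F => (∑ w ∈ F, dev B j u w) ^ 2 +
    2 * j * (N - 2 * L - 2) * ∑ w ∈ F, dev B j u w + j ^ 2 * (N - 2 * L - 2) * (N - 2 * L - 1) -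
      ∑ w ∈ F, dev B j u w ^ 2) fun F hF hF' => by
    rw [(I_row (fun k => notMem_erase u _ (hF k)) j).1,
      (I_row (fun k => notMem_erase u _ (hF k)) j).2, hF', hc]
    ring, I_sub, EE_add, EE_add, EE_mul, EE_const, ← EE_sum1 _ _ fun w => dev B j u w ^ 2] at e1
  rw [EE_congr' _ _ (h := fun F => ∑ w ∈ F, dev B j u w + j * (N - 2 * L - 1)) fun F hF hF' => by
    rw [(I_row (fun k => notMem_erase u _ (hF k)) j).1, hF', hc]
    ring, EE_add, EE_const, eq_sub_iff_add_eq', ← eq_sub_iff_add_eq] at e2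
  simp only [tt, xx, Gam, Vr, mc, ← mul_div_assoc, ← sum_div, e1, e2]
  field_simp
  ring

/-- the mean of the row `u` after deleting `u` -/
theorem mean_row (hb : Stoch B) (h0 : 0 < HS B univ L) (h1 : 0 < HS B univ (L + 1)) (u : Fin N)
    (hu : 0 < HS B (univ.erase u) L) :
    tt B L * xx B L u * ∑ w ∈ univ.erase u, B u w * mc B L u w = 1 - xx B (L + 1) u := by
  simp only [tt, xx, mc, ← mul_div_assoc, ← sum_div, EE_sum1, I_mean hb]
  field_simp

/-- the change of the marginal from one level to the next -/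
theorem shift_eq (hb : Stoch B) (u : Fin N) :
    2 * (L : ℝ) * HS B (univ.erase u) (L + 1) =
      EE B univ L (fun F => if u ∈ F then ∑ a ∈ F, ∑ c ∈ F, B a c else 0) -
        2 * HS B univ (L + 1) := by
  have e1 := stepA hb (univ.erase u) L
  have e2 := I_mean hb u L
  rw [I_erase (mem_univ u)] at e1 e2
  rw [EE_congr _ _ (h := fun F => (if u ∈ F then ∑ a ∈ F, ∑ c ∈ F, B a c else 0) -
    2 * if u ∈ F then ∑ w ∈ F.erase u, B u w else 0) fun F _ => by
      split_ifs with k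
      · rw [I_E2 hb k, sum_erase _ (hb.diag u)]
      · simp, I_sub, EE_mul, e2] at e1
  linarith only [e1]

end Pool.Agent.Work.MP_33747a_co
end
end

-- merged part: Pool.Agent.Work.MP_33747a_co.Half.K1
section
-- merged part: Pool.Agent.Work.MP_33747a_co.Half.K0
section
/-! The numerical conditions of one row of the table and elementary real inequalities. -/

set_option autoImplicit false

namespace Pool.Agent.Work.MP_33747a_co

/-- the parameters used on one interval of densities -/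
structure Row (K : Type) where
  a : K
  b : K
  x₁ : K
  x₂ : K
  θ₁ : K
  θ₂ : K
  ν₁ : K
  ν₂ : K
  w₁ : K
  w₂ : K
  m : K
  g₀ : K
  g₁ : K
  m' : K
  Λ : K
  D : K
  Dp : K
  Z : K
  g : K

section
variable {K : Type} [Field K] [LinearOrder K]

/-- value at `1` of the tangent bound -/
def L1 (m : K) : K := (4 * m - 1) * (2 * m - m ^ 2) - 2 * m ^ 2 - 1 / 10 ^ 5

/-- slope of the tangent bound -/
def Ks (m b : K) : K := (4 * m - 1) * m ^ 2 * (b + 1 / 10 ^ 5)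

/-- range of the activity -/
def RowA (p₁ p₂ σ₂ : K) (r : Row K) : Prop :=
  1 / 25 ≤ p₁ ∧ p₂ ≤ 51 / 100 ∧ 1 / 50 ≤ r.a ∧
  r.a * ((1 - p₁) ^ 2 + 1 / 10 ^ 5 + σ₂ * (r.Dp + 1 / 10 ^ 5)) ≤ p₁ ∧ r.D ≤ r.Dp ∧ 0 ≤ r.Dp ∧
  0 ≤ r.Z ∧ 0 < (1 - p₂) ^ 2 - 1 / 10 ^ 5 - r.Z ∧ p₂ ≤ r.b * ((1 - p₂) ^ 2 - 1 / 10 ^ 5 - r.Z) ∧
  r.b ≤ 29 / 10

/-- ranges of the marginals, of the resolvent and of the weights -/
def RowB (p₁ p₂ : K) (r : Row K) : Prop :=
  0 ≤ r.x₁ ∧ r.x₁ * (1 + r.b) ≤ 1 ∧ (1 + r.a) * (1 + 1 / 10 ^ 5) ≤ r.x₂ * (1 + 2 * r.a) ∧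
  r.x₂ ≤ 1 ∧ 0 ≤ r.θ₁ ∧ r.θ₁ * (1 + r.θ₁) ≤ r.a - 1 / 10 ^ 5 ∧ 0 ≤ r.θ₂ ∧ r.θ₂ ≤ 2 ∧
  r.b + 1 / 10 ^ 5 ≤ r.θ₂ * (1 + r.θ₂) ∧ r.θ₂ * r.x₂ ≤ 9 / 10 ∧ 0 ≤ r.ν₁ ∧
  r.ν₁ * (1 - r.θ₁ * r.x₁ * (r.θ₂ * r.x₂)) ≤ 1 - r.θ₂ * r.x₂ ∧ 1 - r.θ₁ * r.x₁ * r.ν₁ ≤ r.ν₂ ∧
  0 ≤ r.w₁ ∧
  r.w₁ * (1 + 1 / 10 ^ 5) ≤ r.a * (1 + r.θ₁ * (1 - p₂) - 1 / 10 ^ 5) * r.ν₁ * r.x₁ ^ 2 ∧
  r.b * (1 + r.θ₂ * (1 - p₁) + 1 / 10 ^ 5) * r.ν₂ * r.x₂ ^ 2 ≤ r.w₂ * (1 - 1 / 10 ^ 5) ∧
  r.w₂ ≤ 10

/-- the local bounds -/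
def RowC (σ₂ ρ₁ : K) (r : Row K) : Prop :=
  1 / 4 ≤ r.m ∧ r.g₀ ≤ r.w₁ * (L1 r.m - Ks r.m r.b) ∧ r.g₀ ≤ r.w₂ * (L1 r.m - Ks r.m r.b) ∧
  r.g₁ ≤ r.w₁ * L1 r.m ∧ r.g₁ ≤ r.w₂ * L1 r.m ∧ r.g₀ ≤ r.g₁ ∧
  r.D ≤ r.g₀ + (r.g₁ - r.g₀) * ρ₁ - 1 / 10 ^ 5 ∧
  (σ₂ * -r.D ≤ r.Z ∨ (1 / 4 ≤ r.m' ∧ 0 < Ks r.m' r.b ∧ 0 ≤ r.Λ ∧
    (L1 r.m' - Ks r.m' r.b) ^ 2 ≤ 4 * Ks r.m' r.b * r.Λ ∧ -10 ≤ L1 r.m' - Ks r.m' r.b ∧
    r.w₂ * r.Λ + 2 / 10 ^ 5 ≤ r.Z))

/-- the logarithmic gain -/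
def RowD (p₁ p₂ σ₂ : K) (r : Row K) : Prop :=
  (0 ≤ r.D ∧ r.g * ((1 - p₁) ^ 2 + 1 / 10 ^ 5 + σ₂ * r.D) ≤ r.D) ∨
    (r.D ≤ 0 ∧ r.g ≤ 0 ∧ r.g * ((1 - p₂) ^ 2 - 1 / 10 ^ 5 - r.Z) ≤ r.D)

end

theorem tangent_le {m T T' β y : ℝ} (hm : 1 / 4 ≤ m) (hT0 : 0 ≤ T') (hT : T' ≤ T) (h1 : β ≤ 1)
    (hy : 1 / (1 + T' * (1 - β)) ≤ y) :
    (4 * m - 1) * (2 * m - m ^ 2) - 2 * m ^ 2 - (4 * m - 1) * m ^ 2 * T * (1 - β) ≤
      y * (2 * y - 1) := by
  have hz : 0 < 1 + T' * (1 - β) := by linarith only [hT0, h1, mul_nonneg hT0 (sub_nonneg.2 h1)]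
  have h2 : 2 * m - m ^ 2 * (1 + T' * (1 - β)) ≤ 1 / (1 + T' * (1 - β)) := by
    clear * - m T' β hz
    rw [le_div_iff₀ hz]
    linarith only [sq_nonneg (1 - m * (1 + T' * (1 - β))), sq_nonneg ((1 : ℝ) - m * ((1 : ℝ) + T' * ((1 : ℝ) - β)))]
  have h3 : m ^ 2 * (T' * (1 - β)) ≤ m ^ 2 * (T * (1 - β)) :=
    mul_le_mul_of_nonneg_left (mul_le_mul_of_nonneg_right hT (sub_nonneg.2 h1)) (sq_nonneg _)
  have h4 : 2 * m - m ^ 2 - m ^ 2 * (T * (1 - β)) ≤ y := by linarith only [hy, h2, h3]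
  have h5 := mul_le_mul_of_nonneg_left h4 (show 0 ≤ 4 * m - 1 by linarith only [hm])
  clear * - m T β y h5
  linarith only [h5, sq_nonneg (y - m), sq_nonneg (y - m)]

theorem affine_le {w w₁ w₂ g₀ g₁ l₀ l₁ β : ℝ} (h1 : w₁ ≤ w) (h2 : w ≤ w₂) (a1 : g₀ ≤ w₁ * l₀)
    (a2 : g₀ ≤ w₂ * l₀) (b1 : g₁ ≤ w₁ * l₁) (b2 : g₁ ≤ w₂ * l₁) (h0 : 0 ≤ β) (hβ : β ≤ 1) :
    g₀ + (g₁ - g₀) * β ≤ w * (l₁ - (l₁ - l₀) * (1 - β)) := by
  have c0 : g₀ ≤ w * l₀ := by
    rcases le_total 0 l₀ with h | h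
    · exact a1.trans (mul_le_mul_of_nonneg_right h1 h)
    · exact a2.trans (mul_le_mul_of_nonpos_right h2 h)
  have c1 : g₁ ≤ w * l₁ := by
    rcases le_total 0 l₁ with h | h
    · exact b1.trans (mul_le_mul_of_nonneg_right h1 h)
    · exact b2.trans (mul_le_mul_of_nonpos_right h2 h)
  clear * - g₀ g₁ β w l₁ l₀ c0 hβ c1 h0
  linarith only [c0, hβ, c1, h0, mul_le_mul_of_nonneg_right c0 (sub_nonneg.2 hβ), mul_le_mul_of_nonneg_right c1 h0]

theorem abs_loss {w w₂ l₁ κ Λ β A j : ℝ} (h0 : 0 ≤ w) (h2 : w ≤ w₂) (hκ : 0 < κ) (hΛ : 0 ≤ Λ)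
    (hd : (l₁ - κ) ^ 2 ≤ 4 * κ * Λ) (hl : -10 ≤ l₁ - κ) (hβ : 0 ≤ β)
    (hA : A ^ 2 ≤ β ^ 2 + j ^ 2) :
    -(w₂ * (Λ * β + 10 * j ^ 2)) ≤ w * (A ^ 2 * (l₁ - κ * (1 - β))) := by
  have hw2 : 0 ≤ w₂ := h0.trans h2
  have hr : 0 ≤ Λ * β + 10 * j ^ 2 := by positivity
  rcases le_total 0 (l₁ - κ * (1 - β)) with h | h
  · have : 0 ≤ w * (A ^ 2 * (l₁ - κ * (1 - β))) := by positivity
    clear * - w₂ Λ β j w A l₁ κ this hw2 hr
    linarith only [this, hw2, hr, mul_nonneg hw2 hr]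
  · have e1 : 0 ≤ β * (l₁ - κ * (1 - β)) + Λ := by
      clear * - κ β l₁ Λ hd hκ
      refine le_of_mul_le_mul_left ?_ (show 0 < 4 * κ by linarith only [hκ])
      linarith only [hd, sq_nonneg (2 * κ * β + (l₁ - κ)), sq_nonneg ((2 : ℝ) * κ * β + (l₁ - κ))]
    have e2 : -10 ≤ l₁ - κ * (1 - β) := by clear * - l₁ κ β hl hκ hβ; nlinarith [mul_nonneg hκ.le hβ]
    have e3 : -(Λ * β + 10 * j ^ 2) ≤ A ^ 2 * (l₁ - κ * (1 - β)) := by
      clear * - β j l₁ κ A hA h Λ hβ e1 e2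
      have := mul_le_mul_of_nonpos_right hA h
      linarith only [this, hβ, e1, e2, mul_nonneg hβ e1, mul_le_mul_of_nonneg_left e2 (sq_nonneg j), sq_nonneg j]
    clear * - w₂ Λ β j w A l₁ κ e3 h0 h2 hr
    linarith only [e3, h0, h2, hr, mul_le_mul_of_nonneg_left e3 h0, mul_le_mul_of_nonneg_right h2 hr]

theorem Lam_mean {n j f k t ρ Δ₀ Δ₁ : ℝ} (hn : 0 < n) (hf : n = f + 2 * k) (hj : j * (n - 1) = 1)
    (h0 : t * (j * ((f + 2) * (f + 1)) + Δ₀) = 2 * k)
    (h1 : t * (j * (f * (f - 1)) + Δ₁) = 2 * (k + 1) * ρ) :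
    n * Lam (1 / n) j f t ρ ((f + 2) / n) =
      t * ((f + 2) / n * Δ₁ + (2 * k / n - j * ((f + 2) / n) * t) * Δ₀) := by
  have hu : n * (1 / n) = 1 := by field_simp
  have e1 : (f + 2) / n = (f + 2) * (1 / n) := by ring
  have e2 : 2 * k / n = 2 * k * (1 / n) := by ring
  rw [e1, e2]
  generalize 1 / n = u at *
  have a1 : 1 - (f + 2) * u + 4 * u = 2 * (k + 1) * u := by linear_combination -hu + u * hf
  have a2 : 1 + 2 * u - (1 + j * t) * ((f + 2) * u) = 2 * k * u - j * t * ((f + 2) * u) := by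
    linear_combination -hu + u * hf
  unfold Lam
  rw [a1, a2]
  have hj' : j * (f + 2 * k - 1) = 1 := by rw [← hf]; exact hj
  linear_combination
    (ρ * (f + 2) * u * 2 * (k + 1) + 4 * k ^ 2 * u - 4 * k * j * t * (f + 2) * u +
      j ^ 2 * t ^ 2 * (f + 1) * (f + 2) ^ 2 * u - t * (f + 2) * f * u) * hu -
    (f + 2) * u * h1 - (2 * k * u - j * t * (f + 2) * u) * h0 + t * (f + 2) * u * f * hj'

theorem exp_ratio {E Δ y : ℝ} (hs : 0 < E + Δ) (h : y * (E + Δ) ≤ Δ) :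
    Real.exp y * E ≤ E + Δ := by
  have h1 : E ≤ (1 - y) * (E + Δ) := by linarith
  have h2 : (1 - y) * Real.exp y ≤ 1 := by
    have := Real.add_one_le_exp (-y)
    rw [Real.exp_neg] at this
    have h3 := mul_le_mul_of_nonneg_right this (Real.exp_pos y).le
    rw [inv_mul_cancel₀ (Real.exp_pos y).ne'] at h3
    linarith
  linarith only [h1, h2, hs, mul_le_mul_of_nonneg_left h1 (Real.exp_pos y).le, mul_le_mul_of_nonneg_right h2 hs.le]

end Pool.Agent.Work.MP_33747a_co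
end

-- merged part: Pool.Agent.Work.MP_33747a_co.Half.L
section
/-! A priori bounds on the marginals, the local gain, and the level shift. -/

set_option autoImplicit false

namespace Pool.Agent.Work.MP_33747a_co

open Finset

variable {N : ℕ} {B : Matrix (Fin N) (Fin N) ℝ} {j : ℝ} {L i : ℕ}

theorem L_tt (hb : Stoch B) (L : ℕ) : 0 ≤ tt B L :=
  div_nonneg (HS_nonneg hb _ _) (HS_nonneg hb _ _)

theorem L_rec (hb : Stoch B) {S : Finset (Fin N)} {v : Fin N} (hv : v ∈ S) (k : ℕ) {c : ℝ}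
    (hc : ∑ u ∈ S.erase v, B v u ≤ c) :
    HS B S (k + 1) ≤ HS B (S.erase v) (k + 1) + c * HS B (S.erase v) k := by
  rw [HS_rec B hb.symm S hv k]
  refine add_le_add_right ((sum_le_sum fun u _ => mul_le_mul_of_nonneg_left
    (HS_erase_le hb _ u k) (hb.nonneg v u)).trans ?_) _
  rw [← sum_mul]
  exact mul_le_mul_of_nonneg_right hc (HS_nonneg hb _ _)

theorem L_row (hb : Stoch B) (u : Fin N) : ∑ w ∈ univ.erase u, B u w = 1 :=
  (sum_erase _ (hb.diag u)).trans (hb.row u)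

theorem L_sr (B : Matrix (Fin N) (Fin N) ℝ) (j : ℝ) (u : Fin N) :
    ∑ w ∈ univ.erase u, dev B j u w ^ 2 = sr B j u :=
  sum_erase _ (by simp [dev])

theorem L_lin (S : Finset (Fin N)) (k : ℕ) (g h : Finset (Fin N) → ℝ) (a b : ℝ) :
    EE B S k (fun F => (g F - a) * (h F - b)) =
      EE B S k (fun F => g F * h F) - b * EE B S k g - a * EE B S k h + a * b * HS B S k := by
  simp only [EE, HS, mul_sum, ← sum_sub_distrib, ← sum_add_distrib]
  exact sum_congr rfl fun _ _ => by ring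

theorem L_sq (S : Finset (Fin N)) (k : ℕ) (g : Finset (Fin N) → ℝ) (a : ℝ) :
    EE B S k (fun F => (g F - a) ^ 2) =
      EE B S k (fun F => g F ^ 2) - 2 * a * EE B S k g + a ^ 2 * HS B S k := by
  simp only [sq, L_lin]
  ring

theorem tt_mono (hb : Stoch B) (h1 : 0 < HS B univ (L + 1)) (h2 : 0 < HS B univ (L + 2)) :
    tt B L ≤ tt B (L + 1) := by
  rw [tt, tt, div_le_div_iff₀ h1 h2]
  linarith only [hb, logc hb univ L]

theorem xx_ge (hb : Stoch B) (h0 : 0 < HS B univ L) (h1 : 0 < HS B univ (L + 1)) (u : Fin N) :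
    1 / (1 + tt B L) ≤ xx B L u := by
  have t0 := L_tt hb L
  rw [xx, div_le_div_iff₀ (by linarith) h0, one_mul]
  cases L with
  | zero => rw [HS_zero, HS_zero]; linarith
  | succ k =>
    have k1 := L_rec hb (mem_univ u) k (L_row hb u).le
    have k2 : HS B (univ.erase u) k ≤ tt B (k + 1) * HS B (univ.erase u) (k + 1) := by
      rw [tt, div_mul_eq_mul_div, le_div_iff₀ h1, mul_comm]
      exact interB hb (mem_univ u) k
    linarith

theorem xx_le_one (hb : Stoch B) (h0 : 0 < HS B univ L) (u : Fin N) : xx B L u ≤ 1 := by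
  exact (div_le_one h0).2 (HS_erase_le hb _ u L)

theorem HSu_pos (hb : Stoch B) (h0 : 0 < HS B univ L) (h1 : 0 < HS B univ (L + 1)) (u : Fin N) :
    0 < HS B (univ.erase u) L := by
  have t0 := L_tt hb L
  exact (div_pos_iff_of_pos_right h0).1 (lt_of_lt_of_le (by positivity) (xx_ge hb h0 h1 u))

theorem mc_ge (hb : Stoch B) (h0 : 0 < HS B univ L) (h1 : 0 < HS B univ (L + 1))
    (h2 : 0 < HS B univ (L + 2)) {u w : Fin N} (hw : w ∈ univ.erase u) :
    1 / (1 + tt B (L + 1) * (1 - B u w)) ≤ mc B L u w := by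
  have hu := HSu_pos hb h0 h1 u
  have b1 : 0 ≤ 1 - B u w := by
    have := row_le hb {w} u
    rw [sum_singleton] at this
    linarith
  have t0 := mul_nonneg (L_tt hb (L + 1)) b1
  rw [mc, div_le_div_iff₀ (by linarith) hu, one_mul]
  cases L with
  | zero => rw [HS_zero, HS_zero]; linarith
  | succ k =>
    have k1 := L_rec hb hw k (c := 1 - B u w) (by
      have := row_le hb (insert u ((univ.erase u).erase w)) w
      rw [sum_insert (by simp), hb.symm w u] at this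
      linarith)
    have k2 : HS B ((univ.erase u).erase w) k ≤
        tt B (k + 1 + 1) * HS B ((univ.erase u).erase w) (k + 1) := by
      rw [tt, div_mul_eq_mul_div, le_div_iff₀ h2]
      refine le_of_mul_le_mul_left ?_ hu
      linarith only [hb, hw, h1, mul_le_mul_of_nonneg_left (interB hb hw k) h1.le, mul_le_mul_of_nonneg_left
        (interB hb (mem_univ u) (k + 1)) (HS_nonneg hb ((univ.erase u).erase w) k)]
    linarith only [k1, k2, b1, mul_le_mul_of_nonneg_left k2 b1]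

theorem mc_le_one (hb : Stoch B) (u w : Fin N) : 0 ≤ mc B L u w ∧ mc B L u w ≤ 1 := by
  exact ⟨div_nonneg (HS_nonneg hb _ _) (HS_nonneg hb _ _),
    div_le_one_of_le₀ (HS_erase_le hb _ w L) (HS_nonneg hb _ _)⟩

theorem xx_up (hb : Stoch B) (h0 : 0 < HS B univ L) (h1 : 0 < HS B univ (L + 1))
    (h2 : 0 < HS B univ (L + 2)) (u : Fin N) :
    xx B L u * (tt B L / tt B (L + 1) * (1 + 2 * tt B L)) ≤ 1 + tt B L := by
  have hu := HSu_pos hb h0 h1 u
  have t0 : 0 < tt B L := div_pos h0 h1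
  have t1 := tt_mono hb h1 h2
  have x0 : 0 < xx B L u := div_pos hu h0
  have k1 : xx B L u * (tt B L / tt B (L + 1)) ≤ xx B (L + 1) u := by
    rw [xx, xx, tt, tt, le_div_iff₀ h1]
    refine le_of_mul_le_mul_left (le_of_eq_of_le ?_ (interB hb (mem_univ u) L)) h1
    field_simp
  have k2 : 1 / (1 + tt B (L + 1)) ≤ ∑ w ∈ univ.erase u, B u w * mc B L u w := by
    rw [← one_mul (1 / _), ← L_row hb u, sum_mul]
    refine sum_le_sum fun w hw => mul_le_mul_of_nonneg_left (le_trans ?_ (mc_ge hb h0 h1 h2 hw))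
      (hb.nonneg u w)
    have b1 := row_le hb {w} u
    rw [sum_singleton] at b1
    rw [L_row hb u]
    exact one_div_le_one_div_of_le (by linarith only [t0, b1, t1, mul_nonneg_of_nonpos_of_nonpos (le_of_lt (Mathlib.Tactic.Linarith.sub_neg_of_lt t0)) (Mathlib.Tactic.Linarith.sub_nonpos_of_le b1), mul_nonneg_of_nonpos_of_nonpos (Mathlib.Tactic.Linarith.sub_nonpos_of_le t1) (Mathlib.Tactic.Linarith.sub_nonpos_of_le b1)]) (by linarith only [t0, hb, t1, hb.nonneg u w, mul_nonneg_of_nonpos_of_nonpos (le_of_lt (Mathlib.Tactic.Linarith.sub_neg_of_lt t0)) (Mathlib.Tactic.Linarith.sub_nonpos_of_le (hb.nonneg u w)), mul_nonneg_of_nonpos_of_nonpos (Mathlib.Tactic.Linarith.sub_nonpos_of_le t1) (Mathlib.Tactic.Linarith.sub_nonpos_of_le (hb.nonneg u w))])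
  have k3 := mean_row hb h0 h1 u hu
  have k4 := mul_le_mul_of_nonneg_left k2 (mul_pos t0 x0).le
  have k5 : tt B L / tt B (L + 1) ≤ 1 / (1 + tt B (L + 1)) * (1 + tt B L) := by
    clear * - N B L t0 t1
    rw [div_mul_eq_mul_div, div_le_div_iff₀ (by linarith) (by linarith)]
    nlinarith
  linarith only [k5, t0, x0, k1, k3, k4, mul_le_mul_of_nonneg_left k5 (mul_pos t0 x0).le, mul_le_mul_of_nonneg_left
    (show xx B L u * (tt B L / tt B (L + 1)) + tt B L * xx B L u * (1 / (1 + tt B (L + 1))) ≤ 1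
      by linarith) (by linarith : 0 ≤ 1 + tt B L)]

theorem Vr_nonneg (hb : Stoch B) (u : Fin N) : 0 ≤ Vr B j L u := by
  have := EE_cs hb (univ.erase u) L (fun F => ∑ w ∈ F, dev B j u w) fun _ => 1
  simp only [mul_one, one_pow, EE_const, one_mul] at this
  exact div_nonneg (by linarith) (sq_nonneg _)

theorem Vr_le (hb : Stoch B) (u : Fin N) : Vr B j (i + 1) u ≤ 5 / 2 * sr B j u := by
  have := var_crude hb (univ.erase u) i (dev B j u)
  rw [L_sr] at this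
  exact div_le_of_le_mul₀ (sq_nonneg _) (mul_nonneg (by norm_num)
    (sum_nonneg fun _ _ => sq_nonneg _)) (by linarith only [this])

theorem Gam_le (hb : Stoch B) (u : Fin N) : Gam B j L u ≤ sr B j u := by
  rw [Gam, ← L_sr]
  exact (sub_le_self _ (Vr_nonneg hb u)).trans (sum_le_sum fun w _ =>
    mul_le_of_le_one_right (sq_nonneg _) (mc_le_one hb u w).2)

theorem Gam_ge (hb : Stoch B) (h0 : 0 < HS B univ i) (h1 : 0 < HS B univ (i + 1))
    (h2 : 0 < HS B univ (i + 2)) (h3 : 0 < HS B univ (i + 3)) (u : Fin N) :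
    ∑ w ∈ univ.erase u, dev B j u w ^ 2 * (mc B (i + 1) u w * (2 * mc B (i + 1) u w - 1) -
      2 * (1 - tt B i / tt B (i + 2))) ≤ Gam B j (i + 1) u := by
  have hu := HSu_pos hb h1 h2 u
  have k1 : tt B i / tt B (i + 2) * HS B (univ.erase u) (i + 1) ^ 2 ≤
      HS B (univ.erase u) (i + 2) * HS B (univ.erase u) i := by
    have := mul_le_mul (interA hb (mem_univ u) i) (interB hb (mem_univ u) (i + 1))
      (mul_pos h3 hu).le (mul_nonneg (HS_nonneg hb _ _) h1.le)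
    rw [tt, tt, div_div_div_eq, div_mul_eq_mul_div, div_le_iff₀ (mul_pos h1 h2)]
    linarith
  have k2 := var_bound hb (univ.erase u) i (dev B j u)
  have k3 := mul_le_mul_of_nonneg_right k1
    (sum_nonneg fun w (_ : w ∈ univ.erase u) => sq_nonneg (dev B j u w))
  rw [Gam, le_sub_comm, Vr, div_le_iff₀ (pow_pos hu 2), ← sum_sub_distrib, sum_mul,
    sum_congr rfl (g := fun w => 2 * (dev B j u w ^ 2 * (HS B ((univ.erase u).erase w) (i + 1) *
      (HS B (univ.erase u) (i + 1) - HS B ((univ.erase u).erase w) (i + 1)))) +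
      2 * (1 - tt B i / tt B (i + 2)) * HS B (univ.erase u) (i + 1) ^ 2 * dev B j u w ^ 2)
      fun w _ => by rw [mc]; field_simp; ring, sum_add_distrib, ← mul_sum, ← mul_sum]
  linarith only [k2, k3]

theorem L_cov (hb : Stoch B) (h1 : 0 < HS B univ (i + 1)) (E : Finset (Fin N) → ℝ) (c : ℝ)
    (C : Fin N → ℝ) (hC : ∀ u, HS B univ (i + 1) ^ 2 * C u = HS B univ (i + 1) *
      EE B univ (i + 1) (fun F => if u ∈ F then E F else 0) -
        EE B univ (i + 1) E * HS B (univ.erase u) (i + 1)) :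
    HS B univ (i + 1) * ∑ u, C u ^ 2 ≤ 5 / 2 * EE B univ (i + 1) fun F => (E F - c) ^ 2 := by
  have e1 := EE_sum1 (B := B) univ (i + 1) C
  have e2 : EE B univ (i + 1) (fun F => (∑ u ∈ F, C u) * E F) =
      ∑ u, C u * EE B univ (i + 1) (fun F => if u ∈ F then E F else 0) := by
    simp only [EE, mul_sum]
    rw [sum_comm]
    refine sum_congr rfl fun M _ => ?_
    simp only [mul_ite, mul_zero, sum_ite_mem, univ_inter, sum_mul, mul_sum]
    exact sum_congr rfl fun _ _ => by ring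
  have e3 : HS B univ (i + 1) ^ 2 * ∑ u, C u ^ 2 = HS B univ (i + 1) * EE B univ (i + 1)
      (fun F => (∑ u ∈ F, C u) * E F) - EE B univ (i + 1) E * EE B univ (i + 1)
        fun F => ∑ u ∈ F, C u := by
    rw [e2, ← e1, mul_sum, mul_sum, mul_sum, ← sum_sub_distrib]
    exact sum_congr rfl fun u _ => by linear_combination C u * hC u
  have k1 := EE_cs hb univ (i + 1) (fun F => ∑ u ∈ F, C u -
    (EE B univ (i + 1) fun F => ∑ u ∈ F, C u) / HS B univ (i + 1)) fun F => E F - c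
  have k2 := var_crude hb univ i C
  have k3 : 0 ≤ EE B univ (i + 1) fun F => (E F - c) ^ 2 :=
    sum_nonneg fun _ _ => mul_nonneg (prod_nonneg fun _ _ => hb.nonneg _ _) (sq_nonneg _)
  rw [L_lin, L_sq] at k1
  generalize EE B univ (i + 1) (fun F => (E F - c) ^ 2) = Z at *
  generalize EE B univ (i + 1) (fun F => ∑ u ∈ F, C u) = G at *
  generalize EE B univ (i + 1) (fun F => (∑ u ∈ F, C u) ^ 2) = G2 at *
  generalize EE B univ (i + 1) (fun F => (∑ u ∈ F, C u) * E F) = GE at *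
  generalize EE B univ (i + 1) E = E1 at *
  generalize HS B univ (i + 1) = H at *
  have s0 : 0 ≤ ∑ u, C u ^ 2 := sum_nonneg fun _ _ => sq_nonneg _
  generalize ∑ u, C u ^ 2 = Y at *
  have a1 : GE - c * G - G / H * E1 + G / H * c * H = H * Y := by
    field_simp
    linarith only [e3]
  have a2 : G2 - 2 * (G / H) * G + (G / H) ^ 2 * H ≤ 5 / 2 * (H * Y) := by
    refine le_of_mul_le_mul_left (le_of_eq_of_le ?_ (k2.trans_eq (by ring))) h1
    field_simp
    ring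
  rw [a1] at k1
  rcases (mul_nonneg h1.le s0).eq_or_lt with h | h
  · linarith only [k3, h]
  · exact le_of_mul_le_mul_left (by clear * - H Y Z G2 G k1 a2 k3 h; linarith only [k1, a2, k3, mul_le_mul_of_nonneg_right a2 k3]) h

theorem L_mom {u : Fin N} (hu : 0 < HS B (univ.erase u) L) (j c : ℝ) :
    EE B (univ.erase u) L (fun F => (∑ w ∈ F, B u w - c) ^ 2) = HS B (univ.erase u) L *
      ((∑ w ∈ univ.erase u, B u w * mc B L u w - c) ^ 2 + Vr B j L u) := by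
  have e (F : Finset (Fin N)) (h1 : F ⊆ univ.erase u)
      (h2 : (F.card : ℝ) = (univ.erase u).card - 2 * L) : ∑ w ∈ F, B u w =
        ∑ w ∈ F, dev B j u w + ((univ.erase u).card - 2 * L) * j := by
    rw [← h2, ← nsmul_eq_mul, ← sum_const, ← sum_add_distrib]
    exact sum_congr rfl fun w hw => by simp [dev, (mem_erase.1 (h1 hw)).1.symm]
  have e1 : ∑ w ∈ univ.erase u, B u w * mc B L u w = EE B (univ.erase u) L
      (fun F => ∑ w ∈ F, dev B j u w) / HS B (univ.erase u) L +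
        ((univ.erase u).card - 2 * L) * j := by
    simp only [mc, ← mul_div_assoc]
    rw [← sum_div, EE_sum1, EE_congr' _ _ e, EE_add, EE_const, add_div, mul_div_cancel_right₀ _ hu.ne']
  rw [e1, EE_congr' _ _ (h := fun F => (∑ w ∈ F, dev B j u w -
    (c - ((univ.erase u).card - 2 * L) * j)) ^ 2) fun F h1 h2 => by rw [e F h1 h2]; ring, L_sq, Vr]
  field_simp
  ring

theorem L_two (hb : Stoch B) (c : ℝ) :
    EE B univ L (fun F => (∑ a ∈ F, ∑ v ∈ F, B a v - ((N : ℝ) - 2 * L) * c) ^ 2) ≤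
      N * ∑ u, EE B (univ.erase u) L fun F => (∑ w ∈ F, B u w - c) ^ 2 := by
  rw [EE_sum, ← EE_mul]
  refine EE_mono' hb _ _ fun F _ h => ?_
  rw [card_univ, Fintype.card_fin] at h
  rw [← h, ← nsmul_eq_mul, ← sum_const, ← sum_sub_distrib,
    sum_congr rfl (s₁ := F) (f := fun u => (∑ w ∈ F.erase u, B u w - c) ^ 2) fun u _ => by
      rw [sum_erase _ (hb.diag u)]]
  exact sq_sum_le_card_mul_sum_sq.trans (mul_le_mul_of_nonneg_right
    (by exact_mod_cast card_finset_fin_le F) (sum_nonneg fun _ _ => sq_nonneg _))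

theorem L_pt {t x m V s η d r : ℝ} (t0 : 0 < t) (t4 : t ≤ 4) (x1 : x ≤ 1) (hx : 1 / (1 + t) ≤ x)
    (V0 : 0 ≤ V) (hV : V ≤ 5 / 2 * s) (r0 : 0 ≤ r) (r3 : r ≤ 3) (e : t * x * m = -η * r - d) :
    t ^ 2 * (x * (m ^ 2 + V)) ≤ 90 * η ^ 2 + 10 * d ^ 2 + 40 * s := by
  rw [div_le_iff₀ (by linarith only [t0])] at hx
  have x0 : 0 < x := by (refine lt_of_not_ge fun h_nl => ?_; linarith only [h_nl, hx, t0, mul_nonneg_of_nonpos_of_nonpos (le_of_lt (Mathlib.Tactic.Linarith.sub_neg_of_lt t0)) (Mathlib.Tactic.Linarith.sub_nonpos_of_le h_nl)])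
  have k1 : t ^ 2 * (x * V) ≤ 16 * V :=
    mul_le_mul (by linarith only [t4, t0, mul_nonneg_of_nonpos_of_nonpos (le_of_lt (Mathlib.Tactic.Linarith.sub_neg_of_lt t0)) (Mathlib.Tactic.Linarith.sub_nonpos_of_le t4)]) (mul_le_of_le_one_left V0 x1) (by positivity) (by norm_num)
  have k2 : (t * x * m) ^ 2 ≤ 18 * η ^ 2 + 2 * d ^ 2 := by
    clear * - t x m η d r e r3 r0
    rw [e]
    linarith only [r3, r0, sq_nonneg (η * r - d), mul_le_mul_of_nonneg_left
      (show r ^ 2 ≤ 9 by nlinarith) (sq_nonneg η), sq_nonneg (η * r - d), mul_nonneg_of_nonpos_of_nonpos (Mathlib.Tactic.Linarith.sub_nonpos_of_le r0) (Mathlib.Tactic.Linarith.sub_nonpos_of_le r3), sq_nonneg η]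
  have k3 : t ^ 2 * (x * m ^ 2) * 1 ≤ t ^ 2 * (x * m ^ 2) * (5 * x) :=
    mul_le_mul_of_nonneg_left (by clear * - x t t4 hx t0; nlinarith) (by positivity)
  clear * - t x m V η d s hV k1 k2 k3
  linarith only [hV, k1, k2, k3]

/-- the marginals move almost uniformly from one level to the next -/
theorem shift_bound (hb : Stoch B) (h1 : 0 < HS B univ (i + 1)) (h2 : 0 < HS B univ (i + 2))
    (ht : tt B (i + 1) ≤ 4) (hi : 3 * i + 4 ≤ N) :
    (4 * ((i : ℝ) + 1) ^ 2 - 50 * N) * ∑ u, (xx B (i + 2) u - xx B (i + 1) u + 2 / N) ^ 2 ≤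
      500 * N * (∑ u, (xx B (i + 1) u - ((N : ℝ) - 2 * (i + 1)) / N) ^ 2 + ss B j) := by
  have t0 : 0 < tt B (i + 1) := div_pos h1 h2
  have n1 : (3 : ℝ) * i + 4 ≤ N := by exact_mod_cast hi
  have i0 : (0 : ℝ) ≤ i := Nat.cast_nonneg i
  have n0 : (0 : ℝ) < N := by linarith only [n1]
  have f0 : (0 : ℝ) < N - 2 * (i + 1) := by linarith only [n1]
  set d : Fin N → ℝ := fun u => xx B (i + 2) u - xx B (i + 1) u + 2 / N with hd
  set η : Fin N → ℝ := fun u => xx B (i + 1) u - ((N : ℝ) - 2 * (i + 1)) / N with hη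
  set c : ℝ := (2 * i + 4) / (tt B (i + 1) * (N - 2 * (i + 1))) with hc
  have k1 := L_cov hb h1 (fun F => ∑ a ∈ F, ∑ v ∈ F, B a v) (((N : ℝ) - 2 * (i + 1 : ℕ)) * c)
    (fun u => (2 * (i + 1) * d u - 2 * η u) / tt B (i + 1)) fun u => by
      have e := shift_eq (L := i + 1) hb u
      rw [eq_sub_iff_add_eq] at e
      rw [← e, ← stepA hb]
      simp only [hd, hη, xx, tt]
      push_cast
      field_simp
      ring
  have k2 := L_two (L := i + 1) hb c
  have k3 (u : Fin N) : tt B (i + 1) ^ 2 * (EE B (univ.erase u) (i + 1)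
      fun F => (∑ w ∈ F, B u w - c) ^ 2) ≤
        HS B univ (i + 1) * (90 * η u ^ 2 + 10 * d u ^ 2 + 40 * sr B j u) := by
    have hu := HSu_pos hb h1 h2 u
    have := L_pt (m := ∑ w ∈ univ.erase u, B u w * mc B (i + 1) u w - c) (η := η u) (d := d u)
      (r := (N + 2) / (N - 2 * (i + 1))) t0 ht (xx_le_one hb h1 u) (xx_ge hb h1 h2 u)
      (Vr_nonneg (j := j) hb u) (Vr_le (i := i) hb u) (by clear * - N i n0 f0 hb j u; positivity) ((div_le_iff₀ f0).2 (by linarith only [n1]))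
      (by
        rw [mul_sub, mean_row hb h1 h2 u hu]
        simp only [hd, hη, hc]
        field_simp
        ring)
    rw [L_mom hu j]
    refine le_of_eq_of_le ?_ (mul_le_mul_of_nonneg_left this h1.le)
    rw [xx]
    field_simp
  have k4 := sum_le_sum fun u (_ : u ∈ univ) => k3 u
  have k5 : 4 * ((i : ℝ) + 1) ^ 2 * ∑ u, d u ^ 2 ≤ 2 * tt B (i + 1) ^ 2 *
      ∑ u, ((2 * (i + 1) * d u - 2 * η u) / tt B (i + 1)) ^ 2 + 8 * ∑ u, η u ^ 2 := by
    clear * - i N d B η t0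
    rw [mul_sum, mul_sum, mul_sum, ← sum_add_distrib]
    refine sum_le_sum fun u _ => ?_
    rw [div_pow, mul_assoc 2, mul_div_cancel₀ _ (by positivity)]
    linarith only [sq_nonneg (2 * (i + 1) * d u - 4 * η u)]
  rw [← mul_sum, ← mul_sum, sum_add_distrib, sum_add_distrib, ← mul_sum, ← mul_sum, ← mul_sum]
    at k4
  have s0 : 0 ≤ ss B j := sum_nonneg fun _ _ => sum_nonneg fun _ _ => sq_nonneg _
  have s1 : 0 ≤ ∑ u, η u ^ 2 := sum_nonneg fun _ _ => sq_nonneg _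
  have k6 : tt B (i + 1) ^ 2 * ∑ u, ((2 * (i + 1) * d u - 2 * η u) / tt B (i + 1)) ^ 2 ≤
      5 / 2 * N * (90 * ∑ u, η u ^ 2 + 10 * ∑ u, d u ^ 2 + 40 * ss B j) := by
    clear * - N B i d η j c k1 k2 k4 n0 h1
    refine le_of_mul_le_mul_left ?_ h1
    rw [ss]
    linarith only [mul_le_mul_of_nonneg_left (k1.trans (mul_le_mul_of_nonneg_left k2 (by norm_num)))
      (sq_nonneg (tt B (i + 1))), mul_le_mul_of_nonneg_left k4 n0.le]
  linarith only [mul_nonneg n0.le s0, k5, k6,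
    mul_nonneg (show (0 : ℝ) ≤ N - 1 by linarith only [n1, i0]) s1, s1]

end Pool.Agent.Work.MP_33747a_co
end

-- merged part: Pool.Agent.Work.MP_33747a_co.Half.K1
section
/-! Preparations for the level lemma. -/

set_option autoImplicit false

namespace Pool.Agent.Work.MP_33747a_co

open Finset

variable {N : ℕ} {B : Matrix (Fin N) (Fin N) ℝ} {j : ℝ} {L i : ℕ}

theorem j_small (hj : j * ((N : ℝ) - 1) = 1) (hN : (10 : ℝ) ^ 50 ≤ N) :
    0 < j ∧ 1 ≤ j * N ∧ j * N ≤ 2 ∧ j ≤ 1 / 10 ^ 45 := by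
  have h0 : 0 < j := by
    by_contra h
    push Not at h
    linarith only [hj, h, hN, mul_nonneg_of_nonpos_of_nonpos (Mathlib.Tactic.Linarith.sub_nonpos_of_le (Mathlib.Tactic.Linarith.natCast_nonneg ℝ N)) (Mathlib.Tactic.Linarith.sub_nonpos_of_le h), mul_nonneg_of_nonpos_of_nonpos (Mathlib.Tactic.Linarith.sub_nonpos_of_le hN) (Mathlib.Tactic.Linarith.sub_nonpos_of_le h)]
  have h1 : j ≤ 1 / 10 ^ 45 := by
    by_contra h
    push Not at h
    linarith only [hj, hN, h, h0, mul_nonneg_of_nonpos_of_nonpos (Mathlib.Tactic.Linarith.sub_nonpos_of_le (Mathlib.Tactic.Linarith.natCast_nonneg ℝ N)) (le_of_lt (Mathlib.Tactic.Linarith.sub_neg_of_lt h)), mul_nonneg_of_nonpos_of_nonpos (Mathlib.Tactic.Linarith.sub_nonpos_of_le hN) (le_of_lt (Mathlib.Tactic.Linarith.sub_neg_of_lt h0))]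
  exact ⟨h0, by linarith, by linarith only [hj, h0, h1], h1⟩

theorem B_le_one (hb : Stoch B) (u w : Fin N) : B u w ≤ 1 := by
  simpa using row_le hb {w} u

theorem dev_sq_le (hb : Stoch B) (hj0 : 0 ≤ j) (u w : Fin N) :
    dev B j u w ^ 2 ≤ B u w ^ 2 + j ^ 2 := by
  unfold dev
  split_ifs
  · linarith only [sq_nonneg (B u w), sq_nonneg j, sq_nonneg j, sq_nonneg (B u w)]
  · nlinarith [mul_nonneg hj0 (hb.nonneg u w)]

theorem sr_nonneg (u : Fin N) : 0 ≤ sr B j u := sum_nonneg fun _ _ => sq_nonneg _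

theorem ss_nonneg : 0 ≤ ss B j := sum_nonneg fun u _ => sr_nonneg u

theorem sr_le_one (hb : Stoch B) (hj : j * ((N : ℝ) - 1) = 1) (hj0 : 0 ≤ j) (u : Fin N) :
    sr B j u ≤ 1 := by
  have h1 := dev_row (j := j) hb (by simpa using hj) u
  have h2 : ∑ v, dev B j u v ^ 2 ≤ ∑ v, (B u v - j * dev B j u v) := by
    refine sum_le_sum fun v _ => ?_
    unfold dev
    split_ifs
    · simpa using hb.nonneg u v
    · linarith only [hj0, hb, mul_nonneg hj0 (hb.nonneg u v), mul_nonneg (hb.nonneg u v) (sub_nonneg.2 (B_le_one hb u v))]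
  rw [sum_sub_distrib, ← mul_sum, h1, hb.row] at h2
  unfold sr
  linarith

theorem tt_pos (h0 : 0 < HS B univ L) (h1 : 0 < HS B univ (L + 1)) : 0 < tt B L := div_pos h0 h1

theorem rho_ge (hb : Stoch B) (h0 : 0 < HS B univ L) (h1 : 0 < HS B univ (L + 1))
    (hN : (10 : ℝ) ^ 50 ≤ N) (hL : (N : ℝ) ≤ 60 * L) (ht : tt B L ≤ 3) :
    1 - 1 / 10 ^ 40 ≤ tt B L * (HS B univ (L + 2) / HS B univ (L + 1)) := by
  have h := ident2_crude hb h0 h1
  have ht0 := tt_pos h0 h1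
  have hr : 0 ≤ tt B L * (HS B univ (L + 2) / HS B univ (L + 1)) :=
    mul_nonneg ht0.le (div_nonneg (HS_nonneg hb _ _) h1.le)
  generalize tt B L * (HS B univ (L + 2) / HS B univ (L + 1)) = ρ at *
  generalize tt B L = t at *
  by_contra hc
  push Not at hc
  have hL0 : (10 : ℝ) ^ 48 ≤ L := by linarith only [hN, hL]
  have e1 : ((L : ℝ) - 1) * (L + 2) * ρ ≤ ((L : ℝ) + 1) ^ 2 * ρ :=
    mul_le_mul_of_nonneg_right (by clear * - L N hN hL hr; linarith only [hN, hL]) hr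
  have e2 : ((L : ℝ) + 1) ^ 2 * ρ ≤ ((L : ℝ) + 1) ^ 2 * (1 - 1 / 10 ^ 40) :=
    mul_le_mul_of_nonneg_left hc.le (sq_nonneg _)
  have e3 : t * ((N : ℝ) - L - 1) ≤ 3 * (60 * L) := by
    clear * - N L t ρ hN ht0 h e1 e2 hL ht
    rcases le_total 0 ((N : ℝ) - L - 1) with h2 | h2
    · linarith only [hN, ht0, h, e1, e2, hL, ht, mul_nonneg_of_nonpos_of_nonpos (Mathlib.Tactic.Linarith.sub_nonpos_of_le (Mathlib.Tactic.Linarith.natCast_nonneg ℝ N)) (Mathlib.Tactic.Linarith.sub_nonpos_of_le hN), mul_nonneg_of_nonpos_of_nonpos (Mathlib.Tactic.Linarith.sub_nonpos_of_le (Mathlib.Tactic.Linarith.natCast_nonneg ℝ N)) (Mathlib.Tactic.Linarith.sub_nonpos_of_le hL), mul_nonneg_of_nonpos_of_nonpos (Mathlib.Tactic.Linarith.sub_nonpos_of_le (Mathlib.Tactic.Linarith.natCast_nonneg ℝ N)) (Mathlib.Tactic.Linarith.sub_nonpos_of_le ht), mul_nonneg_of_nonpos_of_nonpos (Mathlib.Tactic.Linarith.sub_nonpos_of_le (Mathlib.Tactic.Linarith.natCast_nonneg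 ℝ L)) (Mathlib.Tactic.Linarith.sub_nonpos_of_le hL), mul_nonneg_of_nonpos_of_nonpos (Mathlib.Tactic.Linarith.sub_nonpos_of_le (Mathlib.Tactic.Linarith.natCast_nonneg ℝ L)) (le_of_lt (Mathlib.Tactic.Linarith.sub_neg_of_lt ht0))]
    · linarith only [hN, ht0, h, e1, e2, ht, h2, hL, mul_nonneg_of_nonpos_of_nonpos (Mathlib.Tactic.Linarith.sub_nonpos_of_le (Mathlib.Tactic.Linarith.natCast_nonneg ℝ N)) (Mathlib.Tactic.Linarith.sub_nonpos_of_le hN), mul_nonneg_of_nonpos_of_nonpos (Mathlib.Tactic.Linarith.sub_nonpos_of_le (Mathlib.Tactic.Linarith.natCast_nonneg ℝ N)) (Mathlib.Tactic.Linarith.sub_nonpos_of_le ht), mul_nonneg_of_nonpos_of_nonpos (Mathlib.Tactic.Linarith.sub_nonpos_of_le (Mathlib.Tactic.Linarith.natCast_nonneg ℝ N)) (Mathlib.Tactic.Linarith.sub_nonpos_of_le h2), mul_nonneg_of_nonpos_of_nonpos (Mathlib.Tactic.Linarith.sub_nonpos_of_le (Mathlib.Tactic.Linarith.natCast_nonneg ℝ L)) (Mathlib.Tactic.Linarith.sub_nonpos_of_le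 hL), mul_nonneg_of_nonpos_of_nonpos (Mathlib.Tactic.Linarith.sub_nonpos_of_le (Mathlib.Tactic.Linarith.natCast_nonneg ℝ L)) (le_of_lt (Mathlib.Tactic.Linarith.sub_neg_of_lt ht0))]
  clear * - N L t ρ hN h e1 e2 e3 hL
  linarith only [hN, h, e1, e2, e3, hL, mul_nonneg_of_nonpos_of_nonpos (Mathlib.Tactic.Linarith.sub_nonpos_of_le (sq_nonneg ((1 : ℝ) * ↑L + (1 : ℝ) * (1 : ℝ)))) (Mathlib.Tactic.Linarith.sub_nonpos_of_le hN), mul_nonneg_of_nonpos_of_nonpos (Mathlib.Tactic.Linarith.sub_nonpos_of_le (Mathlib.Tactic.Linarith.natCast_nonneg ℝ N)) (Mathlib.Tactic.Linarith.sub_nonpos_of_le hN), mul_nonneg_of_nonpos_of_nonpos (Mathlib.Tactic.Linarith.sub_nonpos_of_le (Mathlib.Tactic.Linarith.natCast_nonneg ℝ N)) (Mathlib.Tactic.Linarith.sub_nonpos_of_le hL), mul_nonneg_of_nonpos_of_nonpos (Mathlib.Tactic.Linarith.sub_nonpos_of_le (Mathlib.Tactic.Linarith.natCast_nonneg ℝ N)) (Mathlib.Tactic.Linarith.sub_nonpos_of_le h),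 mul_nonneg_of_nonpos_of_nonpos (Mathlib.Tactic.Linarith.sub_nonpos_of_le (Mathlib.Tactic.Linarith.natCast_nonneg ℝ N)) (Mathlib.Tactic.Linarith.sub_nonpos_of_le e1), mul_nonneg_of_nonpos_of_nonpos (Mathlib.Tactic.Linarith.sub_nonpos_of_le (Mathlib.Tactic.Linarith.natCast_nonneg ℝ N)) (Mathlib.Tactic.Linarith.sub_nonpos_of_le e2), mul_nonneg_of_nonpos_of_nonpos (Mathlib.Tactic.Linarith.sub_nonpos_of_le (Mathlib.Tactic.Linarith.natCast_nonneg ℝ N)) (Mathlib.Tactic.Linarith.sub_nonpos_of_le e3), mul_nonneg_of_nonpos_of_nonpos (Mathlib.Tactic.Linarith.sub_nonpos_of_le (Mathlib.Tactic.Linarith.natCast_nonneg ℝ L)) (Mathlib.Tactic.Linarith.sub_nonpos_of_le hL)]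

theorem E_bounds {n j f p₁ p₂ k : ℝ} (hn : (10 : ℝ) ^ 50 ≤ n) (hj : j * (n - 1) = 1)
    (hf : n = f + 2 * k) (h1 : p₁ * n ≤ 2 * k) (h2 : 2 * k ≤ p₂ * n) (hp1 : 0 ≤ p₁)
    (hp2 : p₂ ≤ 51 / 100) :
    n * ((1 - p₂) ^ 2 - 1 / 10 ^ 5) ≤ j * (f * (f - 1)) ∧
      j * (f * (f - 1)) ≤ j * ((f + 2) * (f + 1)) ∧
      j * ((f + 2) * (f + 1)) ≤ n * ((1 - p₁) ^ 2 + 1 / 10 ^ 5) := by
  have hn1 : 0 < n - 1 := by linarith only [hn]
  have hj0 : 0 < j := by
    by_contra h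
    push Not at h
    linarith only [hj, h, hn, mul_nonneg_of_nonpos_of_nonpos (Mathlib.Tactic.Linarith.sub_nonpos_of_le hn) (Mathlib.Tactic.Linarith.sub_nonpos_of_le h)]
  have a1 : (1 - p₂) * n ≤ f := by linarith
  have a2 : f ≤ (1 - p₁) * n := by linarith
  have a3 : 0 ≤ (1 - p₂) * n := mul_nonneg (by linarith only [hp2]) (by linarith)
  have a4 : f ≤ n := by linarith only [hf, h1, hp1, hn, mul_nonneg_of_nonpos_of_nonpos (Mathlib.Tactic.Linarith.sub_nonpos_of_le hn) (Mathlib.Tactic.Linarith.sub_nonpos_of_le hp1)]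
  have b1 : ((1 - p₂) * n) ^ 2 ≤ f ^ 2 := pow_le_pow_left₀ a3 a1 2
  have b2 : f ^ 2 ≤ ((1 - p₁) * n) ^ 2 := pow_le_pow_left₀ (by linarith only [hf, h2, a3]) a2 2
  have hp : p₁ ≤ 1 := by clear * - p₁ n k p₂ h1 h2 hp2 hn hp1; (refine le_of_not_gt fun h_nl => ?_; linarith only [h_nl, h1, h2, hp2, hn, hp1, mul_nonneg_of_nonpos_of_nonpos (Mathlib.Tactic.Linarith.sub_nonpos_of_le hn) (Mathlib.Tactic.Linarith.sub_nonpos_of_le hp1), mul_nonneg_of_nonpos_of_nonpos (Mathlib.Tactic.Linarith.sub_nonpos_of_le hn) (Mathlib.Tactic.Linarith.sub_nonpos_of_le hp2), mul_nonneg_of_nonpos_of_nonpos (Mathlib.Tactic.Linarith.sub_nonpos_of_le hn) (le_of_lt (Mathlib.Tactic.Linarith.sub_neg_of_lt h_nl))])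
  refine ⟨?_, mul_le_mul_of_nonneg_left (by linarith only [hf, h2, a3]) hj0.le, ?_⟩
  · refine le_of_mul_le_mul_left ?_ hn1
    rw [show (n - 1) * (j * (f * (f - 1))) = j * (n - 1) * (f * (f - 1)) by ring, hj]
    clear * - n p₂ f hn a4 b1
    linarith only [hn, a4, b1, sq_nonneg (1 - p₂), sq_nonneg ((1 : ℝ) - p₂), mul_nonneg_of_nonpos_of_nonpos (Mathlib.Tactic.Linarith.sub_nonpos_of_le (sq_nonneg ((1 : ℝ) - p₂))) (Mathlib.Tactic.Linarith.sub_nonpos_of_le hn), mul_nonneg_of_nonpos_of_nonpos (Mathlib.Tactic.Linarith.sub_nonpos_of_le hn) (Mathlib.Tactic.Linarith.sub_nonpos_of_le hn)]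
  · refine le_of_mul_le_mul_left ?_ hn1
    rw [show (n - 1) * (j * ((f + 2) * (f + 1))) = j * (n - 1) * ((f + 2) * (f + 1)) by ring, hj]
    have : n * (1 - p₁) ^ 2 ≤ n * 1 := mul_le_mul_of_nonneg_left (by clear * - p₁ n k p₂ hp1 hn h1 h2 a3; (refine le_of_not_gt fun h_nl => ?_; linarith only [h_nl, hp1, hn, h1, h2, a3, mul_nonneg_of_nonpos_of_nonpos (Mathlib.Tactic.Linarith.sub_nonpos_of_le hn) (Mathlib.Tactic.Linarith.sub_nonpos_of_le hp1), mul_nonneg_of_nonpos_of_nonpos (Mathlib.Tactic.Linarith.sub_nonpos_of_le hn) (le_of_lt (Mathlib.Tactic.Linarith.sub_neg_of_lt h_nl)), mul_nonneg_of_nonpos_of_nonpos (Mathlib.Tactic.Linarith.sub_nonpos_of_le h1) (Mathlib.Tactic.Linarith.sub_nonpos_of_le hp1), mul_nonneg_of_nonpos_of_nonpos (Mathlib.Tactic.Linarith.sub_nonpos_of_le h2) (Mathlib.Tactic.Linarith.sub_nonpos_of_le hp1), mul_nonneg_of_nonpos_of_nonpos (Mathlib.Tactic.Linarith.sub_nonpos_of_le hp1) (Mathlib.Tactic.Linarith.sub_nonpos_of_le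 a3)])) (by linarith only [hn])
    clear * - f n p₁ hn a4 b2 this
    linarith only [hn, a4, b2, this, mul_nonneg_of_nonpos_of_nonpos (Mathlib.Tactic.Linarith.sub_nonpos_of_le hn) (Mathlib.Tactic.Linarith.sub_nonpos_of_le hn)]

theorem shift_small (hb : Stoch B) (h1 : 0 < HS B univ (i + 1)) (h2 : 0 < HS B univ (i + 2))
    (ht : tt B (i + 1) ≤ 4) (hi : 3 * i + 4 ≤ N) (hN : (10 : ℝ) ^ 50 ≤ N)
    (hL : (N : ℝ) ≤ 60 * i) :
    ∑ u, (xx B (i + 2) u - xx B (i + 1) u + 2 / N) ^ 2 ≤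
      1 / 10 ^ 43 * (∑ u, (xx B (i + 1) u - ((N : ℝ) - 2 * (i + 1)) / N) ^ 2 + ss B j) := by
  have h := shift_bound (j := j) hb h1 h2 ht hi
  have a0 : 0 ≤ ∑ u, (xx B (i + 2) u - xx B (i + 1) u + 2 / N) ^ 2 :=
    sum_nonneg fun _ _ => sq_nonneg _
  have b0 : 0 ≤ ∑ u, (xx B (i + 1) u - ((N : ℝ) - 2 * (i + 1)) / N) ^ 2 + ss B j :=
    add_nonneg (sum_nonneg fun _ _ => sq_nonneg _) ss_nonneg
  generalize ∑ u, (xx B (i + 2) u - xx B (i + 1) u + 2 / N) ^ 2 = X at *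
  generalize ∑ u, (xx B (i + 1) u - ((N : ℝ) - 2 * (i + 1)) / N) ^ 2 + ss B j = Y at *
  have c1 : 10 ^ 46 * (N : ℝ) ≤ 4 * ((i : ℝ) + 1) ^ 2 - 50 * N := by clear * - N i hN hL; linarith only [hN, hL, mul_nonneg_of_nonpos_of_nonpos (Mathlib.Tactic.Linarith.sub_nonpos_of_le (Mathlib.Tactic.Linarith.natCast_nonneg ℝ N)) (Mathlib.Tactic.Linarith.sub_nonpos_of_le hN), mul_nonneg_of_nonpos_of_nonpos (Mathlib.Tactic.Linarith.sub_nonpos_of_le (Mathlib.Tactic.Linarith.natCast_nonneg ℝ N)) (Mathlib.Tactic.Linarith.sub_nonpos_of_le hL), mul_nonneg_of_nonpos_of_nonpos (Mathlib.Tactic.Linarith.sub_nonpos_of_le (Mathlib.Tactic.Linarith.natCast_nonneg ℝ i)) (Mathlib.Tactic.Linarith.sub_nonpos_of_le hL)]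
  have c2 := mul_le_mul_of_nonneg_right c1 a0
  refine le_of_mul_le_mul_left ?_ (show (0 : ℝ) < 10 ^ 46 * N by positivity)
  linarith only [h, c2, hN, b0, mul_nonneg (show (0 : ℝ) ≤ N by positivity) b0]

/-- the tangent form of the local gain -/
theorem Gam_tangent (hb : Stoch B) (h0 : 0 < HS B univ i) (h1 : 0 < HS B univ (i + 1))
    (h2 : 0 < HS B univ (i + 2)) (h3 : 0 < HS B univ (i + 3)) {m b : ℝ} (hm : 1 / 4 ≤ m)
    (hT : tt B (i + 2) ≤ b + 1 / 10 ^ 5) (hκ : 2 * (1 - tt B i / tt B (i + 2)) ≤ 1 / 10 ^ 5)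
    (u : Fin N) :
    ∑ w, dev B j u w ^ 2 * (L1 m - Ks m b * (1 - B u w)) ≤ Gam B j (i + 1) u := by
  refine le_trans ?_ (Gam_ge hb h0 h1 h2 h3 u)
  rw [← sum_erase (a := u) _ (by simp [dev_self])]
  refine sum_le_sum fun w hw => mul_le_mul_of_nonneg_left ?_ (sq_nonneg _)
  have := tangent_le hm (tt_pos h2 h3).le hT (B_le_one hb u w) (mc_ge hb h1 h2 h3 hw)
  unfold L1 Ks
  clear * - m b B u w N i hκ this
  linarith only [hκ, this]

theorem Gam_abs (hb : Stoch B) (h0 : 0 < HS B univ i) (h1 : 0 < HS B univ (i + 1))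
    (h2 : 0 < HS B univ (i + 2)) (h3 : 0 < HS B univ (i + 3))
    (hκ : 2 * (1 - tt B i / tt B (i + 2)) ≤ 1 / 10 ^ 5) (u : Fin N) :
    |Gam B j (i + 1) u| ≤ sr B j u := by
  refine abs_le.2 ⟨le_trans ?_ (Gam_ge hb h0 h1 h2 h3 u), Gam_le hb u⟩
  unfold sr
  rw [← sum_erase (a := u) _ (by simp [dev_self]), ← sum_neg_distrib]
  refine sum_le_sum fun w _ => ?_
  have : -1 ≤ mc B (i + 1) u w * (2 * mc B (i + 1) u w - 1) - 2 * (1 - tt B i / tt B (i + 2)) := by
    clear * - N B i u w hκ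
    linarith only [hκ, sq_nonneg (4 * mc B (i + 1) u w - 1), sq_nonneg ((4 : ℝ) * mc B (i + (1 : ℕ)) u w - (1 : ℝ))]
  clear * - N B j u w i this
  linarith only [this, mul_le_mul_of_nonneg_left this (sq_nonneg (dev B j u w)), sq_nonneg (dev B j u w)]

end Pool.Agent.Work.MP_33747a_co
end
end
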