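import Pool.Agent.Work.MP_33747a_co.Half.K1

/-! The resolvent step. -/

set_option autoImplicit false

namespace Pool.Agent.Work.MP_33747a_co

open Finset

variable {N : ℕ} {B : Matrix (Fin N) (Fin N) ℝ} {j : ℝ} {i : ℕ}

theorem tt_div (h2 : 0 < HS B univ (i + 1)) (h3 : 0 < HS B univ (i + 2)) :
    tt B i / tt B (i + 1) = tt B i * (HS B univ (i + 2) / HS B univ (i + 1)) := by
  unfold tt
  field_simp

private theorem h14_sq_add (a b : ℝ) : (a + b) ^ 2 ≤ 2 * a ^ 2 + 2 * b ^ 2 := by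
  linarith only [sq_nonneg (a - b)]

theorem res_apply (hb : Stoch B) (hj : j * ((N : ℝ) - 1) = 1) (hN : (10 : ℝ) ^ 50 ≤ N)
    (h0 : 0 < HS B univ i) (h1 : 0 < HS B univ (i + 1)) (h2 : 0 < HS B univ (i + 2))
    (h3 : 0 < HS B univ (i + 3)) (hL : (N : ℝ) ≤ 60 * i) (hi : 3 * (i + 1) + 4 ≤ N)
    (hκ : 2 * (1 - tt B i / tt B (i + 2)) ≤ 1 / 10 ^ 5) (ht4 : tt B (i + 2) ≤ 4)
    (hρ : 1 - 1 / 10 ^ 40 ≤ tt B (i + 1) / tt B (i + 2)) {p₁ p₂ : ℝ} {r : Row ℝ}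
    (hB : RowB p₁ p₂ r) (ha0 : 1 / 50 ≤ r.a) (ha : r.a ≤ tt B (i + 1)) (hb' : tt B (i + 1) ≤ r.b)
    (hb3 : r.b ≤ 29 / 10) :
    ∃ (ν : Fin N → ℝ) (Φ : ℝ), (∀ v, 0 ≤ ν v ∧ r.ν₁ ≤ ν v ∧ ν v ≤ r.ν₂) ∧
      (∀ v, r.x₁ ≤ xx B (i + 1) v ∧ xx B (i + 1) v ≤ r.x₂) ∧
      1 + r.θ₁ * (((N : ℝ) - 2 * (i + 2) + 2) / N) - 1 / 10 ^ 6 ≤ Φ ∧
      Φ ≤ 1 + r.θ₂ * (((N : ℝ) - 2 * (i + 2) + 2) / N) + 1 / 10 ^ 6 ∧
      Φ * ∑ v, ν v * ((tt B (i + 1) * xx B (i + 1) v) ^ 2 * Gam B j (i + 1) v) -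
          1 / 10 ^ 7 * ss B j ≤
        N * Lam (1 / N) j ((N : ℝ) - 2 * (i + 2)) (tt B (i + 1)) (tt B (i + 1) / tt B (i + 2))
          (((N : ℝ) - 2 * (i + 2) + 2) / N) := by
  obtain ⟨b1, b2, b3, b4, b5, b6, b7, -, b9, b10, -, b12, b13, -⟩ := hB
  obtain ⟨j0, -, j2, j3⟩ := j_small hj hN
  have hN0 : (0 : ℝ) < N := lt_of_lt_of_le (by positivity) hN
  have : Nonempty (Fin N) := ⟨⟨0, by exact_mod_cast hN0⟩⟩
  have ht0 := tt_pos h1 h2
  have ht2 := tt_pos h2 h3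
  have hρ1 : tt B (i + 1) / tt B (i + 2) ≤ 1 := (div_le_one ht2).2 (tt_mono hb h2 h3)
  have hi' : 3 * ((i : ℝ) + 1) + 4 ≤ N := by exact_mod_cast hi
  have hi0 : (0 : ℝ) ≤ i := Nat.cast_nonneg i
  have hx : ∀ v, r.x₁ ≤ xx B (i + 1) v ∧ xx B (i + 1) v ≤ r.x₂ := by
    intro v
    have e1 := xx_ge hb h1 h2 v
    have e2 := xx_up hb h1 h2 h3 v
    have e0 : 0 ≤ xx B (i + 1) v := le_trans (by positivity) e1
    refine ⟨le_trans ?_ e1, ?_⟩
    · rw [le_div_iff₀ (by linarith only [ht0])]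
      linarith only [b2, mul_le_mul_of_nonneg_left hb' b1]
    · clear * - e0 e2 hρ ha ha0 ht0 b3
      generalize tt B (i + 1) / tt B (i + 2) = ρ at *
      generalize tt B (i + 1) = t at *
      generalize xx B (i + 1) v = x at *
      have e3 : x * ρ * (1 + 2 * r.a) ≤ 1 + r.a := by
        refine le_of_mul_le_mul_left ?_ (show 0 < 1 + 2 * t by linarith only [ht0])
        linarith only [ha,
          mul_le_mul_of_nonneg_right e2 (show 0 ≤ 1 + 2 * r.a by linarith only [ha0])]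
      refine le_of_mul_le_mul_right ?_ (show 0 < 1 + 2 * r.a by linarith only [ha0])
      have e4 : 0 ≤ x * (1 + 2 * r.a) := mul_nonneg e0 (by linarith only [ha0])
      linarith only [mul_le_mul_of_nonneg_left hρ e4, e3, b3, ha0]
  have s1 := sum_xx (B := B) h1
  have s2 := sum_xx (B := B) h2
  have s3 := sum_xx (B := B) h3
  push_cast at s1 s2 s3
  have d1 := shift_small (j := j) hb h1 h2 (by linarith only [hb', hb3]) (by omega) hN hL
  have d2 := shift_small (j := j) (i := i + 1) hb h2 h3 ht4 hi hN (by push_cast; linarith only [hL])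
  have hq : ((N : ℝ) - 2 * (i + 1)) / N = ((N : ℝ) - 2 * (i + 2) + 2) / N := by ring
  rw [hq] at d1
  have X0 : 0 ≤ ∑ u, (xx B (i + 1) u - ((N : ℝ) - 2 * (i + 2) + 2) / N) ^ 2 :=
    sum_nonneg fun _ _ => sq_nonneg _
  have S0 : 0 ≤ ss B j := ss_nonneg
  have d3 : ∑ u, (xx B (i + 1 + 1) u - ((N : ℝ) - 2 * (((i + 1 : ℕ) : ℝ) + 1)) / N) ^ 2 ≤
      2 * ∑ u, (xx B (i + 1) u - ((N : ℝ) - 2 * (i + 2) + 2) / N) ^ 2 +
        2 * ∑ u, (xx B (i + 2) u - xx B (i + 1) u + 2 / N) ^ 2 := by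
    rw [mul_sum, mul_sum, ← sum_add_distrib]
    refine sum_le_sum fun u _ => ?_
    have : xx B (i + 1 + 1) u - ((N : ℝ) - 2 * (((i + 1 : ℕ) : ℝ) + 1)) / N =
        (xx B (i + 1) u - ((N : ℝ) - 2 * (i + 2) + 2) / N) +
          (xx B (i + 2) u - xx B (i + 1) u + 2 / N) := by push_cast; ring
    rw [this]
    exact h14_sq_add _ _
  have d4 : ∑ u, (xx B (i + 3) u - xx B (i + 1) u + 4 / N) ^ 2 ≤
      2 * ∑ u, (xx B (i + 1 + 2) u - xx B (i + 1 + 1) u + 2 / N) ^ 2 +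
        2 * ∑ u, (xx B (i + 2) u - xx B (i + 1) u + 2 / N) ^ 2 := by
    rw [mul_sum, mul_sum, ← sum_add_distrib]
    refine sum_le_sum fun u _ => ?_
    have : xx B (i + 3) u - xx B (i + 1) u + 4 / N =
        (xx B (i + 1 + 2) u - xx B (i + 1 + 1) u + 2 / N) +
          (xx B (i + 2) u - xx B (i + 1) u + 2 / N) := by ring
    rw [this]
    exact h14_sq_add _ _
  have hu : 1 / (N : ℝ) ≤ 1 / 10 ^ 20 :=
    one_div_le_one_div_of_le (by positivity) (by linarith only [hN])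
  have hu0 : 0 ≤ 1 / (N : ℝ) := by positivity
  obtain ⟨ν, Φ, r1, r2, r3, r4⟩ := real_main hb (xx B (i + 1))
    (fun u => xx B (i + 2) u - xx B (i + 1) u + 2 / N)
    (fun u => xx B (i + 3) u - xx B (i + 1) u + 4 / N) (Gam B j (i + 1)) (sr B j) (1 / N) j
    ((N : ℝ) - 2 * (i + 2)) (tt B (i + 1)) (tt B (i + 1) / tt B (i + 2))
    (((N : ℝ) - 2 * (i + 2) + 2) / N) r.x₁ r.x₂ r.θ₁ r.θ₂ r.ν₁ r.ν₂ hu0 hu j0.le
    (j3.trans (by norm_num)) (mul_nonneg j0.le (by linarith only [hi', hi0]))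
    (by rw [← hj]; exact mul_le_mul_of_nonneg_left (by linarith only [hi0]) j0.le)
    (by linarith only [ha0, ha]) (by linarith only [hb', hb3])
    (by linarith only [hρ]) hρ1 b5 (by linarith only [b6, ha]) b7
    (by linarith only [b9, hb']) b1 hx b4 b10 b12 b13
    (by rw [s1, Fintype.card_fin]; field_simp; ring)
    (by rw [sum_add_distrib, sum_sub_distrib, s1, s2]; simp; field_simp; ring)
    (by rw [sum_add_distrib, sum_sub_distrib, s1, s3]; simp; field_simp; ring)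
    (fun v => by
      have e1 := (hx v).1
      have e2 := (hx v).2
      have e3 := xx_le_one hb h2 v
      have e4 : 0 ≤ xx B (i + 2) v := div_nonneg (HS_nonneg hb _ _) h2.le
      have e5 : 2 / (N : ℝ) = 2 * (1 / N) := by ring
      rw [abs_le]
      constructor <;> linarith only [e1, e2, e3, e4, e5, b1, b4, hu, hu0])
    (by unfold ss at d1 S0; linarith only [d1, S0, X0])
    (by unfold ss at d1 d2 S0; linarith only [d1, d2, d3, d4, S0, X0])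
    (Gam_abs hb h0 h1 h2 h3 hκ) (sr_le_one hb hj j0.le)
    (fun v => by
      have e := point_eq (j := j) hb h1 h2 h3 v (HSu_pos hb h1 h2 v)
      have e1 : ∑ w, B v w * (xx B (i + 2) w - xx B (i + 1) w + 2 / N) =
          ∑ w, B v w * xx B (i + 2) w - ∑ w, B v w * xx B (i + 1) w + 2 / N := by
        simp only [mul_add, mul_sub, sum_add_distrib, sum_sub_distrib, ← sum_mul, hb.row, one_mul]
      unfold Lam Err
      rw [e1]
      push_cast at e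
      linear_combination e)
  rw [Fintype.card_fin] at r4
  exact ⟨ν, Φ, r1, hx, r2, r3, r4⟩

/-- the real arithmetic that turns the resolvent bound into a bound for the excess -/
theorem res_arith {n k j t q W Φ s Δ₀ Δ₁ : ℝ} (hn : (10 : ℝ) ^ 50 ≤ n) (hk : n ≤ 60 * k)
    (hk2 : 2 * k ≤ n) (hj0 : 0 ≤ j) (hj : j ≤ 1 / 10 ^ 45) (ht0 : 1 / 50 ≤ t)
    (ht : t ≤ 3) (hq : q = (n - 2 * k + 2) / n) (hs : 0 ≤ s)
    (h1 : Φ * (t ^ 2 * W) - 1 / 10 ^ 7 * s ≤ t * (q * Δ₁ + (2 * k / n - j * q * t) * Δ₀))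
    (h2 : (k - j * t) * Δ₀ - t * s ≤ (k - 2) * Δ₁) :
    ∃ χ : ℝ, 1 - 1 / 10 ^ 6 ≤ χ ∧ χ ≤ 1 + 1 / 10 ^ 6 ∧
      t * Φ / χ * W - 1 / 10 ^ 5 * s ≤ Δ₁ := by
  have hn0 : 0 < n := lt_of_lt_of_le (by positivity) hn
  have tp : 0 < t := lt_of_lt_of_le (by norm_num) ht0
  have hjt : j * t ≤ 1 / 10 ^ 44 := (mul_le_mul hj ht tp.le (by norm_num)).trans (by norm_num)
  have hjt0 : 0 ≤ j * t := mul_nonneg hj0 tp.le
  have hk0 : (10 : ℝ) ^ 48 ≤ k := by linarith only [hn, hk]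
  have hd : 0 < k - j * t := by linarith only [hk0, hjt]
  obtain ⟨p, hp⟩ : ∃ p, p = 2 * k / n := ⟨_, rfl⟩
  rw [← hp] at h1
  have hu : 2 / n ≤ 1 / 10 ^ 40 := by
    rw [div_le_div_iff₀ hn0 (by positivity)]; linarith only [hn]
  have hu0 : 0 ≤ 2 / n := div_nonneg zero_le_two hn0.le
  have hqp : q = 1 - p + 2 / n := by rw [hq, hp]; field_simp
  have hp0 : 1 / 30 ≤ p := by rw [hp, le_div_iff₀ hn0]; linarith only [hk]
  have hp1 : p ≤ 1 := by rw [hp, div_le_one hn0]; exact hk2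
  have hq0 : 0 ≤ q := by linarith only [hqp, hp1, hu0]
  have hq1 : q ≤ 1 := by linarith only [hqp, hp0, hu]
  have e0 : 0 ≤ j * q * t := mul_nonneg (mul_nonneg hj0 hq0) tp.le
  have e1 : j * q * t ≤ 1 / 10 ^ 44 := by
    linarith only [mul_le_mul_of_nonneg_left hq1 hjt0, hjt]
  obtain ⟨c, hc⟩ : ∃ c, c = p - j * q * t := ⟨_, rfl⟩
  rw [← hc] at h1
  have c0 : 0 ≤ c := by linarith only [hc, hp0, e1]
  have c1 : c ≤ 1 := by linarith only [hc, hp1, e0]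
  obtain ⟨y, hy⟩ : ∃ y, y = (k - 2) / (k - j * t) := ⟨_, rfl⟩
  have y1 : y ≤ 1 := by rw [hy, div_le_one hd]; linarith only [hjt]
  have y0 : 1 - 1 / 10 ^ 40 ≤ y := by
    rw [hy, le_div_iff₀ hd]; linarith only [hk0, hjt0]
  obtain ⟨z, hz⟩ : ∃ z, z = t / (k - j * t) := ⟨_, rfl⟩
  have z1 : z ≤ 1 / 10 ^ 40 := by rw [hz, div_le_iff₀ hd]; linarith only [hk0, hjt, ht]
  have z0 : 0 ≤ z := hz ▸ div_nonneg tp.le hd.le
  have f1 : Δ₀ ≤ y * Δ₁ + z * s := by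
    refine le_of_mul_le_mul_left ?_ hd
    have a1 : (k - j * t) * (y * Δ₁ + z * s) = (k - 2) * Δ₁ + t * s := by
      rw [hy, hz]; field_simp
    linarith only [a1, h2]
  have f2 := mul_le_mul_of_nonneg_left f1 c0
  have χ0 : 1 - 1 / 10 ^ 6 ≤ q + c * y := by
    linarith only [mul_le_mul_of_nonneg_left y0 c0, hqp, hc, c1, hu0, e1]
  have χ1 : q + c * y ≤ 1 + 1 / 10 ^ 6 := by
    linarith only [mul_le_mul_of_nonneg_left y1 c0, hqp, hc, hu, e0]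
  refine ⟨q + c * y, χ0, χ1, ?_⟩
  have χp : 0 < q + c * y := by linarith only [χ0]
  have f3 : Φ * (t ^ 2 * W) - 1 / 10 ^ 7 * s ≤ t * ((q + c * y) * Δ₁ + c * z * s) :=
    h1.trans (mul_le_mul_of_nonneg_left (by linarith only [f2]) tp.le)
  have f4 : c * z * s ≤ 1 / 10 ^ 40 * s := mul_le_mul_of_nonneg_right
    ((mul_le_mul c1 z1 z0 zero_le_one).trans_eq (one_mul _)) hs
  have f5 : t * Φ * W - 6 / 10 ^ 6 * s ≤ (q + c * y) * Δ₁ := by
    refine le_of_mul_le_mul_left ?_ tp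
    linarith only [f3, hs, mul_le_mul_of_nonneg_left f4 tp.le, mul_le_mul_of_nonneg_right ht0 hs,
      mul_le_mul_of_nonneg_right ht hs]
  refine le_of_mul_le_mul_left ?_ χp
  have f6 : (q + c * y) * (t * Φ / (q + c * y) * W - 1 / 10 ^ 5 * s) =
      t * Φ * W - (q + c * y) * (1 / 10 ^ 5 * s) := by field_simp
  rw [f6]
  linarith only [f5, hs, mul_le_mul_of_nonneg_right χ0 hs]

end Pool.Agent.Work.MP_33747a_co
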