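import Pool.Agent.Work.MP_33747a_co.Half.K2

-- merged part: Pool.Agent.Work.MP_33747a_co.Half.K3
section
/-! The level lemma. -/

set_option autoImplicit false

namespace Pool.Agent.Work.MP_33747a_co

open Finset

variable {N : ℕ} {B : Matrix (Fin N) (Fin N) ℝ} {j : ℝ} {i : ℕ}

/-- third moment of the deviation -/
noncomputable def s3 (B : Matrix (Fin N) (Fin N) ℝ) (j : ℝ) : ℝ := ∑ u, ∑ w, dev B j u w ^ 2 * B u w

theorem weight_range {p₁ p₂ t Φ χ ν x q : ℝ} {r : Row ℝ} (hB : RowB p₁ p₂ r) (ha0 : 1 / 50 ≤ r.a)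
    (ha : r.a ≤ t) (hb : t ≤ r.b) (hp : p₂ ≤ 1) (q1 : 1 - p₂ ≤ q) (q2 : q ≤ 1 - p₁ + 1 / 10 ^ 40)
    (f1 : 1 + r.θ₁ * q - 1 / 10 ^ 6 ≤ Φ) (f2 : Φ ≤ 1 + r.θ₂ * q + 1 / 10 ^ 6)
    (c1 : 1 - 1 / 10 ^ 6 ≤ χ) (c2 : χ ≤ 1 + 1 / 10 ^ 6) (n1 : r.ν₁ ≤ ν) (n2 : ν ≤ r.ν₂)
    (x1 : r.x₁ ≤ x) (x2 : x ≤ r.x₂) :
    r.w₁ ≤ t * Φ / χ * (ν * x ^ 2) ∧ t * Φ / χ * (ν * x ^ 2) ≤ r.w₂ := by
  obtain ⟨b1, -, -, -, b5, -, b7, b8, -, -, b11, -, -, b14, b15, b16, -⟩ := hB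
  have hχ : 0 < χ := by linarith only [c1]
  have e : t * Φ / χ * (ν * x ^ 2) = t * Φ * ν * x ^ 2 / χ := by ring
  have g0 : 0 ≤ 1 + r.θ₁ * (1 - p₂) - 1 / 10 ^ 5 := by
    linarith only [mul_nonneg b5 (sub_nonneg.2 hp)]
  have g1 : 1 + r.θ₁ * (1 - p₂) - 1 / 10 ^ 5 ≤ Φ := by
    linarith only [mul_le_mul_of_nonneg_left q1 b5, f1]
  have g2 : Φ ≤ 1 + r.θ₂ * (1 - p₁) + 1 / 10 ^ 5 := by
    linarith only [mul_le_mul_of_nonneg_left q2 b7, f2, b8]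
  have a0 : 0 ≤ r.a := by linarith only [ha0]
  have t0 : 0 ≤ t := a0.trans ha
  have Φ0 : 0 ≤ Φ := g0.trans g1
  have ν0 : 0 ≤ ν := b11.trans n1
  have x0 : 0 ≤ x := b1.trans x1
  have l1 : r.a * (1 + r.θ₁ * (1 - p₂) - 1 / 10 ^ 5) * r.ν₁ * r.x₁ ^ 2 ≤ t * Φ * ν * x ^ 2 := by
    clear * - r p₂ t Φ ν x ha g1 g0 t0 n1 b11 Φ0 b1 x1 ν0
    gcongr
  have l2 : t * Φ * ν * x ^ 2 ≤ r.b * (1 + r.θ₂ * (1 - p₁) + 1 / 10 ^ 5) * r.ν₂ * r.x₂ ^ 2 := by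
    clear * - r t t0 hb p₁ Φ Φ0 g2 ν ν0 n2 x x0 x2
    have : 0 ≤ r.b := t0.trans hb
    have : 0 ≤ 1 + r.θ₂ * (1 - p₁) + 1 / 10 ^ 5 := Φ0.trans g2
    have : 0 ≤ r.ν₂ := ν0.trans n2
    gcongr
  have l0 : 0 ≤ t * Φ * ν * x ^ 2 := by positivity
  have w0 : 0 ≤ r.w₂ := by
    linarith only [l0, l2, b16]
  rw [e, le_div_iff₀ hχ, div_le_iff₀ hχ]
  constructor
  · linarith only [mul_le_mul_of_nonneg_left c2 b14, b14, b15, l1]
  · linarith only [mul_le_mul_of_nonneg_left c1 w0, w0, b16, l2]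

theorem level_main (hb : Stoch B) (hj : j * ((N : ℝ) - 1) = 1) (hN : (10 : ℝ) ^ 50 ≤ N)
    {p₁ p₂ σ₂ ρ₁ : ℝ} {r : Row ℝ} (hA : RowA p₁ p₂ σ₂ r) (hB : RowB p₁ p₂ r) (hC : RowC σ₂ ρ₁ r)
    (k1 : p₁ * N ≤ 2 * ((i : ℝ) + 2)) (k2 : 2 * ((i : ℝ) + 2) ≤ p₂ * N)
    (hσ : ss B j ≤ σ₂ * N) (hρ₁ : ρ₁ * ss B j ≤ s3 B j)
    (h0 : 0 < HS B univ i) (h1 : 0 < HS B univ (i + 1)) (h2 : 0 < HS B univ (i + 2))
    (hZ : -(r.Z * N) ≤ DD B j (i + 1)) :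
    0 < HS B univ (i + 3) ∧ r.D * ss B j ≤ DD B j (i + 2) ∧ -(r.Z * N) ≤ DD B j (i + 2) := by
  obtain ⟨a1, a2, a3, a4, a5, a6, a7, a8, a9, a10⟩ := hA
  obtain ⟨j0, j1, j2, j3⟩ := j_small hj hN
  have hN0 : (0 : ℝ) < N := lt_of_lt_of_le (by positivity) hN
  have S0 : 0 ≤ ss B j := ss_nonneg
  have m1 : (N : ℝ) / 25 ≤ 2 * ((i : ℝ) + 2) := by
    linarith only [mul_le_mul_of_nonneg_right a1 hN0.le, k1]
  have m2 : 2 * ((i : ℝ) + 2) ≤ 51 / 100 * N := by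
    linarith only [mul_le_mul_of_nonneg_right a2 hN0.le, k2]
  have hL : (N : ℝ) ≤ 60 * i := by linarith only [m1, hN]
  have hi : 3 * (i + 1) + 4 ≤ N := by
    have : 3 * ((i : ℝ) + 1) + 4 ≤ N := by linarith only [m2, hN]
    exact_mod_cast this
  obtain ⟨E1, E2, E3⟩ := E_bounds (f := (N : ℝ) - 2 * (i + 2)) (k := (i : ℝ) + 2) hN hj (by ring)
    k1 k2 (by linarith only [a1]) a2
  have t1 := tt_mul (j := j) hb h1 h2
  push_cast at t1
  rw [show ((N : ℝ) - 2 * (i + 1)) * ((N : ℝ) - 2 * (i + 1) - 1) =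
    ((N : ℝ) - 2 * (i + 2) + 2) * ((N : ℝ) - 2 * (i + 2) + 1) by ring,
    show 2 * ((i : ℝ) + 1 + 1) = 2 * (i + 2) by ring] at t1
  have tp := tt_pos h1 h2
  have tb : tt B (i + 1) ≤ r.b := by
    clear * - N p₂ r hN0 a8 B i j E1 E2 hZ tp a9 t1 k2
    have e0 : 0 < (N : ℝ) * ((1 - p₂) ^ 2 - 1 / 10 ^ 5 - r.Z) := mul_pos hN0 a8
    refine le_of_mul_le_mul_right ?_ e0
    have e1 : (N : ℝ) * ((1 - p₂) ^ 2 - 1 / 10 ^ 5 - r.Z) ≤
        j * (((N : ℝ) - 2 * (i + 2) + 2) * ((N : ℝ) - 2 * (i + 2) + 1)) + DD B j (i + 1) := by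
      linarith only [E1, E2, hZ]
    linarith only [mul_le_mul_of_nonneg_left e1 tp.le, mul_le_mul_of_nonneg_right a9 hN0.le, t1, k2]
  have tb3 : tt B (i + 1) ≤ 3 := by linarith only [tb, a10]
  have ρ1 := rho_ge hb h1 h2 hN (by push_cast; linarith only [hL]) tb3
  have h3 : 0 < HS B univ (i + 3) := by
    rcases (HS_nonneg hb univ (i + 3)).eq_or_lt with h | h
    · rw [show i + 1 + 2 = i + 3 from rfl, ← h] at ρ1
      norm_num at ρ1
    · exact h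
  rw [← tt_div h2 h3] at ρ1
  have tm := tt_mono hb h1 h2
  have ρ0 := rho_ge hb h0 h1 hN hL (tm.trans tb3)
  rw [← tt_div h1 h2] at ρ0
  have tp2 := tt_pos h2 h3
  have t2 : tt B (i + 2) ≤ r.b + 1 / 10 ^ 5 := by
    rw [le_div_iff₀ tp2] at ρ1
    linarith only [ρ1, tb, tb3]
  have hκ : 2 * (1 - tt B i / tt B (i + 2)) ≤ 1 / 10 ^ 5 := by
    clear * - N B i tp tp2 ρ0 ρ1
    have : tt B i / tt B (i + 2) = tt B i / tt B (i + 1) * (tt B (i + 1) / tt B (i + 2)) := by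
      field_simp
    rw [this]
    linarith only [mul_le_mul ρ0 ρ1 (by norm_num) (by linarith only [ρ0])]
  have i2 := ident2_sharp hb hj h1 h2
  push_cast at i2
  have hjt : j * tt B (i + 1) ≤ 1 := by
    linarith only [mul_le_mul_of_nonneg_left tb3 j0.le, j3]
  refine ⟨h3, ?_⟩
  by_cases hcase : (r.Dp + 1 / 10 ^ 5) * ss B j ≤ DD B j (i + 1)
  · have e0 : 0 ≤ DD B j (i + 1) := le_trans (by clear * - r N B j a6 S0 a5 a7 hL hN hN0 hcase hjt i i2 tb3; positivity) hcase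
    have i0 : (10 : ℝ) ^ 48 ≤ i := by linarith only [hL, hN]
    have e1 : r.Dp * ss B j ≤ DD B j (i + 2) := by
      refine le_of_mul_le_mul_left ?_ (show (0 : ℝ) < i by linarith only [i0])
      linarith only [mul_le_mul_of_nonneg_left hcase (Nat.cast_nonneg i),
        mul_le_mul_of_nonneg_right hjt e0, mul_le_mul_of_nonneg_right i0 S0,
        mul_le_mul_of_nonneg_right tb3 S0, i2, S0, e0]
    have e2 := mul_le_mul_of_nonneg_right a5 S0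
    have e3 := mul_nonneg a6 S0
    have e4 := mul_nonneg a7 hN0.le
    constructor <;> linarith only [e1, e2, e3, e4]
  push Not at hcase
  have ta : r.a ≤ tt B (i + 1) := by
    clear * - j N i B t1 tp r σ₂ hσ a6 p₁ E3 hcase a3 a4 hN0 k1
    have e0 : 0 < j * (((N : ℝ) - 2 * (i + 2) + 2) * ((N : ℝ) - 2 * (i + 2) + 1)) +
        DD B j (i + 1) := by
      refine (pos_iff_pos_of_mul_pos ?_).1 tp
      rw [t1]; positivity
    refine le_of_mul_le_mul_right ?_ e0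
    have e1 := mul_le_mul_of_nonneg_left hσ (show 0 ≤ r.Dp + 1 / 10 ^ 5 by linarith only [a6])
    have e2 : j * (((N : ℝ) - 2 * (i + 2) + 2) * ((N : ℝ) - 2 * (i + 2) + 1)) + DD B j (i + 1) ≤
        N * ((1 - p₁) ^ 2 + 1 / 10 ^ 5 + σ₂ * (r.Dp + 1 / 10 ^ 5)) := by
      linarith only [E3, hcase, e1]
    linarith only [mul_le_mul_of_nonneg_left e2 (show 0 ≤ r.a by linarith only [a3]),
      mul_le_mul_of_nonneg_right a4 hN0.le, t1, k1]
  obtain ⟨ν, Φ, r1, rx, r2, r3, r4⟩ := res_apply hb hj hN h0 h1 h2 h3 hL hi hκ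
    (by linarith only [t2, a10]) ρ1 hB a3 ta tb a10
  have t3 := tt_mul (j := j) hb h2 h3
  push_cast at t3
  rw [Lam_mean (k := (i : ℝ) + 2) (Δ₀ := DD B j (i + 1)) (Δ₁ := DD B j (i + 2)) hN0 (by ring) hj t1
    (by clear * - N B i j t3 tp2 tp r4; rw [← t3]; field_simp)] at r4
  have r5 : ∑ v, ν v * ((tt B (i + 1) * xx B (i + 1) v) ^ 2 * Gam B j (i + 1) v) =
      tt B (i + 1) ^ 2 * ∑ v, ν v * xx B (i + 1) v ^ 2 * Gam B j (i + 1) v := by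
    rw [mul_sum]; exact sum_congr rfl fun _ _ => by ring
  rw [r5] at r4
  obtain ⟨χ, c1, c2, c3⟩ := res_arith (k := (i : ℝ) + 2) hN (by linarith only [hL])
    (by linarith only [m2, hN0]) j0.le j3 (a3.trans ta) tb3 rfl S0 r4 (by linarith only [i2])
  rw [mul_sum] at c3
  have hw : ∀ v, r.w₁ ≤ tt B (i + 1) * Φ / χ * (ν v * xx B (i + 1) v ^ 2) ∧
      tt B (i + 1) * Φ / χ * (ν v * xx B (i + 1) v ^ 2) ≤ r.w₂ := fun v =>
    weight_range hB a3 ta tb (by linarith only [a2])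
      (by rw [le_div_iff₀ hN0]; linarith only [k2])
      (by rw [div_le_iff₀ hN0]; linarith only [k1, hN]) r2 r3 c1 c2 (r1 v).2.1 (r1 v).2.2 (rx v).1 (rx v).2
  obtain ⟨-, -, -, -, -, -, -, -, -, -, -, -, -, b14, -, -, b17⟩ := hB
  have c4 : ∀ m : ℝ, 1 / 4 ≤ m → ∑ v, ∑ w, tt B (i + 1) * Φ / χ * (ν v * xx B (i + 1) v ^ 2) *
      (dev B j v w ^ 2 * (L1 m - Ks m r.b * (1 - B v w))) - 1 / 10 ^ 5 * ss B j ≤
      DD B j (i + 2) := by
    clear * - N B i Φ χ ν j r hb h0 h1 h2 h3 t2 hκ b14 hw c3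
    intro m hm
    refine le_trans (sub_le_sub_right (sum_le_sum fun v _ => ?_) _) c3
    rw [← mul_sum]
    exact (mul_le_mul_of_nonneg_left (Gam_tangent hb h0 h1 h2 h3 hm t2 hκ v)
      (b14.trans (hw v).1)).trans_eq (by ring)
  generalize hW : (fun v => tt B (i + 1) * Φ / χ * (ν v * xx B (i + 1) v ^ 2)) = W
  have hW' : ∀ v, tt B (i + 1) * Φ / χ * (ν v * xx B (i + 1) v ^ 2) = W v := fun v => by rw [← hW]
  simp only [hW'] at hw c4
  obtain ⟨c01, c02, c03, c04, c05, c06, c07, c08⟩ := hC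
  have hD : r.D * ss B j ≤ DD B j (i + 2) := by
    clear * - r N B j W i hw c02 c03 c04 c05 hb ρ₁ hρ₁ c06 c07 S0 c4 c01
    refine le_trans ?_ (c4 _ c01)
    have e1 : r.g₀ * ss B j + (r.g₁ - r.g₀) * s3 B j ≤
        ∑ v, ∑ w, W v * (dev B j v w ^ 2 * (L1 r.m - Ks r.m r.b * (1 - B v w))) := by
      unfold ss sr s3
      simp only [mul_sum, ← sum_add_distrib]
      refine sum_le_sum fun v _ => sum_le_sum fun w _ => ?_
      have := affine_le (hw v).1 (hw v).2 c02 c03 c04 c05 (hb.nonneg v w) (B_le_one hb v w)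
      linarith only [mul_le_mul_of_nonneg_left this (sq_nonneg (dev B j v w))]
    linarith only [mul_le_mul_of_nonneg_left hρ₁ (sub_nonneg.2 c06),
      mul_le_mul_of_nonneg_right c07 S0, e1]
  refine ⟨hD, ?_⟩
  rcases c08 with c | ⟨d1, d2, d3, d4, d5, d6⟩
  · rcases le_total 0 r.D with h | h
    · linarith only [mul_nonneg h S0, mul_nonneg a7 hN0.le, hD]
    · linarith only [mul_le_mul_of_nonpos_left hσ h, mul_le_mul_of_nonneg_right c hN0.le, hD]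
  · refine le_trans ?_ (c4 _ d1)
    have e1 : ∑ v, ∑ w, -(r.w₂ * (r.Λ * B v w + 10 * j ^ 2)) ≤
        ∑ v, ∑ w, W v * (dev B j v w ^ 2 * (L1 r.m' - Ks r.m' r.b * (1 - B v w))) :=
      sum_le_sum fun v _ => sum_le_sum fun w _ =>
        abs_loss (b14.trans (hw v).1) (hw v).2 d2 d3 d4 d5 (hb.nonneg v w) (dev_sq_le hb j0.le v w)
    have e0 : ∑ v, ∑ w, -(r.w₂ * (r.Λ * B v w + 10 * j ^ 2)) =
        -(r.w₂ * (r.Λ * (N * 1) + 10 * (N * (N * j ^ 2)))) := by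
      simp only [sum_neg_distrib, ← mul_sum, sum_add_distrib, hb.row, sum_const, card_univ,
        Fintype.card_fin, nsmul_eq_mul]
    rw [e0] at e1
    have e2 : ss B j ≤ N := by
      clear * - N B j hb hj j0
      have := sum_le_sum (s := univ) fun u _ => sr_le_one hb hj j0.le u
      simpa [ss] using this
    have e3 : (j * N) ^ 2 ≤ 2 ^ 2 := pow_le_pow_left₀ (mul_nonneg j0.le hN0.le) j2 2
    have w0 : 0 ≤ r.w₂ := by
      clear * - N hN0 r W b14 hw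
      have : Nonempty (Fin N) := ⟨⟨0, by exact_mod_cast hN0⟩⟩
      obtain ⟨v⟩ := this
      exact (b14.trans (hw v).1).trans (hw v).2
    linarith only [mul_le_mul_of_nonneg_right d6 hN0.le, mul_le_mul_of_nonneg_left e3 w0, e1, e2,
      b17, hN]

theorem ratio_main (hb : Stoch B) (hj : j * ((N : ℝ) - 1) = 1) (hN : (10 : ℝ) ^ 50 ≤ N)
    {p₁ p₂ σ₂ : ℝ} {r : Row ℝ} (hA : RowA p₁ p₂ σ₂ r) (hD : RowD p₁ p₂ σ₂ r) {k : ℕ}
    (k1 : p₁ * N ≤ 2 * (k : ℝ)) (k2 : 2 * (k : ℝ) ≤ p₂ * N) (hσ : ss B j ≤ σ₂ * N)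
    (h0 : 0 < HS B univ k) (d1 : r.D * ss B j ≤ DD B j k) (d2 : -(r.Z * N) ≤ DD B j k) :
    Real.exp (ss B j / N * r.g) * (j * (((N : ℝ) - 2 * k) * ((N : ℝ) - 2 * k - 1))) * HS B univ k ≤
      2 * ((k : ℝ) + 1) * HS B univ (k + 1) := by
  obtain ⟨a1, a2, a3, a4, a5, a6, a7, a8, a9, a10⟩ := hA
  have hN0 : (0 : ℝ) < N := lt_of_lt_of_le (by positivity) hN
  have S0 : 0 ≤ ss B j := ss_nonneg
  obtain ⟨E1, E2, E3⟩ := E_bounds (f := (N : ℝ) - 2 * k) (k := (k : ℝ)) hN hj (by ring)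
    k1 k2 (by linarith only [a1]) a2
  have e : Phi B j k = DD B j k * HS B univ k := by unfold DD; field_simp
  rw [stepM (j := j) hb k, e, ← add_mul]
  refine mul_le_mul_of_nonneg_right ?_ h0.le
  generalize j * (((N : ℝ) - 2 * k) * ((N : ℝ) - 2 * k - 1)) = E at *
  generalize DD B j k = Δ at *
  have σ0 : 0 ≤ ss B j / N := by positivity
  have σ1 : ss B j / N ≤ σ₂ := by rw [div_le_iff₀ hN0]; exact hσ
  have σe : ss B j = ss B j / N * N := by field_simp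
  rw [σe] at d1
  generalize ss B j / N = σ at *
  have q0 := mul_pos hN0 a8
  have hs : (N : ℝ) * ((1 - p₂) ^ 2 - 1 / 10 ^ 5 - r.Z) ≤ E + Δ := by linarith only [E1, d2]
  refine exp_ratio (by linarith only [q0, hs]) ?_
  rcases hD with ⟨g1, g2⟩ | ⟨g1, g2, g3⟩
  · have Δ0 : 0 ≤ Δ := le_trans (by positivity) d1
    rcases le_total r.g 0 with h | h
    · linarith only [Δ0,
        mul_nonneg (mul_nonneg σ0 (neg_nonneg.2 h)) (show 0 ≤ E + Δ by linarith only [q0, hs])]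
    · have f0 : 0 ≤ r.g * ((1 - p₁) ^ 2 + 1 / 10 ^ 5) := by clear * - r p₁ h E2 E3 d1 g1 g2 hN0 σ σ0 σ₂; positivity
      have f1 : σ * r.g * r.D ≤ σ₂ * r.g * r.D := by clear * - r σ σ₂ σ1 h g1; gcongr
      have f2 : σ * r.g ≤ 1 := by
        clear * - r σ g1 p₁ σ₂ g2 h f0 f1
        rcases g1.eq_or_lt with h2 | h2
        · rw [← h2] at g2
          have : r.g = 0 := le_antisymm
            (by linarith only [g2, mul_nonneg h (sq_nonneg (1 - p₁))]) h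
          rw [this]; norm_num
        · exact le_of_mul_le_mul_right (by linarith only [f0, f1, g2]) h2
      have f3 := mul_le_mul_of_nonneg_right d1 (sub_nonneg.2 f2)
      have f4 := mul_le_mul_of_nonneg_left (E2.trans E3) (mul_nonneg σ0 h)
      have f5 : r.g * ((1 - p₁) ^ 2 + 1 / 10 ^ 5) ≤ r.D * (1 - σ * r.g) := by
        linarith only [f1, g2]
      linarith only [mul_le_mul_of_nonneg_left f5 (mul_nonneg σ0 hN0.le), f3, f4]
  · have f0 : σ * r.g ≤ 0 := mul_nonpos_of_nonneg_of_nonpos σ0 g2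
    rcases le_total 0 Δ with h | h
    · linarith only [h, mul_nonneg (neg_nonneg.2 f0) (show 0 ≤ E + Δ by linarith only [q0, hs])]
    · linarith only [mul_le_mul_of_nonpos_left hs f0, d1,
        mul_le_mul_of_nonneg_left g3 (mul_nonneg σ0 hN0.le)]

end Pool.Agent.Work.MP_33747a_co
end

-- merged part: Pool.Agent.Work.MP_33747a_co.Half.T1
section
/-! Chaining the level lemma along a table of intervals. -/

set_option autoImplicit false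

namespace Pool.Agent.Work.MP_33747a_co

open Finset

/-- the real row attached to a rational row -/
def Row.cst (r : Row ℚ) : Row ℝ :=
  ⟨r.a, r.b, r.x₁, r.x₂, r.θ₁, r.θ₂, r.ν₁, r.ν₂, r.w₁, r.w₂, r.m, r.g₀, r.g₁, r.m', r.Λ, r.D, r.Dp,
    r.Z, r.g⟩

theorem qle {x y : ℚ} (h : x ≤ y) : (x : ℝ) ≤ y := by exact_mod_cast h

theorem qlt {x y : ℚ} (h : x < y) : (x : ℝ) < y := by exact_mod_cast h

theorem RowA.cst {p₁ p₂ σ₂ : ℚ} {r : Row ℚ} (h : RowA p₁ p₂ σ₂ r) :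
    RowA (p₁ : ℝ) p₂ σ₂ r.cst := by
  obtain ⟨a1, a2, a3, a4, a5, a6, a7, a8, a9, a10⟩ := h
  refine ⟨?_, ?_, ?_, ?_, ?_, ?_, ?_, ?_, ?_, ?_⟩
  · simpa using qle a1
  · simpa using qle a2
  · simpa [Row.cst] using qle a3
  · simpa [Row.cst] using qle a4
  · simpa [Row.cst] using qle a5
  · simpa [Row.cst] using qle a6
  · simpa [Row.cst] using qle a7
  · simpa [Row.cst] using qlt a8
  · simpa [Row.cst] using qle a9
  · simpa [Row.cst] using qle a10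

theorem RowB.cst {p₁ p₂ : ℚ} {r : Row ℚ} (h : RowB p₁ p₂ r) : RowB (p₁ : ℝ) p₂ r.cst := by
  obtain ⟨a1, a2, a3, a4, a5, a6, a7, a8, a9, a10, a11, a12, a13, a14, a15, a16, a17⟩ := h
  refine ⟨?_, ?_, ?_, ?_, ?_, ?_, ?_, ?_, ?_, ?_, ?_, ?_, ?_, ?_, ?_, ?_, ?_⟩
  · simpa [Row.cst] using qle a1
  · simpa [Row.cst] using qle a2
  · simpa [Row.cst] using qle a3
  · simpa [Row.cst] using qle a4
  · simpa [Row.cst] using qle a5
  · simpa [Row.cst] using qle a6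
  · simpa [Row.cst] using qle a7
  · simpa [Row.cst] using qle a8
  · simpa [Row.cst] using qle a9
  · simpa [Row.cst] using qle a10
  · simpa [Row.cst] using qle a11
  · simpa [Row.cst] using qle a12
  · simpa [Row.cst] using qle a13
  · simpa [Row.cst] using qle a14
  · simpa [Row.cst] using qle a15
  · simpa [Row.cst] using qle a16
  · simpa [Row.cst] using qle a17

theorem RowC.cst {σ₂ ρ₁ : ℚ} {r : Row ℚ} (h : RowC σ₂ ρ₁ r) : RowC (σ₂ : ℝ) ρ₁ r.cst := by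
  obtain ⟨a1, a2, a3, a4, a5, a6, a7, a8⟩ := h
  refine ⟨?_, ?_, ?_, ?_, ?_, ?_, ?_, a8.imp (fun a => ?_) fun ⟨b1, b2, b3, b4, b5, b6⟩ =>
    ⟨?_, ?_, ?_, ?_, ?_, ?_⟩⟩
  · simpa [Row.cst] using qle a1
  · simpa [Row.cst, L1, Ks] using qle a2
  · simpa [Row.cst, L1, Ks] using qle a3
  · simpa [Row.cst, L1, Ks] using qle a4
  · simpa [Row.cst, L1, Ks] using qle a5
  · simpa [Row.cst] using qle a6
  · simpa [Row.cst] using qle a7
  · simpa [Row.cst] using qle a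
  · simpa [Row.cst] using qle b1
  · simpa [Row.cst, L1, Ks] using qlt b2
  · simpa [Row.cst] using qle b3
  · simpa [Row.cst, L1, Ks] using qle b4
  · simpa [Row.cst, L1, Ks] using qle b5
  · simpa [Row.cst] using qle b6

theorem RowD.cst {p₁ p₂ σ₂ : ℚ} {r : Row ℚ} (h : RowD p₁ p₂ σ₂ r) :
    RowD (p₁ : ℝ) p₂ σ₂ r.cst := by
  refine h.imp (fun ⟨a1, a2⟩ => ⟨?_, ?_⟩) fun ⟨a1, a2, a3⟩ => ⟨?_, ?_, ?_⟩
  · simpa [Row.cst] using qle a1
  · simpa [Row.cst] using qle a2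
  · simpa [Row.cst] using qle a1
  · simpa [Row.cst] using qle a2
  · simpa [Row.cst] using qle a3

/-- the check of a table: `p` is the left end, `c` the accumulated gain, `Z` the previous loss -/
def Chk (σ₂ ρ₁ : ℚ) : List (Row ℚ) → ℚ → ℚ → ℚ → Prop
  | [], p, c, _ => 1 / 2 ≤ p ∧ 0 < c
  | r :: rs, p, c, Z => RowA p (p + 1 / 250) σ₂ r ∧ RowB p (p + 1 / 250) r ∧ RowC σ₂ ρ₁ r ∧
      RowD p (p + 1 / 250) σ₂ r ∧ Z ≤ r.Z ∧ -1 ≤ r.g ∧ r.g ≤ 1 ∧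
      (p + 1 / 250 ≤ 1 / 5 ∨ (1 / 10 ^ 9 ≤ c ∧ 1 / 10 ^ 9 ≤ c + r.g / 500)) ∧
      Chk σ₂ ρ₁ rs (p + 1 / 250) (c + r.g / 500 - 1 / 10 ^ 9) r.Z

variable {N : ℕ} {B : Matrix (Fin N) (Fin N) ℝ} {j : ℝ}

/-- the invariant carried along the levels -/
def Inv (B : Matrix (Fin N) (Fin N) ℝ) (j : ℝ) (h : ℕ → ℝ) (i : ℕ) (c Z : ℝ) : Prop :=
  0 < HS B univ i ∧ 0 < HS B univ (i + 1) ∧ 0 < HS B univ (i + 2) ∧
    Real.exp (ss B j * c) * h (i + 2) ≤ HS B univ (i + 2) ∧ -(Z * N) ≤ DD B j (i + 1)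

theorem Inv.mono {h : ℕ → ℝ} (hh : ∀ k, 0 ≤ h k) {i : ℕ} {c c' Z Z' : ℝ} (H : Inv B j h i c Z)
    (hc : c' ≤ c) (hZ : Z ≤ Z') : Inv B j h i c' Z' := by
  obtain ⟨h0, h1, h2, h3, h4⟩ := H
  refine ⟨h0, h1, h2, le_trans ?_ h3, le_trans ?_ h4⟩
  · exact mul_le_mul_of_nonneg_right
      (Real.exp_le_exp.2 (mul_le_mul_of_nonneg_left hc ss_nonneg)) (hh _)
  · exact neg_le_neg (mul_le_mul_of_nonneg_right hZ (Nat.cast_nonneg _))

theorem Inv.lt {h : ℕ → ℝ} {i : ℕ} {c Z : ℝ} (H : Inv B j h i c Z) (hs : 0 < ss B j)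
    (hc : 0 < c) : h (i + 2) < HS B univ (i + 2) := by
  obtain ⟨-, -, h2, h3, -⟩ := H
  have h4 : 1 < Real.exp (ss B j * c) := Real.one_lt_exp_iff.2 (mul_pos hs hc)
  by_contra h5
  push Not at h5
  nlinarith

section
variable (hb : Stoch B) (hj : j * ((N : ℝ) - 1) = 1) (hN : (10 : ℝ) ^ 50 ≤ N) {h : ℕ → ℝ}
  (hh : ∀ k, 0 ≤ h k)
  (hrec : ∀ k : ℕ, 2 * ((k : ℝ) + 1) * h (k + 1) =
    j * (((N : ℝ) - 2 * k) * ((N : ℝ) - 2 * k - 1)) * h k)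
  {σ₂ ρ₁ : ℝ} (hσ : ss B j ≤ σ₂ * N) (hρ₁ : ρ₁ * ss B j ≤ s3 B j)
include hb hj hN hrec hσ hρ₁

theorem Inv.step {p₁ p₂ : ℝ} {r : Row ℝ} (hA : RowA p₁ p₂ σ₂ r) (hB : RowB p₁ p₂ r)
    (hC : RowC σ₂ ρ₁ r) (hD : RowD p₁ p₂ σ₂ r) {i : ℕ} (k1 : p₁ * N ≤ 2 * ((i : ℝ) + 2))
    (k2 : 2 * ((i : ℝ) + 2) ≤ p₂ * N) {c : ℝ} (H : Inv B j h i c r.Z) :
    Inv B j h (i + 1) (c + r.g / N) r.Z := by
  obtain ⟨h0, h1, h2, h3, h4⟩ := H
  obtain ⟨g1, g2, g3⟩ := level_main hb hj hN hA hB hC k1 k2 hσ hρ₁ h0 h1 h2 h4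
  refine ⟨h1, h2, g1, ?_, g3⟩
  have e1 := ratio_main hb hj hN hA hD (k := i + 2) (by push_cast; exact k1) (by push_cast; exact k2)
    hσ h2 g2 g3
  have e2 := hrec (i + 2)
  have hN0 : (0 : ℝ) < N := lt_of_lt_of_le (by positivity) hN
  have hE : 0 ≤ j * (((N : ℝ) - 2 * ((i + 2 : ℕ) : ℝ)) * ((N : ℝ) - 2 * ((i + 2 : ℕ) : ℝ) - 1)) := by
    clear * - p₂ N r p₁ σ₂ hA hN0 j i hj hN k2
    have := mul_le_mul_of_nonneg_right hA.2.1 hN0.le
    push_cast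
    exact mul_nonneg (j_small hj hN).1.le (mul_nonneg (by linarith) (by linarith))
  refine le_of_mul_le_mul_left ?_ (show (0 : ℝ) < 2 * (((i + 2 : ℕ) : ℝ) + 1) by positivity)
  refine le_trans (le_of_eq ?_) (le_trans (mul_le_mul_of_nonneg_left h3
    (mul_nonneg (Real.exp_pos (ss B j / N * r.g)).le hE)) e1)
  rw [show ss B j * (c + r.g / N) = ss B j / N * r.g + ss B j * c by ring, Real.exp_add]
  linear_combination Real.exp (ss B j / N * r.g) * Real.exp (ss B j * c) * e2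

theorem Inv.steps {p₁ p₂ : ℝ} {r : Row ℝ} (hA : RowA p₁ p₂ σ₂ r) (hB : RowB p₁ p₂ r)
    (hC : RowC σ₂ ρ₁ r) (hD : RowD p₁ p₂ σ₂ r) {i : ℕ} (k1 : p₁ * N ≤ 2 * ((i : ℝ) + 2)) {c : ℝ}
    (H : Inv B j h i c r.Z) (m : ℕ) (k2 : 2 * ((i : ℝ) + m + 2) ≤ p₂ * N + 2) :
    Inv B j h (i + m) (c + r.g * (m / N)) r.Z := by
  induction m with
  | zero => simpa using H
  | succ m ih =>
    push_cast at k2
    have hm : (0 : ℝ) ≤ m := Nat.cast_nonneg m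
    have := Inv.step hb hj hN hrec hσ hρ₁ hA hB hC hD (i := i + m) (by push_cast; linarith)
      (by push_cast; linarith) (ih (by linarith))
    rw [show c + r.g * ((m : ℝ) / N) + r.g / N = c + r.g * (((m + 1 : ℕ) : ℝ) / N) by
      push_cast; ring] at this
    exact this

end

theorem chain (hb : Stoch B) (hj : j * ((N : ℝ) - 1) = 1) (hN : (10 : ℝ) ^ 50 ≤ N) {h : ℕ → ℝ}
    (hh : ∀ k, 0 ≤ h k)
    (hrec : ∀ k : ℕ, 2 * ((k : ℝ) + 1) * h (k + 1) =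
      j * (((N : ℝ) - 2 * k) * ((N : ℝ) - 2 * k - 1)) * h k)
    {σ₂ ρ₁ : ℚ} (hσ : ss B j ≤ σ₂ * N) (hρ₁ : ρ₁ * ss B j ≤ s3 B j) (hs : 0 < ss B j) {k : ℕ}
    (hk1 : (N : ℝ) + 10 < 10 * ((k : ℝ) + 2)) (hk2 : 4 * ((k : ℝ) + 2) ≤ N) :
    ∀ (rs : List (Row ℚ)) (p c Z : ℚ), Chk σ₂ ρ₁ rs p c Z → ∀ i : ℕ, (p : ℝ) * N ≤ 2 * ((i : ℝ) + 2) →
      2 * ((i : ℝ) + 2) ≤ p * N + 2 → i ≤ k → Inv B j h i c Z → h (k + 2) < HS B univ (k + 2) := by
  have hN0 : (0 : ℝ) < N := lt_of_lt_of_le (by positivity) hN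
  have hu : 1 / (N : ℝ) ≤ 1 / 10 ^ 10 := one_div_le_one_div_of_le (by positivity) (by linarith)
  intro rs
  induction rs with
  | nil =>
    rintro p c Z ⟨c1, c2⟩ i k1 - hik H
    have e1 : (1 / 2 : ℝ) ≤ p := by simpa using qle c1
    have e2 : (k : ℝ) ≤ i := by clear * - k i N p hk2 k1 e1 hN0; linarith [mul_le_mul_of_nonneg_right e1 hN0.le]
    obtain rfl : i = k := le_antisymm hik (by exact_mod_cast e2)
    exact H.lt hs (by simpa using qlt c2)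
  | cons r rs ih =>
    rintro p c Z ⟨cA, cB, cC, cD, cZ, g1, g2, cp, cr⟩ i k1 k2 hik H
    have g1' : (-1 : ℝ) ≤ r.cst.g := by simpa [Row.cst] using qle g1
    have g2' : r.cst.g ≤ (1 : ℝ) := by simpa [Row.cst] using qle g2
    have H1 := Inv.steps hb hj hN hrec hσ hρ₁ cA.cst cB.cst cC.cst cD.cst k1
      (H.mono hh le_rfl (qle cZ))
    push_cast at H1
    have hp0 : (0 : ℝ) ≤ p := le_trans (by norm_num) cA.cst.1
    obtain ⟨m, hm1, hm2⟩ : ∃ m : ℕ, ((p : ℝ) + 1 / 250) * N ≤ 2 * ((i : ℝ) + m + 2) ∧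
        2 * ((i : ℝ) + m + 2) ≤ (p + 1 / 250) * N + 2 := by
      clear * - p N i hN k2
      have e0 : 0 ≤ ((p : ℝ) + 1 / 250) * N / 2 - (i + 2) := by linarith
      refine ⟨⌈((p : ℝ) + 1 / 250) * N / 2 - (i + 2)⌉₊, ?_, ?_⟩
      · linarith [Nat.le_ceil (((p : ℝ) + 1 / 250) * N / 2 - (i + 2))]
      · linarith [Nat.ceil_lt_add_one e0]
    rcases le_total k (i + m) with hk | hk
    · obtain ⟨l, rfl⟩ := Nat.exists_eq_add_of_le hik
      have hl : (l : ℝ) ≤ m := by exact_mod_cast Nat.le_of_add_le_add_left hk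
      push_cast at hk1
      refine (H1 l (by linarith only [hl, hm2])).lt hs ?_
      rcases cp with cp | ⟨cp1, cp2⟩
      · have e1 : (p : ℝ) + 1 / 250 ≤ 1 / 5 := by simpa using qle cp
        clear * - c r l N i m p hm2 hl hk1 e1 hN0
        linarith [mul_le_mul_of_nonneg_right e1 hN0.le]
      · have e1 : (1 / 10 ^ 9 : ℝ) ≤ c := by simpa using qle cp1
        have e2 : (1 / 10 ^ 9 : ℝ) ≤ c + r.cst.g / 500 := by simpa [Row.cst] using qle cp2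
        have e3 : (l : ℝ) / N ≤ 1 / 500 + 1 / N := by
          clear * - l N hN0 p i m k1 hm2 hl
          rw [div_le_iff₀ hN0, add_mul, one_div_mul_cancel hN0.ne']; linarith
        have e4 : 0 ≤ (l : ℝ) / N := by positivity
        rcases le_total 0 r.cst.g with e | e
        · clear * - c r l N e1 e e4
          linarith [mul_nonneg e e4]
        · clear * - c r l N g1' e2 e3 e hu
          linarith [mul_le_mul_of_nonpos_left e3 e, mul_le_mul_of_nonpos_left hu e]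
    · refine ih _ _ _ cr (i + m) (by clear * - p N i m hm1 H1 cr hN0 hh hk hm2 ih r; push_cast; linarith) (by push_cast; linarith only [hm2]) hk
        ((H1 m hm2).mono hh ?_ le_rfl)
      have e3 : (m : ℝ) / N ≤ 1 / 500 + 1 / N := by
        rw [div_le_iff₀ hN0, add_mul, one_div_mul_cancel hN0.ne']; linarith only [k1, hm2]
      have e4 : 1 / 500 - 1 / N ≤ (m : ℝ) / N := by
        clear * - N m hN0 i p k2 hm1
        rw [le_div_iff₀ hN0, sub_mul, one_div_mul_cancel hN0.ne']; linarith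
      have e5 : ((r.g : ℚ) : ℝ) = r.cst.g := rfl
      push_cast
      rw [e5]
      rcases le_total 0 r.cst.g with e | e
      · clear * - c r m N g2' e3 e4 e hu g1'
        linarith [mul_le_mul_of_nonneg_left e4 e, mul_le_mul_of_nonneg_left hu e]
      · clear * - c r m N g1' e3 e4 e hu g2'
        linarith [mul_le_mul_of_nonpos_left e3 e, mul_le_mul_of_nonpos_left hu e]

end Pool.Agent.Work.MP_33747a_co
end
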